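import Pool.Agent.H41.RM.Exist2
import Pool.Agent.H41.Lib.N915.WT.Wall

/-! # Rational multiples and sparse perturbations -/

set_option autoImplicit false

open Finset Filter Topology

namespace H41.RM

open H41.SW Pool.Agent.H534R3.UDist Pool.Agent.H534R3.Rota Pool.Agent.N915.WT

/-- Weyl's condition in base `b` -/
def WW (b : ℕ) (x : ℝ) : Prop := ∀ h : ℤ, h ≠ 0 → Tendsto (avg (ex b x h)) atTop (𝓝 0)

lemma ee_eq (t : ℝ) : ee t = e t := by
  unfold ee e
  congr 1
  push_cast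
  ring

lemma conj_avg (b : ℕ) (x : ℝ) (h : ℤ) (N : ℕ) :
    avg (ex b x (-h)) N = (starRingEnd ℂ) (avg (ex b x h) N) := by
  unfold avg
  rw [map_div₀, map_sum, map_natCast]
  congr 1
  refine sum_congr rfl fun n _ => ?_
  unfold ex
  rw [← e_neg]
  congr 1
  push_cast
  ring

lemma WW_of_nat (b : ℕ) (x : ℝ) (h : ∀ m : ℕ, 1 ≤ m → Tendsto (avg (ex b x m)) atTop (𝓝 0)) : WW b x := by
  intro m hm
  obtain ⟨k, rfl | rfl⟩ := m.eq_nat_or_neg
  · exact h k (by have : k ≠ 0 := by exact_mod_cast hm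
                  omega)
  · have hk : 1 ≤ k := by
      have : k ≠ 0 := by
        intro h0
        apply hm
        rw [h0]
        rfl
      omega
    have h1 := h k hk
    have h2 := (Complex.continuous_conj.tendsto (0 : ℂ)).comp h1
    rw [map_zero] at h2
    refine h2.congr fun N => ?_
    exact (conj_avg b x k N).symm

lemma WW_iff_UD (b : ℕ) (x : ℝ) : WW b x ↔ UD fun n => (b : ℝ) ^ n * x := by
  have key : ∀ m : ℕ, ∀ N : ℕ, ‖∑ n ∈ range N, ee (m * ((b : ℝ) ^ n * x))‖ / (N : ℝ) = ‖avg (ex b x m) N‖ := by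
    intro m N
    unfold avg
    rw [norm_div, Complex.norm_natCast]
    congr 2
    refine sum_congr rfl fun n _ => ?_
    rw [ee_eq]
    unfold ex
    congr 1
  constructor
  · intro h
    refine ud_of_weyl _ ?_
    intro m hm
    have h1 := h m (by exact_mod_cast (by omega : m ≠ 0))
    rw [tendsto_zero_iff_norm_tendsto_zero] at h1
    exact h1.congr fun N => (key m N).symm
  · intro h
    refine WW_of_nat b x fun m hm => ?_
    rw [tendsto_zero_iff_norm_tendsto_zero]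
    exact (ud_weyl _ h m hm).congr fun N => key m N

/-- **Wall's theorem** -/
lemma WW_rat (b : ℕ) (hb : 2 ≤ b) (x : ℝ) (h : WW b x) (q : ℚ) (hq : q ≠ 0) : WW b (q * x) := by
  have h1 := wall hb ((WW_iff_UD b x).1 h) q 0 hq
  rw [WW_iff_UD]
  refine ud_of_weyl _ ?_
  have h2 : (fun n : ℕ => (b : ℝ) ^ n * (q * x)) = fun n : ℕ => (b : ℝ) ^ n * (q * x + ((0 : ℚ) : ℝ)) := by
    funext n
    push_cast
    ring
  rw [h2]
  exact h1

lemma WW_rat_iff (b : ℕ) (hb : 2 ≤ b) (x : ℝ) (q : ℚ) (hq : q ≠ 0) : WW b (q * x) ↔ WW b x := by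
  constructor
  · intro h
    have h1 := WW_rat b hb _ h q⁻¹ (inv_ne_zero hq)
    have h2 : ((q⁻¹ : ℚ) : ℝ) * (q * x) = x := by
      have hq' : (q : ℝ) ≠ 0 := by exact_mod_cast hq
      push_cast
      field_simp
    rw [h2] at h1
    exact h1
  · intro h
    exact WW_rat b hb x h q hq

/-- the number with the digits one at the places in `A` -/
noncomputable def on (b : ℕ) (A : Set ℕ) : ℝ := ∑' j, A.indicator (fun j => 1 / (b : ℝ) ^ (j + 1)) j

lemma summ_on (b : ℕ) (hb : 2 ≤ b) (A : Set ℕ) : Summable (A.indicator fun j => 1 / (b : ℝ) ^ (j + 1)) := by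
  have hb1 : (1 : ℝ) < b := by exact_mod_cast (by omega : 1 < b)
  refine Summable.indicator ?_ A
  have hs : Summable fun j : ℕ => (1 / (b : ℝ)) ^ j :=
    summable_geometric_of_lt_one (by positivity) (by rw [div_lt_one (by linarith)]; exact hb1)
  refine ((summable_nat_add_iff 1).2 hs).congr fun j => ?_
  rw [one_div_pow]

lemma nn_on (b : ℕ) (hb : 2 ≤ b) (A : Set ℕ) (n K : ℕ) (h : ∀ j, n ≤ j → j < n + K → j ∉ A) :
    nn ((b : ℝ) ^ n * on b A) ≤ 2 / (b : ℝ) ^ K := by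
  classical
  have hb1 : (1 : ℝ) < b := by exact_mod_cast (by omega : 1 < b)
  have hb2 : (2 : ℝ) ≤ b := by exact_mod_cast hb
  have hb0 : (0 : ℝ) < b := by linarith
  have hs := summ_on b hb A
  have e1 := hs.sum_add_tsum_nat_add (n + K)
  obtain ⟨F, hF⟩ : ∃ F : ℕ → ℝ, F = A.indicator fun j => 1 / (b : ℝ) ^ (j + 1) := ⟨_, rfl⟩
  rw [← hF] at hs e1
  have e2 : ∑ j ∈ range (n + K), F j = ∑ j ∈ range n, F j := by
    rw [sum_range_add, add_eq_left]
    refine sum_eq_zero fun j hj => ?_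
    rw [hF]
    exact Set.indicator_of_notMem (h _ (by omega) (by rw [mem_range] at hj; omega)) _
  obtain ⟨z, hz⟩ : ∃ z : ℤ, (b : ℝ) ^ n * ∑ j ∈ range n, F j = z := by
    refine ⟨∑ j ∈ range n, if j ∈ A then (b : ℤ) ^ (n - 1 - j) else 0, ?_⟩
    push_cast
    rw [mul_sum]
    refine sum_congr rfl fun j hj => ?_
    rw [mem_range] at hj
    rw [hF]
    by_cases h1 : j ∈ A
    · rw [Set.indicator_of_mem h1, if_pos h1]
      have h2 : (b : ℝ) ^ n = (b : ℝ) ^ (n - 1 - j) * (b : ℝ) ^ (j + 1) := by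
        rw [← pow_add]
        congr 1
        omega
      rw [h2]
      field_simp
    · rw [Set.indicator_of_notMem h1, if_neg h1, mul_zero]
  have h1 := nn_le ((b : ℝ) ^ n * on b A) z
  refine h1.trans ?_
  have e3 : on b A = ∑' j, F j := by rw [hF]; rfl
  have e4 : (b : ℝ) ^ n * on b A - z = (b : ℝ) ^ n * ∑' j, F (j + (n + K)) := by
    rw [e3, ← e1, e2, mul_add, hz]
    ring
  have hFn : ∀ j, 0 ≤ F j := fun j => by
    rw [hF]
    exact Set.indicator_nonneg (fun _ _ => by positivity) _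
  rw [e4, abs_of_nonneg (mul_nonneg (by positivity) (tsum_nonneg fun j => hFn _))]
  have hg : HasSum (fun j : ℕ => (1 / (b : ℝ)) ^ j) (1 - 1 / (b : ℝ))⁻¹ :=
    hasSum_geometric_of_lt_one (by positivity) (by rw [div_lt_one (by linarith)]; exact hb1)
  have hg2 : HasSum (fun j : ℕ => (1 / (b : ℝ)) ^ j / (b : ℝ) ^ (n + K))
    ((1 - 1 / (b : ℝ))⁻¹ / (b : ℝ) ^ (n + K)) := hg.div_const _
  have h3 : ∑' j, F (j + (n + K)) ≤ (1 - 1 / (b : ℝ))⁻¹ / (b : ℝ) ^ (n + K) := by
    refine hasSum_le (fun j => ?_) ((summable_nat_add_iff (n + K)).2 hs).hasSum hg2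
    rw [one_div_pow, div_div, ← pow_add, hF]
    by_cases h4 : j + (n + K) ∈ A
    · rw [Set.indicator_of_mem h4]
      exact one_div_le_one_div_of_le (by positivity) (pow_le_pow_right₀ hb1.le (by omega))
    · rw [Set.indicator_of_notMem h4]
      positivity
  have h5 : (1 - 1 / (b : ℝ))⁻¹ ≤ 2 := by
    rw [inv_le_comm₀ (by rw [sub_pos, div_lt_one (by linarith)]; exact hb1) (by norm_num)]
    have : 1 / (b : ℝ) ≤ 1 / 2 := by gcongr
    linarith
  calc (b : ℝ) ^ n * ∑' j, F (j + (n + K)) ≤ (b : ℝ) ^ n * ((1 - 1 / (b : ℝ))⁻¹ / (b : ℝ) ^ (n + K)) := by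
        gcongr
    _ ≤ (b : ℝ) ^ n * (2 / (b : ℝ) ^ (n + K)) := by gcongr
    _ = 2 / (b : ℝ) ^ K := by
        rw [pow_add]
        field_simp

open Classical in
/-- number of the windows which meet `A` -/
lemma meet_count (A : Set ℕ) (N K : ℕ) : ((range N).filter fun n => ∃ j, n ≤ j ∧ j < n + K ∧ j ∈ A).card ≤
    K * (A ∩ Set.Iio (N + K)).ncard := by
  have h0 : (A ∩ Set.Iio (N + K)) = (((range (N + K)).filter fun j => j ∈ A : Finset ℕ) : Set ℕ) := by
    ext j
    simp only [Set.mem_inter_iff, Set.mem_Iio, coe_filter, mem_range, Set.mem_ofPred_eq]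
    tauto
  rw [h0, Set.ncard_coe_finset]
  have h1 : ((range N).filter fun n => ∃ j, n ≤ j ∧ j < n + K ∧ j ∈ A) ⊆
      (((range (N + K)).filter fun j => j ∈ A) ×ˢ range K).image fun p => p.1 - p.2 := by
    intro n hn
    rw [mem_filter, mem_range] at hn
    obtain ⟨hn, j, h1, h2, h3⟩ := hn
    rw [mem_image]
    refine ⟨(j, j - n), ?_, by simp only; omega⟩
    rw [mem_product, mem_filter, mem_range, mem_range]
    exact ⟨⟨by omega, h3⟩, by simp only; omega⟩
  refine (card_le_card h1).trans (card_image_le.trans ?_)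
  rw [card_product, card_range, mul_comm]

/-- A set of density zero. -/
def Sparse (A : Set ℕ) : Prop := Tendsto (fun N : ℕ => ((A ∩ Set.Iio N).ncard : ℝ) / N) atTop (𝓝 0)

lemma sparse_of_count (A : Set ℕ)
    (hA : ∀ᶠ N : ℕ in atTop, ((A ∩ Set.Iio N).ncard : ℝ) ≤ N * Real.log (Real.log N) / Real.log N) :
    Sparse A := density_zero A hA

lemma nn_on_small (b : ℕ) (hb : 2 ≤ b) (A : Set ℕ) (hA : Sparse A) :
    Tendsto (fun N : ℕ => (∑ n ∈ range N, nn ((b : ℝ) ^ n * on b A)) / N) atTop (𝓝 0) := by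
  classical
  have hb1 : (1 : ℝ) < b := by exact_mod_cast (by omega : 1 < b)
  rw [Metric.tendsto_atTop]
  intro ε hε
  obtain ⟨K, hK⟩ : ∃ K : ℕ, 2 / (b : ℝ) ^ K < ε / 2 := by
    have h1 : Tendsto (fun K : ℕ => 2 / (b : ℝ) ^ K) atTop (𝓝 0) :=
      tendsto_const_nhds.div_atTop (tendsto_pow_atTop_atTop_of_one_lt hb1)
    exact (h1.eventually (gt_mem_nhds (by positivity))).exists
  have h2 : Tendsto (fun N : ℕ => (K : ℝ) * (2 * (((A ∩ Set.Iio (N + K)).ncard : ℝ) / ((N + K : ℕ) : ℝ)))) atTop (𝓝 0) := by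
    have h3 := (hA.comp (tendsto_add_atTop_nat K)).const_mul 2
    rw [mul_zero] at h3
    have h4 := h3.const_mul (K : ℝ)
    rw [mul_zero] at h4
    exact h4
  obtain ⟨N0, hN0⟩ := eventually_atTop.1 ((h2.eventually (gt_mem_nhds (show (0 : ℝ) < ε / 2 by positivity))).and
    (eventually_ge_atTop (K + 1)))
  refine ⟨N0, fun N hN => ?_⟩
  obtain ⟨h3, h4⟩ := hN0 N hN
  have hNr : (0 : ℝ) < N := by exact_mod_cast (by omega : 0 < N)
  rw [dist_zero_right, Real.norm_of_nonneg (div_nonneg (sum_nonneg fun _ _ => nn_nonneg _) hNr.le),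
    div_lt_iff₀ hNr]
  obtain ⟨M, hM⟩ : ∃ M, M = (range N).filter fun n => ∃ j, n ≤ j ∧ j < n + K ∧ j ∈ A := ⟨_, rfl⟩
  have h5 : ∀ n ∈ range N, nn ((b : ℝ) ^ n * on b A) ≤ (if n ∈ M then 1 else 0) + 2 / (b : ℝ) ^ K := by
    intro n hn
    by_cases h6 : n ∈ M
    · rw [if_pos h6]
      have := nn_le_half ((b : ℝ) ^ n * on b A)
      have : 0 ≤ 2 / (b : ℝ) ^ K := by positivity
      linarith
    · rw [if_neg h6, zero_add]
      refine nn_on b hb A n K fun j h7 h8 h9 => h6 ?_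
      rw [hM, mem_filter]
      exact ⟨hn, j, h7, h8, h9⟩
  refine lt_of_le_of_lt (sum_le_sum h5) ?_
  rw [sum_add_distrib, sum_const, card_range, nsmul_eq_mul, sum_boole]
  have h6 : (((range N).filter fun n => n ∈ M).card : ℝ) ≤ K * ((A ∩ Set.Iio (N + K)).ncard : ℝ) := by
    have h7 : ((range N).filter fun n => n ∈ M) ⊆ M := fun n hn => (mem_filter.1 hn).2
    have h8 : M.card ≤ K * (A ∩ Set.Iio (N + K)).ncard := by
      rw [hM]
      convert meet_count A N K
    exact_mod_cast (card_le_card h7).trans h8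
  have h7 : (K : ℝ) * ((A ∩ Set.Iio (N + K)).ncard : ℝ) < ε / 2 * N := by
    have hNK : (0 : ℝ) < ((N + K : ℕ) : ℝ) := by exact_mod_cast (by omega : 0 < N + K)
    have h8 : (K : ℝ) * ((A ∩ Set.Iio (N + K)).ncard : ℝ) =
        (K * (2 * (((A ∩ Set.Iio (N + K)).ncard : ℝ) / ((N + K : ℕ) : ℝ)))) * (((N + K : ℕ) : ℝ) / 2) := by
      field_simp
    rw [h8]
    have h9 : ((N + K : ℕ) : ℝ) / 2 ≤ N := by
      push_cast
      have : (K : ℝ) ≤ N := by exact_mod_cast (by omega : K ≤ N)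
      linarith
    have h10 : 0 ≤ (K : ℝ) * (2 * (((A ∩ Set.Iio (N + K)).ncard : ℝ) / ((N + K : ℕ) : ℝ))) := by positivity
    calc _ ≤ (K : ℝ) * (2 * (((A ∩ Set.Iio (N + K)).ncard : ℝ) / ((N + K : ℕ) : ℝ))) * N := by gcongr
      _ < ε / 2 * N := by gcongr
  have h8 : (N : ℝ) * (2 / (b : ℝ) ^ K) < ε / 2 * N := by
    rw [mul_comm]
    gcongr
  linarith

/-- Integer multiples of sparse numbers do not matter. -/
lemma WW_add (b : ℕ) (hb : 2 ≤ b) (A : Set ℕ) (hA : Sparse A) (z : ℝ) (m : ℤ) (h : WW b z) :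
    WW b (z + m * on b A) := by
  intro k hk
  have h1 := h k hk
  have h2 : Tendsto (fun N => avg (ex b (z + m * on b A) k) N - avg (ex b z k) N) atTop (𝓝 0) := by
    rw [tendsto_zero_iff_norm_tendsto_zero]
    have h3 := (nn_on_small b hb A hA).const_mul (2 * Real.pi * |(k * m : ℝ)|)
    rw [mul_zero] at h3
    refine squeeze_zero (fun _ => norm_nonneg _) (fun N => ?_) h3
    unfold avg
    rw [← sub_div, norm_div, Complex.norm_natCast, ← sum_sub_distrib, mul_div_assoc', mul_sum]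
    gcongr
    refine (norm_sum_le _ _).trans (sum_le_sum fun n _ => ?_)
    obtain ⟨t, ht⟩ : ∃ t : ℤ, t = round ((b : ℝ) ^ n * on b A) := ⟨_, rfl⟩
    have e1 : ex b (z + m * on b A) k n = e (k * ((b : ℝ) ^ n * z) + k * m * ((b : ℝ) ^ n * on b A - t)) := by
      unfold ex
      have e2 : (k : ℝ) * ((b : ℝ) ^ n * (z + m * on b A)) =
          (k * ((b : ℝ) ^ n * z) + k * m * ((b : ℝ) ^ n * on b A - t)) + ((k * m * t : ℤ) : ℝ) := by
        push_cast
        ring
      rw [e2, e_add]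
      have e3 : e (((k * m * t : ℤ) : ℝ)) = 1 := by
        unfold e
        rw [Complex.exp_eq_one_iff]
        exact ⟨k * m * t, by push_cast; ring⟩
      rw [e3, mul_one]
    rw [e1]
    unfold ex
    refine (e_sub_le _ _).trans (le_of_eq ?_)
    rw [add_sub_cancel_left, abs_mul]
    unfold nn
    rw [← ht]
    ring
  have h3 := h1.add h2
  rw [add_zero] at h3
  refine h3.congr fun N => ?_
  ring

/-- **Rational multiples of sparse numbers do not matter.** -/
theorem WW_sparse_iff (b : ℕ) (hb : 2 ≤ b) (A : Set ℕ) (hA : Sparse A) (y : ℝ) (r : ℚ) :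
    WW b (y + r * on b A) ↔ WW b y := by
  have hd : (r.den : ℚ) ≠ 0 := by exact_mod_cast r.den_nz
  have h1 : ((r.den : ℚ) : ℝ) * (y + r * on b A) = ((r.den : ℚ) : ℝ) * y + (r.num : ℤ) * on b A := by
    have h2 : (r : ℝ) * r.den = r.num := by
      have := Rat.mul_den_eq_num r
      exact_mod_cast this
    push_cast
    linear_combination (on b A) * h2
  rw [← WW_rat_iff b hb (y + r * on b A) r.den hd, ← WW_rat_iff b hb y r.den hd, h1]
  constructor
  · intro h
    have h2 := WW_add b hb A hA _ (-r.num) h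
    have h3 : ((r.den : ℚ) : ℝ) * y + (r.num : ℤ) * on b A + ((-r.num : ℤ) : ℝ) * on b A =
        ((r.den : ℚ) : ℝ) * y := by
      push_cast
      ring
    rw [h3] at h2
    exact h2
  · intro h
    exact WW_add b hb A hA _ r.num h

end H41.RM
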