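import Pool.Agent.H41.RM.Main

/-! # Almost sure convergence of the exponential sums of random multiples -/

set_option autoImplicit false
set_option linter.unusedSectionVars false

open Finset Filter Topology MeasureTheory ProbabilityTheory

namespace H41.RM

open H41.SW

variable {Ω : Type*} [MeasurableSpace Ω] (μ : Measure Ω) [IsProbabilityMeasure μ]
  (ξ : ℕ → Ω → ℝ)

/-- the random multiplier -/
noncomputable def CC (b : ℕ) (ω : Ω) : ℝ := ∑' j, ξ j ω / (b : ℝ) ^ j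

lemma summ_CC (b : ℕ) (hb : 2 ≤ b) (h1 : ∀ j ω, |ξ j ω| ≤ 1) (ω : Ω) :
    Summable fun j => ξ j ω / (b : ℝ) ^ j := by
  have hb1 : (1 : ℝ) < b := by exact_mod_cast (by omega : 1 < b)
  have hs : Summable fun j : ℕ => (1 / (b : ℝ)) ^ j :=
    summable_geometric_of_lt_one (by positivity) (by rw [div_lt_one (by linarith)]; exact hb1)
  refine Summable.of_norm_bounded hs fun j => ?_
  rw [Real.norm_eq_abs, abs_div, abs_of_pos (show (0 : ℝ) < (b : ℝ) ^ j by positivity), one_div,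
    inv_pow, ← one_div]
  gcongr
  exact h1 j ω

lemma tail_CC (b : ℕ) (hb : 2 ≤ b) (h1 : ∀ j ω, |ξ j ω| ≤ 1) (ω : Ω) (H : ℕ) :
    |CC ξ b ω - ∑ j ∈ range H, ξ j ω / (b : ℝ) ^ j| ≤ 2 / (b : ℝ) ^ H := by
  have hb1 : (1 : ℝ) < b := by exact_mod_cast (by omega : 1 < b)
  have hb2 : (2 : ℝ) ≤ b := by exact_mod_cast hb
  have hs := summ_CC ξ b hb h1 ω
  have e1 := hs.sum_add_tsum_nat_add H
  have e2 : CC ξ b ω - ∑ j ∈ range H, ξ j ω / (b : ℝ) ^ j = ∑' j, ξ (j + H) ω / (b : ℝ) ^ (j + H) := by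
    unfold CC
    rw [← e1]
    ring
  rw [e2, ← Real.norm_eq_abs]
  have hg : HasSum (fun j : ℕ => (1 / (b : ℝ)) ^ j) (1 - 1 / (b : ℝ))⁻¹ :=
    hasSum_geometric_of_lt_one (by positivity) (by rw [div_lt_one (by linarith)]; exact hb1)
  have hg2 : HasSum (fun j : ℕ => (1 / (b : ℝ)) ^ j / (b : ℝ) ^ H) ((1 - 1 / (b : ℝ))⁻¹ / (b : ℝ) ^ H) :=
    hg.div_const _
  have h3 := tsum_of_norm_bounded (f := fun j => ξ (j + H) ω / (b : ℝ) ^ (j + H)) hg2 (fun j => by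
    rw [Real.norm_eq_abs, abs_div, abs_of_pos (show (0 : ℝ) < (b : ℝ) ^ (j + H) by positivity), pow_add,
      ← div_div, one_div, inv_pow, ← one_div]
    gcongr
    exact h1 _ ω)
  refine h3.trans ?_
  gcongr
  rw [inv_le_comm₀ (by rw [sub_pos, div_lt_one (by linarith)]; exact hb1) (by norm_num)]
  have : 1 / (b : ℝ) ≤ 1 / 2 := by gcongr
  linarith

lemma term_split (b : ℕ) (hb : 2 ≤ b) (h1 : ∀ j ω, |ξ j ω| ≤ 1) (a x y : ℝ) (lo hi : ℕ)
    (hlh : lo ≤ hi) (ω : Ω) :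
    ‖e (a * (y + x * CC ξ b ω))‖ = 1 ∧
    ‖e (a * (y + x * CC ξ b ω)) - DD μ ξ (fun j => x / (b : ℝ) ^ j) a y lo hi ω‖ ≤
      4 * Real.pi * |a * x| / (b : ℝ) ^ hi + ‖ph μ ξ (fun j => x / (b : ℝ) ^ j) a lo hi‖ := by
  refine ⟨e_norm _, ?_⟩
  obtain ⟨c, hc⟩ : ∃ c : ℕ → ℝ, c = fun j => x / (b : ℝ) ^ j := ⟨_, rfl⟩
  rw [← hc]
  have e1 : part ξ c (range lo) ω + part ξ c (Ico lo hi) ω = part ξ c (range hi) ω := by
    unfold part
    exact Finset.sum_range_add_sum_Ico _ hlh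
  have e2 : part ξ c (range hi) ω = x * ∑ j ∈ range hi, ξ j ω / (b : ℝ) ^ j := by
    unfold part
    rw [mul_sum, hc]
    refine sum_congr rfl fun j _ => ?_
    ring
  have e3 : e (a * (y + x * CC ξ b ω)) - DD μ ξ c a y lo hi ω =
      (e (a * (y + x * CC ξ b ω)) - e (a * (y + part ξ c (range hi) ω))) +
        e (a * (y + part ξ c (range lo) ω)) * ph μ ξ c a lo hi := by
    have e4 : e (a * (y + part ξ c (range hi) ω)) =
        e (a * (y + part ξ c (range lo) ω)) * e (a * part ξ c (Ico lo hi) ω) := by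
      rw [← e_add, ← e1]
      congr 1
      ring
    rw [e4]
    unfold DD
    ring
  rw [e3]
  refine (norm_add_le _ _).trans ?_
  refine add_le_add ?_ ?_
  · refine (e_sub_le _ _).trans ?_
    have e5 : a * (y + x * CC ξ b ω) - a * (y + part ξ c (range hi) ω) =
        (a * x) * (CC ξ b ω - ∑ j ∈ range hi, ξ j ω / (b : ℝ) ^ j) := by
      rw [e2]
      ring
    rw [e5, abs_mul]
    calc 2 * Real.pi * (|a * x| * |CC ξ b ω - ∑ j ∈ range hi, ξ j ω / (b : ℝ) ^ j|)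
        ≤ 2 * Real.pi * (|a * x| * (2 / (b : ℝ) ^ hi)) := by
          gcongr
          exact tail_CC ξ b hb h1 ω hi
      _ = _ := by ring
  · rw [norm_mul, e_norm, one_mul]

/-- The block means are small on average. -/
lemma ph_small (hm : ∀ j, Measurable (ξ j)) (hind : iIndepFun ξ μ) (v : ℕ → ℝ) (hv0 : ∀ j, 0 ≤ v j)
    (hv : Tendsto (fun j : ℕ => v j * Real.log j) atTop atTop)
    (hchar : ∀ j t, ‖∫ ω, e (t * ξ j ω) ∂μ‖ ≤ Real.exp (-(v j * nn t ^ 2)))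
    (b β : ℕ) (hb : 2 ≤ b) (hβ : 2 ≤ β) (a x : ℝ) (hax : 1 ≤ |a * x|) (hrich : Rich b β |a * x|)
    (ε : ℝ) (hε : 0 < ε) :
    ∀ᶠ i : ℕ in atTop, ∑ n ∈ range (i ^ 4), ‖ph μ ξ (fun j => x / (b : ℝ) ^ j) (a * (β : ℝ) ^ n)
      (J b ((β : ℝ) ^ n * |a * x|) + 1 - i ^ 2) (J b ((β : ℝ) ^ n * |a * x|) + i ^ 2)‖ ≤
      ε * (i : ℝ) ^ 4 := by
  classical
  obtain ⟨w0, hw0⟩ : ∃ w0, w0 = |a * x| := ⟨_, rfl⟩
  rw [← hw0] at hax hrich ⊢
  obtain ⟨δ, hδ, hbad⟩ := hrich (ε / 3) (by positivity)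
  obtain ⟨M, hM0, hM⟩ : ∃ M : ℝ, 0 < M ∧ Real.exp (-(M * δ)) ≤ ε / 3 := by
    have h1 : Tendsto (fun M : ℝ => Real.exp (-(M * δ))) atTop (𝓝 0) :=
      Real.tendsto_exp_neg_atTop_nhds_zero.comp (tendsto_id.atTop_mul_const hδ)
    have h2 := (h1.eventually (ge_mem_nhds (show (0 : ℝ) < ε / 3 by positivity))).and
      (eventually_gt_atTop 0)
    obtain ⟨M, hM⟩ := h2.exists
    exact ⟨M, hM.2, hM.1⟩
  obtain ⟨j0, hj0⟩ := eventually_atTop.1 (hv.eventually_ge_atTop (5 * M))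
  obtain ⟨g, hg⟩ := J_upper b β hb hβ w0 hax
  have hb1 : (1 : ℝ) < b := by exact_mod_cast (by omega : 1 < b)
  have hsmall : ∀ᶠ i : ℕ in atTop, ((b * (i ^ 2 + j0 + 2) : ℕ) : ℝ) ≤ ε / 3 * (i : ℝ) ^ 4 := by
    have h1 : Tendsto (fun i : ℕ => (ε / 3) * (i : ℝ)) atTop atTop :=
      Tendsto.const_mul_atTop (by positivity) tendsto_natCast_atTop_atTop
    filter_upwards [h1.eventually_ge_atTop ((b * (j0 + 3) : ℕ) : ℝ), eventually_ge_atTop 1] with i hi hi1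
    have hi1' : (1 : ℝ) ≤ i := by exact_mod_cast hi1
    have h2 : ((b * (i ^ 2 + j0 + 2) : ℕ) : ℝ) ≤ ((b * (j0 + 3) : ℕ) : ℝ) * (i : ℝ) ^ 2 := by
      push_cast
      have h3 : (1 : ℝ) ≤ (i : ℝ) ^ 2 := one_le_pow₀ hi1'
      have h4 : (0 : ℝ) ≤ (j0 : ℝ) := Nat.cast_nonneg _
      have h5 : (i : ℝ) ^ 2 + j0 + 2 ≤ (j0 + 3) * (i : ℝ) ^ 2 := by nlinarith
      calc (b : ℝ) * ((i : ℝ) ^ 2 + j0 + 2) ≤ b * ((j0 + 3) * (i : ℝ) ^ 2) := by gcongr
        _ = _ := by ring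
    calc ((b * (i ^ 2 + j0 + 2) : ℕ) : ℝ) ≤ ((b * (j0 + 3) : ℕ) : ℝ) * (i : ℝ) ^ 2 := h2
      _ ≤ (ε / 3 * (i : ℝ)) * (i : ℝ) ^ 2 := by gcongr
      _ = ε / 3 * (i : ℝ) ^ 3 := by ring
      _ ≤ ε / 3 * (i : ℝ) ^ 4 := by
          gcongr
          norm_num
  filter_upwards [hbad, hsmall, eventually_ge_atTop (β + g + j0 + 2)] with i hbad hsmall hi
  have hi0 : 0 < i := by omega
  have hir : (1 : ℝ) < i := by exact_mod_cast (by omega : 1 < i)
  have hlogi := Real.log_pos hir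
  obtain ⟨jn, hjn⟩ : ∃ jn : ℕ → ℕ, jn = fun n => J b ((β : ℝ) ^ n * w0) := ⟨_, rfl⟩
  obtain ⟨B, hB⟩ : ∃ B, B = (range (i ^ 4)).filter fun n : ℕ =>
    T b ((β : ℝ) ^ n * w0 / (b : ℝ) ^ J b ((β : ℝ) ^ n * w0)) (i ^ 2) < δ * Real.log i := ⟨_, rfl⟩
  rw [← hB] at hbad
  obtain ⟨f, hf⟩ : ∃ f : ℕ → ℝ, f = fun n => ‖ph μ ξ (fun j => x / (b : ℝ) ^ j) (a * (β : ℝ) ^ n)
      (J b ((β : ℝ) ^ n * w0) + 1 - i ^ 2) (J b ((β : ℝ) ^ n * w0) + i ^ 2)‖ := ⟨_, rfl⟩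
  have hf1 : ∀ n, f n ≤ 1 := fun n => by rw [hf]; exact norm_ph μ ξ _ _ _ _
  have hf0 : ∀ n, 0 ≤ f n := fun n => by rw [hf]; exact norm_nonneg _
  have hmain : ∀ n < i ^ 4, n ∉ B → b * (i ^ 2 + j0 + 2) ≤ n → f n ≤ ε / 3 := by
    intro n hn hnB hnb
    have hT : δ * Real.log i ≤ T b ((β : ℝ) ^ n * w0 / (b : ℝ) ^ jn n) (i ^ 2) := by
      rw [hB, mem_filter] at hnB
      push Not at hnB
      have := hnB (mem_range.2 hn)
      rw [hjn]
      exact this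
    have hJ1 : i ^ 2 + j0 + 2 ≤ jn n := by
      have h1 := J_lower b β hb hβ w0 hax 0 n (i ^ 2 + j0 + 2) (by omega)
      rw [hjn]
      simp only
      omega
    have hJ2 : jn n ≤ i ^ 5 := by
      have h1 := hg n
      rw [hjn]
      simp only
      calc J b ((β : ℝ) ^ n * w0) ≤ β * n + g := h1
        _ ≤ β * i ^ 4 + g * i ^ 4 := by
            have h2 : β * n ≤ β * i ^ 4 := Nat.mul_le_mul_left _ hn.le
            have h3 : g * 1 ≤ g * i ^ 4 := Nat.mul_le_mul_left _ (Nat.one_le_pow _ _ hi0)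
            omega
        _ = (β + g) * i ^ 4 := by ring
        _ ≤ i * i ^ 4 := Nat.mul_le_mul_right _ (by omega)
        _ = i ^ 5 := by ring
    have h1 : f n ≤ Real.exp (-∑ j ∈ Ico (jn n + 1 - i ^ 2) (jn n + i ^ 2),
        v j * nn (a * (β : ℝ) ^ n * (x / (b : ℝ) ^ j)) ^ 2) := by
      rw [hf, hjn]
      exact ph_bound μ ξ hm hind v hchar _ _ _ _
    refine h1.trans (le_trans ?_ hM)
    rw [Real.exp_le_exp, neg_le_neg_iff]
    have hval : ∀ l < i ^ 2, nn (a * (β : ℝ) ^ n * (x / (b : ℝ) ^ (jn n - l))) =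
        nn ((β : ℝ) ^ n * w0 / (b : ℝ) ^ jn n * (b : ℝ) ^ l) := by
      intro l hl
      rw [← nn_abs (a * (β : ℝ) ^ n * (x / (b : ℝ) ^ (jn n - l)))]
      congr 1
      have e1 : a * (β : ℝ) ^ n * (x / (b : ℝ) ^ (jn n - l)) = (a * x) * ((β : ℝ) ^ n / (b : ℝ) ^ (jn n - l)) := by
        ring
      rw [e1, abs_mul, ← hw0, abs_of_pos (show (0 : ℝ) < (β : ℝ) ^ n / (b : ℝ) ^ (jn n - l) by positivity)]
      have e2 : (b : ℝ) ^ jn n = (b : ℝ) ^ (jn n - l) * (b : ℝ) ^ l := by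
        rw [← pow_add]
        congr 1
        omega
      rw [e2]
      field_simp
    have hinj : Set.InjOn (fun l => jn n - l) (range (i ^ 2)) := by
      intro l hl l' hl' h
      simp only [coe_range, Set.mem_Iio] at hl hl' h
      omega
    have hsub : (range (i ^ 2)).image (fun l => jn n - l) ⊆ Ico (jn n + 1 - i ^ 2) (jn n + i ^ 2) := by
      intro j hj
      rw [mem_image] at hj
      obtain ⟨l, hl, rfl⟩ := hj
      rw [mem_range] at hl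
      rw [mem_Ico]
      have : 0 < i ^ 2 := by positivity
      omega
    calc M * δ = (M / Real.log i) * (δ * Real.log i) := by field_simp
      _ ≤ (M / Real.log i) * T b ((β : ℝ) ^ n * w0 / (b : ℝ) ^ jn n) (i ^ 2) := by gcongr
      _ = ∑ l ∈ range (i ^ 2), (M / Real.log i) *
            nn ((β : ℝ) ^ n * w0 / (b : ℝ) ^ jn n * (b : ℝ) ^ l) ^ 2 := by
          unfold T
          rw [mul_sum]
      _ ≤ ∑ l ∈ range (i ^ 2), v (jn n - l) * nn (a * (β : ℝ) ^ n * (x / (b : ℝ) ^ (jn n - l))) ^ 2 := by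
          refine sum_le_sum fun l hl => ?_
          rw [mem_range] at hl
          rw [hval l hl]
          gcongr
          have h5 := hj0 (jn n - l) (by omega)
          have h6 : ((jn n - l : ℕ) : ℝ) ≤ (i : ℝ) ^ 5 := by
            exact_mod_cast (by omega : jn n - l ≤ i ^ 5)
          have h7 : (1 : ℝ) < ((jn n - l : ℕ) : ℝ) := by exact_mod_cast (by omega : 1 < jn n - l)
          have h8 := Real.log_le_log (by linarith) h6
          rw [Real.log_pow] at h8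
          push_cast at h8
          rw [div_le_iff₀ hlogi]
          have h9 := hv0 (jn n - l)
          nlinarith
      _ = ∑ j ∈ (range (i ^ 2)).image (fun l => jn n - l),
            v j * nn (a * (β : ℝ) ^ n * (x / (b : ℝ) ^ j)) ^ 2 := by
          rw [sum_image hinj]
      _ ≤ _ := sum_le_sum_of_subset_of_nonneg hsub fun j _ _ => mul_nonneg (hv0 j) (sq_nonneg _)
  have hsplit : ∀ n ∈ range (i ^ 4), f n ≤ (if n ∈ B then 1 else 0) +
      (if n < b * (i ^ 2 + j0 + 2) then 1 else 0) + ε / 3 := by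
    intro n hn
    by_cases h1 : n ∈ B
    · rw [if_pos h1]
      have : (0 : ℝ) ≤ if n < b * (i ^ 2 + j0 + 2) then 1 else 0 := by split_ifs <;> norm_num
      linarith [hf1 n]
    · rw [if_neg h1]
      by_cases h2 : n < b * (i ^ 2 + j0 + 2)
      · rw [if_pos h2]
        linarith [hf1 n]
      · rw [if_neg h2]
        have := hmain n (mem_range.1 hn) h1 (by omega)
        linarith
  have hfin := sum_le_sum hsplit
  rw [hf] at hfin
  simp only at hfin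
  refine hfin.trans ?_
  rw [sum_add_distrib, sum_add_distrib]
  have s1 : ∑ n ∈ range (i ^ 4), (if n ∈ B then (1 : ℝ) else 0) ≤ ε / 3 * (i : ℝ) ^ 4 := by
    rw [sum_boole]
    refine le_trans ?_ hbad
    have : (range (i ^ 4)).filter (fun n => n ∈ B) ⊆ B := fun n hn => (mem_filter.1 hn).2
    exact_mod_cast card_le_card this
  have s2 : ∑ n ∈ range (i ^ 4), (if n < b * (i ^ 2 + j0 + 2) then (1 : ℝ) else 0) ≤ ε / 3 * (i : ℝ) ^ 4 := by
    rw [sum_boole]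
    refine le_trans ?_ hsmall
    have h1 : (range (i ^ 4)).filter (fun n => n < b * (i ^ 2 + j0 + 2)) ⊆ range (b * (i ^ 2 + j0 + 2)) := by
      intro n hn
      exact mem_range.2 (mem_filter.1 hn).2
    have h2 := card_le_card h1
    rw [card_range] at h2
    exact_mod_cast h2
  have s3 : ∑ n ∈ range (i ^ 4), ε / 3 = ε / 3 * (i : ℝ) ^ 4 := by
    rw [sum_const, card_range, nsmul_eq_mul]
    push_cast
    ring
  linarith

/-- **The main theorem on exponential sums.** -/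
theorem ae_avg (hm : ∀ j, Measurable (ξ j)) (hind : iIndepFun ξ μ) (hξ1 : ∀ j ω, |ξ j ω| ≤ 1)
    (v : ℕ → ℝ) (hv0 : ∀ j, 0 ≤ v j)
    (hv : Tendsto (fun j : ℕ => v j * Real.log j) atTop atTop)
    (hchar : ∀ j t, ‖∫ ω, e (t * ξ j ω) ∂μ‖ ≤ Real.exp (-(v j * nn t ^ 2)))
    (b β : ℕ) (hb : 2 ≤ b) (hβ : 2 ≤ β) (a x y : ℝ) (hax : 1 ≤ |a * x|) (hrich : Rich b β |a * x|) :
    ∀ᵐ ω ∂μ, Tendsto (avg fun n => e (a * (β : ℝ) ^ n * (y + x * CC ξ b ω))) atTop (𝓝 0) := by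
  obtain ⟨w0, hw0⟩ : ∃ w0, w0 = |a * x| := ⟨_, rfl⟩
  obtain ⟨lo, hlo⟩ : ∃ lo : ℕ → ℕ → ℕ, lo = fun i n => J b ((β : ℝ) ^ n * w0) + 1 - i ^ 2 := ⟨_, rfl⟩
  obtain ⟨hi, hhi⟩ : ∃ hi : ℕ → ℕ → ℕ, hi = fun i n => J b ((β : ℝ) ^ n * w0) + i ^ 2 := ⟨_, rfl⟩
  have hax0 : 1 ≤ w0 := by rw [hw0]; exact hax
  have hlh : ∀ i n, 0 < i → lo i n ≤ hi i n := by
    intro i n hi
    rw [hlo, hhi]
    simp only
    have : 0 < i ^ 2 := by positivity
    omega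
  have hb1 : (1 : ℝ) < b := by exact_mod_cast (by omega : 1 < b)
  have hβ1 : (1 : ℝ) ≤ β := by exact_mod_cast (by omega : 1 ≤ β)
  -- the second moments
  obtain ⟨f, hf⟩ : ∃ f : ℕ → Ω → ℝ, f = fun i ω => ‖∑ n ∈ range (i ^ 4),
      DD μ ξ (fun j => x / (b : ℝ) ^ j) (a * (β : ℝ) ^ n) y (lo i n) (hi i n) ω‖ ^ 2 / (i : ℝ) ^ 8 := ⟨_, rfl⟩
  have hfm : ∀ i, Measurable (f i) := by
    intro i
    rw [hf]
    refine Measurable.div_const (Measurable.pow_const (Measurable.norm ?_) 2) _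
    exact Finset.measurable_fun_sum _ fun n _ => meas_DD μ ξ hm _ _ _ _ _
  have hf0 : ∀ i ω, 0 ≤ f i ω := fun i ω => by rw [hf]; positivity
  have hfint : ∀ i, Integrable (f i) μ := by
    intro i
    refine Integrable.of_bound (hfm i).aestronglyMeasurable ((2 * (i : ℝ) ^ 4) ^ 2 / (i : ℝ) ^ 8)
      (Eventually.of_forall fun ω => ?_)
    rw [Real.norm_of_nonneg (hf0 i ω), hf]
    simp only
    gcongr
    refine (norm_sum_le _ _).trans ((sum_le_sum fun n _ => norm_DD μ ξ _ _ _ _ _ ω).trans ?_)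
    rw [sum_const, card_range, nsmul_eq_mul]
    push_cast
    linarith
  have hfsecond : ∀ i, ∫ ω, f i ω ∂μ ≤ 16 * b / (i : ℝ) ^ 2 := by
    intro i
    rcases Nat.eq_zero_or_pos i with h0 | h0
    · subst h0
      rw [hf]
      simp
    · have h1 := second μ ξ hm hind (fun j => x / (b : ℝ) ^ j) y (fun n => a * (β : ℝ) ^ n) (lo i) (hi i)
        (i ^ 4) (2 * b * i ^ 2) (by
          intro m n hmn
          have h2 := J_lower b β hb hβ w0 hax0 m n (2 * i ^ 2) (by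
            calc m + b * (2 * i ^ 2) = m + 2 * b * i ^ 2 := by ring
              _ ≤ n := hmn)
          rw [hlo, hhi]
          simp only
          omega) (fun n => hlh i n h0)
      have hir : (0 : ℝ) < i := by exact_mod_cast h0
      have e1 : ∫ ω, f i ω ∂μ = (∫ ω, ‖∑ n ∈ range (i ^ 4),
          DD μ ξ (fun j => x / (b : ℝ) ^ j) (a * (β : ℝ) ^ n) y (lo i n) (hi i n) ω‖ ^ 2 ∂μ) / (i : ℝ) ^ 8 := by
        rw [hf]
        exact integral_div _ _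
      rw [e1, div_le_div_iff₀ (by positivity) (by positivity)]
      calc (∫ ω, ‖∑ n ∈ range (i ^ 4),
          DD μ ξ (fun j => x / (b : ℝ) ^ j) (a * (β : ℝ) ^ n) y (lo i n) (hi i n) ω‖ ^ 2 ∂μ) * (i : ℝ) ^ 2
          ≤ (8 * ((2 * b * i ^ 2 : ℕ) : ℝ) * ((i ^ 4 : ℕ) : ℝ)) * (i : ℝ) ^ 2 := by gcongr
        _ = 16 * b * (i : ℝ) ^ 8 := by
            push_cast
            ring
  have hsum : Summable fun i : ℕ => 16 * (b : ℝ) / (i : ℝ) ^ 2 := by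
    have h1 : Summable fun i : ℕ => 1 / (i : ℝ) ^ 2 := Real.summable_one_div_nat_pow.2 (by norm_num)
    refine (h1.mul_left (16 * (b : ℝ))).congr fun i => ?_
    ring
  have hae := ae_small μ f hfm hf0 hfint _ hsum hfsecond
  filter_upwards [hae] with ω hω
  obtain ⟨z, hz⟩ : ∃ z : ℕ → ℂ, z = fun n => e (a * (β : ℝ) ^ n * (y + x * CC ξ b ω)) := ⟨_, rfl⟩
  rw [← hz]
  refine interp z (fun n => by rw [hz]; exact (e_norm _).le) ?_
  rw [tendsto_zero_iff_norm_tendsto_zero, Metric.tendsto_atTop]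
  intro ε hε
  -- three parts
  have p1 : ∀ᶠ i : ℕ in atTop, f i ω < (ε / 4) ^ 2 := by
    have := hω.eventually (gt_mem_nhds (show (0 : ℝ) < (ε / 4) ^ 2 by positivity))
    exact this
  have p2 := ph_small μ ξ hm hind v hv0 hv hchar b β hb hβ a x hax hrich (ε / 4) (by positivity)
  have p3 : ∀ᶠ i : ℕ in atTop, 4 * Real.pi * b / (b : ℝ) ^ (i ^ 2) < ε / 4 := by
    have h1 : Tendsto (fun i : ℕ => (b : ℝ) ^ (i ^ 2)) atTop atTop :=
      (tendsto_pow_atTop_atTop_of_one_lt hb1).comp (tendsto_pow_atTop (by norm_num))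
    have h2 : Tendsto (fun i : ℕ => 4 * Real.pi * b / (b : ℝ) ^ (i ^ 2)) atTop (𝓝 0) :=
      tendsto_const_nhds.div_atTop h1
    exact h2.eventually (gt_mem_nhds (show (0 : ℝ) < ε / 4 by positivity))
  obtain ⟨i0, hi0⟩ := eventually_atTop.1 (p1.and (p2.and (p3.and (eventually_ge_atTop 1))))
  refine ⟨i0, fun i hi' => ?_⟩
  obtain ⟨q1, q2, q3, q4⟩ := hi0 i hi'
  have hir : (0 : ℝ) < i := by exact_mod_cast q4
  rw [dist_zero_right, norm_norm, norm_div, norm_pow, Complex.norm_natCast, div_lt_iff₀ (by positivity)]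
  obtain ⟨Dn, hDn⟩ : ∃ Dn : ℕ → ℂ, Dn = fun n =>
      DD μ ξ (fun j => x / (b : ℝ) ^ j) (a * (β : ℝ) ^ n) y (lo i n) (hi i n) ω := ⟨_, rfl⟩
  obtain ⟨Pn, hPn⟩ : ∃ Pn : ℕ → ℝ, Pn = fun n =>
      ‖ph μ ξ (fun j => x / (b : ℝ) ^ j) (a * (β : ℝ) ^ n) (lo i n) (hi i n)‖ := ⟨_, rfl⟩
  have r1 : ‖∑ n ∈ range (i ^ 4), Dn n‖ ≤ ε / 4 * (i : ℝ) ^ 4 := by
    rw [hf] at q1
    simp only at q1
    rw [div_lt_iff₀ (by positivity), show (ε / 4) ^ 2 * (i : ℝ) ^ 8 = (ε / 4 * (i : ℝ) ^ 4) ^ 2 by ring] at q1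
    rw [hDn]
    exact (lt_of_pow_lt_pow_left₀ 2 (by positivity) q1).le
  have r2 : ∑ n ∈ range (i ^ 4), Pn n ≤ ε / 4 * (i : ℝ) ^ 4 := by
    rw [hPn, hlo, hhi, hw0]
    exact q2
  have r3 : ∀ n, ‖z n - Dn n‖ ≤ ε / 4 + Pn n := by
    intro n
    obtain ⟨_, h2⟩ := term_split μ ξ b hb hξ1 (a * (β : ℝ) ^ n) x y (lo i n) (hi i n) (hlh i n q4) ω
    rw [hz, hDn, hPn]
    refine h2.trans (add_le_add ?_ le_rfl)
    have h3 : |a * (β : ℝ) ^ n * x| = (β : ℝ) ^ n * w0 := by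
      rw [show a * (β : ℝ) ^ n * x = (β : ℝ) ^ n * (a * x) by ring, abs_mul, ← hw0,
        abs_of_pos (show (0 : ℝ) < (β : ℝ) ^ n by positivity)]
    rw [h3]
    have hw : 1 ≤ (β : ℝ) ^ n * w0 := one_le_mul_of_one_le_of_one_le (one_le_pow₀ hβ1) hax0
    obtain ⟨_, a2⟩ := J_spec b hb _ hw
    refine le_trans ?_ q3.le
    rw [hhi]
    simp only
    rw [div_le_div_iff₀ (by positivity) (by positivity)]
    calc 4 * Real.pi * ((β : ℝ) ^ n * w0) * (b : ℝ) ^ (i ^ 2)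
        ≤ 4 * Real.pi * ((b : ℝ) ^ (J b ((β : ℝ) ^ n * w0) + 1)) * (b : ℝ) ^ (i ^ 2) := by gcongr
      _ = _ := by ring
  calc ‖∑ n ∈ range (i ^ 4), z n‖ = ‖∑ n ∈ range (i ^ 4), Dn n + ∑ n ∈ range (i ^ 4), (z n - Dn n)‖ := by
        congr 1
        rw [← sum_add_distrib]
        refine sum_congr rfl fun n _ => ?_
        ring
    _ ≤ ‖∑ n ∈ range (i ^ 4), Dn n‖ + ‖∑ n ∈ range (i ^ 4), (z n - Dn n)‖ := norm_add_le _ _
    _ ≤ ε / 4 * (i : ℝ) ^ 4 + ∑ n ∈ range (i ^ 4), (ε / 4 + Pn n) := by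
        gcongr
        exact (norm_sum_le _ _).trans (sum_le_sum fun n _ => r3 n)
    _ = ε / 4 * (i : ℝ) ^ 4 + (ε / 4 * (i : ℝ) ^ 4 + ∑ n ∈ range (i ^ 4), Pn n) := by
        rw [sum_add_distrib, sum_const, card_range, nsmul_eq_mul]
        push_cast
        ring
    _ ≤ ε / 4 * (i : ℝ) ^ 4 + (ε / 4 * (i : ℝ) ^ 4 + ε / 4 * (i : ℝ) ^ 4) := by gcongr
    _ < ε * (i : ℝ) ^ 4 := by
        have : 0 < ε * (i : ℝ) ^ 4 := by positivity
        linarith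

end H41.RM
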