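import Pool.Agent.H41.RM.AE

/-! # Random multiples with independent digits zero and one -/

set_option autoImplicit false
set_option linter.unusedSectionVars false

open Finset Filter Topology MeasureTheory ProbabilityTheory

namespace H41.RM

open H41.SW

lemma cos_nn (t : ℝ) : Real.cos (2 * Real.pi * t) = Real.cos (2 * Real.pi * nn t) := by
  have h1 : Real.cos (2 * Real.pi * t) = Real.cos (2 * Real.pi * (t - round t)) := by
    rw [show 2 * Real.pi * (t - round t) = 2 * Real.pi * t - (round t : ℝ) * (2 * Real.pi) by ring,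
      Real.cos_sub_int_mul_two_pi]
  rw [h1]
  unfold nn
  rcases abs_choice (t - round t) with h | h <;> rw [h]
  rw [mul_neg, Real.cos_neg]

lemma one_sub_cos (t : ℝ) : 8 * nn t ^ 2 ≤ 1 - Real.cos (2 * Real.pi * t) := by
  rw [cos_nn]
  have h0 := nn_nonneg t
  have h1 := nn_le_half t
  have hpi := Real.pi_pos
  have h2 := Real.mul_le_sin (x := Real.pi * nn t) (by positivity) (by nlinarith)
  rw [show 2 / Real.pi * (Real.pi * nn t) = 2 * nn t by field_simp] at h2
  have h3 : Real.cos (2 * Real.pi * nn t) = 1 - 2 * Real.sin (Real.pi * nn t) ^ 2 := by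
    rw [show 2 * Real.pi * nn t = 2 * (Real.pi * nn t) by ring, Real.cos_two_mul, Real.cos_sq']
    ring
  rw [h3]
  nlinarith

variable {Ω : Type*} [MeasurableSpace Ω] (μ : Measure Ω) [IsProbabilityMeasure μ]

lemma char_event (A : Set Ω) (hA : MeasurableSet A) (t : ℝ) :
    ‖∫ ω, e (t * A.indicator (fun _ => (1 : ℝ)) ω) ∂μ‖ ≤
      Real.exp (-(8 * (μ.real A * (1 - μ.real A)) * nn t ^ 2)) := by
  obtain ⟨p, hp⟩ : ∃ p, p = μ.real A := ⟨_, rfl⟩
  have hp0 : 0 ≤ p := by rw [hp]; exact measureReal_nonneg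
  have hp1 : p ≤ 1 := by rw [hp]; exact measureReal_le_one
  have h1 : ∀ ω, e (t * A.indicator (fun _ => (1 : ℝ)) ω) = 1 + A.indicator (fun _ => e t - 1) ω := by
    intro ω
    by_cases h : ω ∈ A
    · rw [Set.indicator_of_mem h, Set.indicator_of_mem h, mul_one]
      ring
    · rw [Set.indicator_of_notMem h, Set.indicator_of_notMem h, mul_zero, e_zero, add_zero]
  have h2 : ∫ ω, e (t * A.indicator (fun _ => (1 : ℝ)) ω) ∂μ = 1 + (p : ℂ) * (e t - 1) := by
    simp_rw [h1]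
    rw [integral_add (integrable_const _) ((integrable_const _).indicator hA),
      integral_indicator_const _ hA]
    simp [hp]
  rw [h2, ← hp]
  have h3 : ‖1 + (p : ℂ) * (e t - 1)‖ ^ 2 = 1 - 2 * (p * (1 - p)) * (1 - Real.cos (2 * Real.pi * t)) := by
    have h4 : Complex.normSq (e t) = 1 := by
      rw [Complex.normSq_eq_norm_sq, e_norm]
      norm_num
    rw [Complex.normSq_apply, e_re] at h4
    rw [← Complex.normSq_eq_norm_sq, Complex.normSq_apply]
    have h5 : (1 + (p : ℂ) * (e t - 1)).re = 1 + p * (Real.cos (2 * Real.pi * t) - 1) := by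
      simp [e_re]
    have h6 : (1 + (p : ℂ) * (e t - 1)).im = p * (e t).im := by
      simp
    rw [h5, h6]
    linear_combination p ^ 2 * h4
  have h7 : ‖1 + (p : ℂ) * (e t - 1)‖ ^ 2 ≤ Real.exp (-(8 * (p * (1 - p)) * nn t ^ 2)) ^ 2 := by
    rw [h3, ← Real.exp_nat_mul]
    have h8 := one_sub_cos t
    have h9 : 0 ≤ p * (1 - p) := mul_nonneg hp0 (by linarith)
    have h10 := Real.add_one_le_exp (((2 : ℕ) : ℝ) * -(8 * (p * (1 - p)) * nn t ^ 2))
    refine le_trans ?_ h10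
    push_cast
    nlinarith [mul_le_mul_of_nonneg_left h8 h9]
  exact le_of_sq_le_sq h7 (Real.exp_pos _).le

/-- the indicator variables -/
noncomputable def xi (A : ℕ → Set Ω) (j : ℕ) (ω : Ω) : ℝ := (A j).indicator (fun _ => (1 : ℝ)) ω

lemma xi_meas (A : ℕ → Set Ω) (hA : ∀ j, MeasurableSet (A j)) (j : ℕ) : Measurable (xi A j) :=
  measurable_const.indicator (hA j)

lemma xi_le (A : ℕ → Set Ω) (j : ℕ) (ω : Ω) : |xi A j ω| ≤ 1 := by
  unfold xi
  by_cases h : ω ∈ A j
  · rw [Set.indicator_of_mem h]; norm_num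
  · rw [Set.indicator_of_notMem h]; norm_num

lemma xi_indep (A : ℕ → Set Ω) (hind : iIndepSet A μ) : iIndepFun (xi A) μ :=
  hind.iIndepFun_indicator

lemma nonliou_abs (x : ℝ) (hx : Irrational x) (hL : ¬ Liouville x) (q : ℚ) (hq : q ≠ 0) :
    Irrational |x * q| ∧ ¬ Liouville |x * q| := by
  have h1 : Irrational (x * q) := hx.mul_ratCast hq
  have h2 : ¬ Liouville (x * q) := fun h => hL (liouville_mul_rat x q hq h)
  rcases abs_choice (x * q) with h | h <;> rw [h]
  · exact ⟨h1, h2⟩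
  · refine ⟨h1.neg, fun h3 => h2 ?_⟩
    refine liouville_mul_rat (x * q) (-1) (by norm_num) ?_
    rw [show x * (q : ℝ) * ((-1 : ℚ) : ℝ) = -(x * q) by push_cast; ring]
    exact h3

theorem weyl_events (A : ℕ → Set Ω) (hA : ∀ j, MeasurableSet (A j)) (hind : iIndepSet A μ)
    (hv : Tendsto (fun j : ℕ => μ.real (A j) * (1 - μ.real (A j)) * Real.log j) atTop atTop)
    (b β : ℕ) (hb : 2 ≤ b) (hβ : 2 ≤ β) (x y : ℝ) (hx : x ≠ 0)
    (hcase : (∀ m n : ℕ, 0 < m → 0 < n → b ^ m ≠ β ^ n) ∨ (Irrational x ∧ ¬ Liouville x))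
    (h : ℤ) (hh : h ≠ 0) :
    ∀ᵐ ω ∂μ, Tendsto (avg (ex β (y + x * CC (xi A) b ω) h)) atTop (𝓝 0) := by
  have hβ1 : (1 : ℝ) < β := by exact_mod_cast (by omega : 1 < β)
  have hh' : (h : ℝ) ≠ 0 := by exact_mod_cast hh
  obtain ⟨s, hs⟩ := pow_unbounded_of_one_lt (1 / |h * x|) hβ1
  have hhx : 0 < |h * x| := abs_pos.2 (mul_ne_zero hh' hx)
  have hax : 1 ≤ |(h : ℝ) * (β : ℝ) ^ s * x| := by
    rw [div_lt_iff₀ hhx] at hs
    rw [show (h : ℝ) * (β : ℝ) ^ s * x = (β : ℝ) ^ s * (h * x) by ring, abs_mul,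
      abs_of_pos (show (0 : ℝ) < (β : ℝ) ^ s by positivity)]
    exact hs.le
  have hrich : Rich b β |(h : ℝ) * (β : ℝ) ^ s * x| := by
    by_cases hdep : ∀ m n : ℕ, 0 < m → 0 < n → b ^ m ≠ β ^ n
    · exact rich_indep b β hb hβ hdep _ hax
    · have hxx := hcase.resolve_left hdep
      push Not at hdep
      obtain ⟨m, n, hm, hn, hmn⟩ := hdep
      have e1 : (h : ℝ) * (β : ℝ) ^ s * x = x * (((h : ℚ) * (β : ℚ) ^ s : ℚ) : ℝ) := by
        push_cast
        ring
      have e2 : ((h : ℚ) * (β : ℚ) ^ s : ℚ) ≠ 0 := by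
        have h1 : (β : ℚ) ≠ 0 := by exact_mod_cast (by omega : β ≠ 0)
        have h2 : (h : ℚ) ≠ 0 := by exact_mod_cast hh
        positivity
      have h3 := nonliou_abs x hxx.1 hxx.2 _ e2
      rw [← e1] at h3
      exact rich_dep b β m n hb hβ hn hmn.symm _ hax h3.1 h3.2
  have hv' : Tendsto (fun j : ℕ => 8 * (μ.real (A j) * (1 - μ.real (A j))) * Real.log j) atTop atTop := by
    have h1 := Tendsto.const_mul_atTop (show (0 : ℝ) < 8 by norm_num) hv
    refine h1.congr fun j => ?_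
    ring
  have hv0 : ∀ j, 0 ≤ 8 * (μ.real (A j) * (1 - μ.real (A j))) := by
    intro j
    have h1 : μ.real (A j) ≤ 1 := measureReal_le_one
    have h2 : 0 ≤ μ.real (A j) := measureReal_nonneg
    have h3 : 0 ≤ 1 - μ.real (A j) := by linarith
    positivity
  have hmain := ae_avg μ (xi A) (xi_meas A hA) (xi_indep μ A hind) (xi_le A)
    (fun j => 8 * (μ.real (A j) * (1 - μ.real (A j)))) hv0 hv'
    (fun j t => char_event μ (A j) (hA j) t) b β hb hβ ((h : ℝ) * (β : ℝ) ^ s) x y hax hrich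
  filter_upwards [hmain] with ω hω
  have h1 := shift_avg (ex β (y + x * CC (xi A) b ω) h) (ex_norm _ _ _) s
  have h2 : (fun n => ex β (y + x * CC (xi A) b ω) h (n + s)) =
      fun n => e ((h : ℝ) * (β : ℝ) ^ s * (β : ℝ) ^ n * (y + x * CC (xi A) b ω)) := by
    funext n
    unfold ex
    congr 1
    rw [pow_add]
    ring
  rw [h2] at h1
  have h3 := hω.sub h1
  rw [sub_zero] at h3
  refine h3.congr fun N => ?_
  ring

end H41.RM
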