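import Pool.Agent.H41.RM.Sharp2

/-! # Existence of the sparse sets -/

set_option autoImplicit false
set_option linter.unusedSectionVars false

open Finset Filter Topology MeasureTheory ProbabilityTheory

namespace H41.RM

open H41.SW

lemma exists_events (p : ℕ → ℝ) (hp0 : ∀ j, 0 ≤ p j) (hp1 : ∀ j, p j ≤ 1) :
    ∃ (Ω : Type) (_ : MeasurableSpace Ω) (P : Measure Ω) (_ : IsProbabilityMeasure P)
      (A : ℕ → Set Ω), (∀ j, MeasurableSet (A j)) ∧ iIndepSet A P ∧ ∀ j, P.real (A j) = p j := by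
  have hprob : IsProbabilityMeasure ((volume : Measure ℝ).restrict (Set.Icc 0 1)) :=
    ⟨by simp⟩
  obtain ⟨Ω, mΩ, P, X, h1, h2, h3, h4⟩ := exists_hasLaw_indepFun (ι := ℕ) (fun _ => ℝ)
    (fun _ => (volume : Measure ℝ).restrict (Set.Icc 0 1))
  refine ⟨Ω, mΩ, P, h4, fun j => X j ⁻¹' Set.Iic (p j), fun j => h1 j measurableSet_Iic, ?_, ?_⟩
  · rw [iIndepSet_iff_meas_biInter fun j => h1 j measurableSet_Iic]
    intro s
    exact h3.measure_inter_preimage_eq_mul s fun i _ => measurableSet_Iic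
  · intro j
    have h5 : P (X j ⁻¹' Set.Iic (p j)) = ENNReal.ofReal (p j) := by
      rw [← Measure.map_apply (h1 j) measurableSet_Iic, (h2 j).map_eq,
        Measure.restrict_apply measurableSet_Iic]
      have h6 : Set.Iic (p j) ∩ Set.Icc 0 1 = Set.Icc 0 (p j) := by
        ext t
        simp only [Set.mem_inter_iff, Set.mem_Iic, Set.mem_Icc]
        constructor
        · rintro ⟨a, b, c⟩; exact ⟨b, a⟩
        · rintro ⟨a, b⟩; exact ⟨b, a, b.trans (hp1 j)⟩
      rw [h6, Real.volume_Icc, sub_zero]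
    rw [Measure.real, h5, ENNReal.toReal_ofReal (hp0 j)]

section

variable {Ω : Type*} [MeasurableSpace Ω] (μ : Measure Ω) [IsProbabilityMeasure μ]

lemma int_xi (A : ℕ → Set Ω) (hA : ∀ j, MeasurableSet (A j)) (j : ℕ) :
    ∫ ω, xi A j ω ∂μ = μ.real (A j) := by
  unfold xi
  rw [integral_indicator_const _ (hA j)]
  simp

lemma memLp_xi (A : ℕ → Set Ω) (hA : ∀ j, MeasurableSet (A j)) (j : ℕ) : MemLp (xi A j) 2 μ :=
  MemLp.of_bound (xi_meas A hA j).aestronglyMeasurable 1 (Eventually.of_forall fun ω => by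
    rw [Real.norm_eq_abs]; exact xi_le A j ω)

lemma count_var (A : ℕ → Set Ω) (hA : ∀ j, MeasurableSet (A j)) (hind : iIndepSet A μ) (M : ℕ) :
    ∫ ω, (∑ j ∈ range M, xi A j ω - ∑ j ∈ range M, μ.real (A j)) ^ 2 ∂μ ≤
      ∑ j ∈ range M, μ.real (A j) := by
  have hI := xi_indep μ A hind
  have h1 := IndepFun.variance_sum (μ := μ) (X := xi A) (s := range M) (fun j _ => memLp_xi μ A hA j)
    (fun i _ j _ hij => hI.indepFun hij)
  have hsm : AEMeasurable (∑ j ∈ range M, xi A j) μ := by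
    have : Measurable (∑ j ∈ range M, xi A j) := by
      have h2 : (∑ j ∈ range M, xi A j) = fun ω => ∑ j ∈ range M, xi A j ω := by
        funext ω
        simp
      rw [h2]
      exact Finset.measurable_fun_sum _ fun j _ => xi_meas A hA j
    exact this.aemeasurable
  rw [variance_eq_integral hsm] at h1
  have h2 : ∫ ω, (∑ j ∈ range M, xi A j) ω ∂μ = ∑ j ∈ range M, μ.real (A j) := by
    have h3 : ∀ ω, (∑ j ∈ range M, xi A j) ω = ∑ j ∈ range M, xi A j ω := fun ω => by simp
    simp_rw [h3]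
    rw [integral_finsetSum _ fun j _ => (memLp_xi μ A hA j).integrable (by norm_num)]
    exact sum_congr rfl fun j _ => int_xi μ A hA j
  rw [h2] at h1
  have h3 : ∫ ω, (∑ j ∈ range M, xi A j ω - ∑ j ∈ range M, μ.real (A j)) ^ 2 ∂μ =
      ∑ j ∈ range M, variance (xi A j) μ := by
    rw [← h1]
    refine integral_congr_ae (Eventually.of_forall fun ω => ?_)
    simp
  rw [h3]
  refine sum_le_sum fun j _ => ?_
  refine (variance_le_expectation_sq (memLp_xi μ A hA j).aestronglyMeasurable).trans (le_of_eq ?_)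
  have h4 : ∀ ω, (xi A j ^ 2) ω = xi A j ω := by
    intro ω
    simp only [Pi.pow_apply]
    unfold xi
    by_cases h : ω ∈ A j
    · rw [Set.indicator_of_mem h]; norm_num
    · rw [Set.indicator_of_notMem h]; norm_num
  simp_rw [h4]
  exact int_xi μ A hA j

/-- Almost surely the counting function is at most twice its mean, along powers of two. -/
lemma ae_count (A : ℕ → Set Ω) (hA : ∀ j, MeasurableSet (A j)) (hind : iIndepSet A μ)
    (E : ℕ → ℝ) (hE : E = fun i => ∑ j ∈ range (2 ^ i), μ.real (A j)) (hE0 : ∀ i, 0 < E i)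
    (hs : Summable fun i => 1 / E i) :
    ∀ᵐ ω ∂μ, ∀ᶠ i in atTop, ∑ j ∈ range (2 ^ i), xi A j ω ≤ 2 * E i := by
  obtain ⟨f, hf⟩ : ∃ f : ℕ → Ω → ℝ, f = fun i ω => (∑ j ∈ range (2 ^ i), xi A j ω - E i) ^ 2 / E i ^ 2 :=
    ⟨_, rfl⟩
  have hfm : ∀ i, Measurable (f i) := by
    intro i
    rw [hf]
    exact (((Finset.measurable_fun_sum _ fun j _ => xi_meas A hA j).sub_const _).pow_const 2).div_const _
  have hbound : ∀ i ω, |∑ j ∈ range (2 ^ i), xi A j ω - E i| ≤ (2 : ℝ) ^ i + E i := by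
    intro i ω
    refine (abs_sub _ _).trans (add_le_add ?_ (le_of_eq (abs_of_pos (hE0 i))))
    refine (abs_sum_le_sum_abs _ _).trans ((sum_le_sum fun j _ => xi_le A j ω).trans ?_)
    simp
  have h1 := ae_small μ f hfm (fun i ω => by rw [hf]; positivity) (fun i => by
    refine Integrable.of_bound (hfm i).aestronglyMeasurable (((2 : ℝ) ^ i + E i) ^ 2 / E i ^ 2)
      (Eventually.of_forall fun ω => ?_)
    rw [hf, Real.norm_of_nonneg (by positivity)]
    simp only
    have := hE0 i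
    gcongr ?_ / _
    rw [← sq_abs]
    have := hbound i ω
    gcongr) (fun i => 1 / E i) hs (fun i => by
      have h2 := count_var μ A hA hind (2 ^ i)
      have h3 : ∫ ω, f i ω ∂μ = (∫ ω, (∑ j ∈ range (2 ^ i), xi A j ω - E i) ^ 2 ∂μ) / E i ^ 2 := by
        rw [hf]
        exact integral_div _ _
      have h4 : E i = ∑ j ∈ range (2 ^ i), μ.real (A j) := by rw [hE]
      rw [h3, div_le_div_iff₀ (by have := hE0 i; positivity) (hE0 i)]
      rw [← h4] at h2
      have h5 := hE0 i
      nlinarith)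
  filter_upwards [h1] with ω hω
  filter_upwards [hω.eventually (gt_mem_nhds one_pos)] with i hi
  rw [hf] at hi
  simp only at hi
  have hEi := hE0 i
  rw [div_lt_one (by positivity)] at hi
  have h2 := abs_lt_of_sq_lt_sq hi hEi.le
  have h3 := (abs_lt.1 h2).2
  linarith

end

end H41.RM
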