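import Pool.Agent.H41.RM.Exist

/-! # Existence of the sparse sets -/

set_option autoImplicit false
set_option linter.unusedSectionVars false

open Finset Filter Topology MeasureTheory ProbabilityTheory

namespace H41.RM

open H41.SW

/-- the probabilities -/
noncomputable def pp (j : ℕ) : ℝ := Real.log (Real.log ((j : ℝ) + 16)) / (64 * Real.log ((j : ℝ) + 16))

lemma log16 (j : ℝ) (hj : 0 ≤ j) : Real.exp 1 < Real.log (j + 16) := by
  have h1 := Real.exp_one_lt_d9
  have h2 := Real.log_two_gt_d9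
  have h3 : Real.log ((2 : ℝ) ^ 4) ≤ Real.log (j + 16) := Real.log_le_log (by norm_num) (by norm_num; linarith)
  rw [Real.log_pow] at h3
  push_cast at h3
  linarith

lemma loglog16 (j : ℝ) (hj : 0 ≤ j) : 1 < Real.log (Real.log (j + 16)) := by
  have h1 := log16 j hj
  have h2 := Real.log_lt_log (Real.exp_pos 1) h1
  rw [Real.log_exp] at h2
  exact h2

lemma pp_lower (j : ℕ) : 1 / (64 * Real.log ((j : ℝ) + 16)) ≤ pp j := by
  unfold pp
  have h0 : (0 : ℝ) ≤ j := Nat.cast_nonneg _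
  have h1 := log16 j h0
  have h2 := loglog16 j h0
  have h3 := Real.exp_pos 1
  have h4 : 0 < Real.log ((j : ℝ) + 16) := by linarith
  gcongr

lemma pp_pos (j : ℕ) : 0 < pp j := by
  have h0 : (0 : ℝ) ≤ j := Nat.cast_nonneg _
  have h1 := log16 j h0
  have h3 := Real.exp_pos 1
  have h4 : 0 < Real.log ((j : ℝ) + 16) := by linarith
  exact lt_of_lt_of_le (by positivity) (pp_lower j)

lemma pp_le (j : ℕ) : pp j ≤ 1 / 64 := by
  unfold pp
  have h0 : (0 : ℝ) ≤ j := Nat.cast_nonneg _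
  have h1 := log16 j h0
  have h3 := Real.exp_pos 1
  have h4 : 0 < Real.log ((j : ℝ) + 16) := by linarith
  have h5 := Real.log_le_sub_one_of_pos h4
  rw [div_le_div_iff₀ (by positivity) (by norm_num)]
  linarith

lemma pp_tendsto : Tendsto (fun j : ℕ => pp j * (1 - pp j) * Real.log j) atTop atTop := by
  have h1 : Tendsto (fun j : ℕ => Real.log (Real.log ((j : ℝ) + 16)) * (1 / 256)) atTop atTop := by
    refine Tendsto.atTop_mul_const (by norm_num) ?_
    exact Real.tendsto_log_atTop.comp (Real.tendsto_log_atTop.comp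
      (tendsto_natCast_atTop_atTop.atTop_add tendsto_const_nhds))
  refine tendsto_atTop_mono' _ ?_ h1
  filter_upwards [eventually_ge_atTop 16] with j hj
  have hj' : (16 : ℝ) ≤ j := by exact_mod_cast hj
  have h0 : (0 : ℝ) ≤ j := Nat.cast_nonneg _
  have h2 := log16 j h0
  have h3 := Real.exp_pos 1
  have h4 : 0 < Real.log ((j : ℝ) + 16) := by linarith
  have h5 : Real.log ((j : ℝ) + 16) ≤ 2 * Real.log j := by
    have h6 : (j : ℝ) + 16 ≤ (j : ℝ) ^ 2 := by nlinarith
    have h7 := Real.log_le_log (by linarith) h6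
    rw [Real.log_pow] at h7
    push_cast at h7
    exact h7
  have h6 := pp_le j
  have h7 := pp_pos j
  have h8 := loglog16 j h0
  have h9 : pp j * Real.log ((j : ℝ) + 16) = Real.log (Real.log ((j : ℝ) + 16)) / 64 := by
    unfold pp
    field_simp
  have h10 : pp j * (1 / 2) ≤ pp j * (1 - pp j) := by gcongr; linarith
  have h11 : 0 < Real.log (j : ℝ) := by linarith
  calc Real.log (Real.log ((j : ℝ) + 16)) * (1 / 256) = (pp j * Real.log ((j : ℝ) + 16)) / 4 := by
        rw [h9]; ring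
    _ ≤ (pp j * (2 * Real.log j)) / 4 := by gcongr
    _ = pp j * (1 / 2) * Real.log j := by ring
    _ ≤ _ := by gcongr

lemma pp_sum (i : ℕ) (hi : 1 ≤ i) : ∑ j ∈ range (2 ^ i), pp j ≤
    Real.log (Real.log ((2 : ℝ) ^ i + 16)) / 64 * (6 * (2 : ℝ) ^ i / Real.log ((2 : ℝ) ^ i)) := by
  have h1 := sum_inv_log (2 ^ i) (Nat.le_self_pow (by omega) 2)
  push_cast at h1
  have hl : 0 < Real.log (Real.log ((2 : ℝ) ^ i + 16)) := by
    have := loglog16 ((2 : ℝ) ^ i) (by positivity)
    linarith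
  calc ∑ j ∈ range (2 ^ i), pp j ≤ ∑ j ∈ range (2 ^ i),
        Real.log (Real.log ((2 : ℝ) ^ i + 16)) / 64 * (1 / Real.log ((j : ℝ) + 2)) := by
        refine sum_le_sum fun j hj => ?_
        rw [mem_range] at hj
        have hj' : (j : ℝ) ≤ (2 : ℝ) ^ i := by exact_mod_cast hj.le
        have h0 : (0 : ℝ) ≤ j := Nat.cast_nonneg _
        have h2 := log16 j h0
        have h3 := Real.exp_pos 1
        have h4 : 0 < Real.log ((j : ℝ) + 16) := by linarith
        have h5 : 0 < Real.log ((j : ℝ) + 2) := Real.log_pos (by linarith)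
        have h6 : Real.log ((j : ℝ) + 2) ≤ Real.log ((j : ℝ) + 16) := Real.log_le_log (by linarith) (by linarith)
        unfold pp
        calc Real.log (Real.log ((j : ℝ) + 16)) / (64 * Real.log ((j : ℝ) + 16))
            ≤ Real.log (Real.log ((2 : ℝ) ^ i + 16)) / (64 * Real.log ((j : ℝ) + 2)) := by
              gcongr
          _ = _ := by field_simp
    _ = Real.log (Real.log ((2 : ℝ) ^ i + 16)) / 64 * ∑ j ∈ range (2 ^ i), 1 / Real.log ((j : ℝ) + 2) := by
        rw [mul_sum]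
    _ ≤ _ := by gcongr

lemma pp_sum_lower (i : ℕ) : (2 : ℝ) ^ i / (64 * ((i : ℝ) + 5)) ≤ ∑ j ∈ range (2 ^ i), pp j := by
  calc (2 : ℝ) ^ i / (64 * ((i : ℝ) + 5)) = ∑ j ∈ range (2 ^ i), 1 / (64 * ((i : ℝ) + 5)) := by
        rw [sum_const, card_range, nsmul_eq_mul]
        push_cast
        ring
    _ ≤ ∑ j ∈ range (2 ^ i), pp j := by
        refine sum_le_sum fun j hj => ?_
        rw [mem_range] at hj
        refine le_trans ?_ (pp_lower j)
        have h0 : (0 : ℝ) ≤ j := Nat.cast_nonneg _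
        have h2 := log16 j h0
        have h3 := Real.exp_pos 1
        have h4 : 0 < Real.log ((j : ℝ) + 16) := by linarith
        have h5 : Real.log ((j : ℝ) + 16) ≤ (i : ℝ) + 5 := by
          have hj' : (j : ℝ) ≤ (2 : ℝ) ^ i := by exact_mod_cast hj.le
          have h6 : (j : ℝ) + 16 ≤ (2 : ℝ) ^ (i + 5) := by
            rw [pow_add]
            have : (1 : ℝ) ≤ (2 : ℝ) ^ i := one_le_pow₀ (by norm_num)
            nlinarith
          have h7 := Real.log_le_log (by linarith) h6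
          rw [Real.log_pow] at h7
          push_cast at h7
          have h8 := Real.log_two_lt_d9
          have h9 : (0 : ℝ) ≤ (i : ℝ) + 5 := by positivity
          nlinarith
        gcongr

lemma pp_summ : Summable fun i : ℕ => 1 / ∑ j ∈ range (2 ^ i), pp j := by
  have hhalf : ‖(1 / 2 : ℝ)‖ < 1 := by rw [Real.norm_of_nonneg (by norm_num)]; norm_num
  have h1 : Summable fun i : ℕ => 64 * ((i : ℝ) ^ 1 * (1 / 2 : ℝ) ^ i) + 320 * ((i : ℝ) ^ 0 * (1 / 2 : ℝ) ^ i) :=
    ((summable_pow_mul_geometric_of_norm_lt_one 1 (r := (1 / 2 : ℝ)) hhalf).mul_left 64).add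
      ((summable_pow_mul_geometric_of_norm_lt_one 0 (r := (1 / 2 : ℝ)) hhalf).mul_left 320)
  refine Summable.of_nonneg_of_le (fun i => ?_) (fun i => ?_) h1
  · exact one_div_nonneg.2 (sum_nonneg fun j _ => (pp_pos j).le)
  · have h2 := pp_sum_lower i
    have h3 : 1 / ∑ j ∈ range (2 ^ i), pp j ≤ 1 / ((2 : ℝ) ^ i / (64 * ((i : ℝ) + 5))) :=
      one_div_le_one_div_of_le (by positivity) h2
    refine h3.trans (le_of_eq ?_)
    rw [one_div_div, pow_one, pow_zero, one_div_pow]
    field_simp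
    ring

/-- **Existence of universal sparse sets.** -/
theorem exists_sparse_weyl (T : Set (ℝ × ℝ)) (hT : T.Countable) : ∃ A : Set ℕ,
    (∀ᶠ N : ℕ in atTop, ((A ∩ Set.Iio N).ncard : ℝ) ≤ N * Real.log (Real.log N) / Real.log N) ∧
    ∀ b : ℕ, 2 ≤ b → ∀ q : ℕ, 2 ≤ q → ∀ z ∈ T, z.1 ≠ 0 →
      ((∀ m n : ℕ, 0 < m → 0 < n → b ^ m ≠ q ^ n) ∨ (Irrational z.1 ∧ ¬ Liouville z.1)) →
      ∀ h : ℤ, h ≠ 0 → Tendsto (avg (ex q
        (z.2 + z.1 * ∑' j, A.indicator (fun j => 1 / (b : ℝ) ^ (j + 1)) j) h)) atTop (𝓝 0) := by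
  classical
  obtain ⟨Ω, mΩ, P, hP, A, hA, hind, hp⟩ := exists_events pp (fun j => (pp_pos j).le)
    fun j => (pp_le j).trans (by norm_num)
  have hE : (fun i => ∑ j ∈ range (2 ^ i), pp j) = fun i => ∑ j ∈ range (2 ^ i), P.real (A j) := by
    funext i
    exact sum_congr rfl fun j _ => (hp j).symm
  have h1 := ae_count P A hA hind (fun i => ∑ j ∈ range (2 ^ i), pp j) hE
    (fun i => sum_pos (fun j _ => pp_pos j) ⟨0, mem_range.2 (by positivity)⟩) pp_summ
  have hv : Tendsto (fun j : ℕ => P.real (A j) * (1 - P.real (A j)) * Real.log j) atTop atTop := by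
    simp_rw [hp]
    exact pp_tendsto
  have h2 : ∀ᵐ ω ∂P, ∀ z ∈ T, ∀ b : ℕ, 2 ≤ b → ∀ q : ℕ, 2 ≤ q → z.1 ≠ 0 →
      ((∀ m n : ℕ, 0 < m → 0 < n → b ^ m ≠ q ^ n) ∨ (Irrational z.1 ∧ ¬ Liouville z.1)) →
      ∀ h : ℤ, h ≠ 0 → Tendsto (avg (ex q (z.2 + z.1 / b * CC (xi A) b ω) h)) atTop (𝓝 0) := by
    rw [ae_ball_iff hT]
    intro z _
    rw [ae_all_iff]; intro b
    rw [ae_all_iff]; intro hb
    rw [ae_all_iff]; intro q
    rw [ae_all_iff]; intro hq
    rw [ae_all_iff]; intro hz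
    rw [ae_all_iff]; intro hcase
    rw [ae_all_iff]; intro h
    rw [ae_all_iff]; intro hh
    have hb0 : (b : ℝ) ≠ 0 := by exact_mod_cast (by omega : b ≠ 0)
    refine weyl_events P A hA hind hv b q hb hq (z.1 / b) z.2 (div_ne_zero hz hb0) ?_ h hh
    rcases hcase with h3 | ⟨h3, h4⟩
    · exact Or.inl h3
    · right
      have hbq : ((1 : ℚ) / b) ≠ 0 := by
        have : (b : ℚ) ≠ 0 := by exact_mod_cast (by omega : b ≠ 0)
        positivity
      have e1 : z.1 / b = z.1 * (((1 : ℚ) / b : ℚ) : ℝ) := by push_cast; ring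
      rw [e1]
      exact ⟨h3.mul_ratCast hbq, fun h5 => h4 (liouville_mul_rat _ _ hbq h5)⟩
  obtain ⟨ω, hω1, hω2⟩ := (h1.and h2).exists
  refine ⟨{j | ω ∈ A j}, ?_, ?_⟩
  · -- the counting function
    obtain ⟨i0, hi0⟩ := eventually_atTop.1 hω1
    have hev : ∀ᶠ N : ℕ in atTop, 2 ≤ Real.log N :=
      (Real.tendsto_log_atTop.comp tendsto_natCast_atTop_atTop).eventually_ge_atTop 2
    filter_upwards [hev, eventually_ge_atTop (2 ^ i0 + 16)] with N hlogN hN
    have hN16 : 16 ≤ N := le_trans (Nat.le_add_left _ _) hN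
    have hNr : (16 : ℝ) ≤ N := by exact_mod_cast hN16
    obtain ⟨i, hi⟩ : ∃ i, i = Nat.log 2 N + 1 := ⟨_, rfl⟩
    have hi1 : N < 2 ^ i := by rw [hi]; exact Nat.lt_pow_succ_log_self (by norm_num) N
    have hi2 : 2 ^ i ≤ 2 * N := by
      rw [hi, pow_succ]
      have := Nat.pow_log_le_self 2 (show N ≠ 0 by omega)
      omega
    have hii : i0 ≤ i := by
      by_contra hcon
      push Not at hcon
      have : 2 ^ i ≤ 2 ^ i0 := Nat.pow_le_pow_right (by norm_num) hcon.le
      omega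
    have hc := hi0 i hii
    have hcount : (({j | ω ∈ A j} ∩ Set.Iio N).ncard : ℝ) ≤ ∑ j ∈ range (2 ^ i), xi A j ω := by
      have h3 : {j | ω ∈ A j} ∩ Set.Iio N = (((range N).filter fun j => ω ∈ A j : Finset ℕ) : Set ℕ) := by
        ext j
        simp only [Set.mem_inter_iff, Set.mem_ofPred_eq, Set.mem_Iio, coe_filter, mem_range]
        tauto
      rw [h3, Set.ncard_coe_finset]
      calc (#((range N).filter fun j => ω ∈ A j) : ℝ) = ∑ j ∈ range N, xi A j ω := by
            rw [card_filter]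
            push_cast
            refine sum_congr rfl fun j _ => ?_
            unfold xi
            by_cases h : ω ∈ A j
            · rw [if_pos h, Set.indicator_of_mem h]
            · rw [if_neg h, Set.indicator_of_notMem h]
        _ ≤ _ := by
            refine sum_le_sum_of_subset_of_nonneg (range_subset_range.2 hi1.le) fun j _ _ => ?_
            unfold xi
            exact Set.indicator_nonneg (fun _ _ => zero_le_one) _
    have hs := pp_sum i (by omega)
    have h2i : ((2 : ℝ) ^ i) ≤ 2 * N := by exact_mod_cast hi2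
    have h2i' : (N : ℝ) ≤ (2 : ℝ) ^ i := by exact_mod_cast hi1.le
    have hll : Real.log (Real.log ((2 : ℝ) ^ i + 16)) ≤ 2 * Real.log (Real.log N) := by
      have e1 : Real.log ((2 : ℝ) ^ i + 16) ≤ (Real.log N) ^ 2 := by
        have e2 : (2 : ℝ) ^ i + 16 ≤ (N : ℝ) ^ 2 := by nlinarith
        have e3 := Real.log_le_log (by positivity) e2
        rw [Real.log_pow] at e3
        push_cast at e3
        nlinarith
      have e2 := Real.log_le_log (by
        have := log16 ((2 : ℝ) ^ i) (by positivity)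
        have := Real.exp_pos 1
        linarith) e1
      rw [Real.log_pow] at e2
      push_cast at e2
      exact e2
    have hll0 : 0 < Real.log (Real.log ((2 : ℝ) ^ i + 16)) := by
      have := loglog16 ((2 : ℝ) ^ i) (by positivity)
      linarith
    have hlogi : Real.log N ≤ Real.log ((2 : ℝ) ^ i) := Real.log_le_log (by linarith) h2i'
    have hq1 : 0 ≤ 6 * (2 : ℝ) ^ i / Real.log ((2 : ℝ) ^ i) :=
      div_nonneg (by positivity) (by linarith)
    have hq2 : 0 ≤ 2 * Real.log (Real.log N) / 64 := by linarith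
    calc (({j | ω ∈ A j} ∩ Set.Iio N).ncard : ℝ) ≤ ∑ j ∈ range (2 ^ i), xi A j ω := hcount
      _ ≤ 2 * ∑ j ∈ range (2 ^ i), pp j := hc
      _ ≤ 2 * (Real.log (Real.log ((2 : ℝ) ^ i + 16)) / 64 *
            (6 * (2 : ℝ) ^ i / Real.log ((2 : ℝ) ^ i))) := by gcongr
      _ ≤ 2 * (2 * Real.log (Real.log N) / 64 * (6 * (2 * N) / Real.log N)) := by gcongr
      _ = 3 / 4 * (N * Real.log (Real.log N) / Real.log N) := by ring
      _ ≤ N * Real.log (Real.log N) / Real.log N := by
          have h5 : 0 ≤ N * Real.log (Real.log N) / Real.log N := by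
            have : 0 ≤ Real.log (Real.log N) := by linarith
            positivity
          linarith
  · intro b hb q hq z hz hz0 hcase
    have h4 := hω2 z hz b hb q hq hz0 hcase
    have e1 : z.1 / b * CC (xi A) b ω = z.1 * ∑' j, ({j | ω ∈ A j} : Set ℕ).indicator
        (fun j => 1 / (b : ℝ) ^ (j + 1)) j := by
      rw [div_mul_eq_mul_div, mul_div_assoc]
      congr 1
      unfold CC
      rw [← tsum_div_const]
      refine tsum_congr fun j => ?_
      unfold xi
      by_cases h : ω ∈ A j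
      · rw [Set.indicator_of_mem h, Set.indicator_of_mem (show j ∈ {j | ω ∈ A j} from h), pow_succ,
          div_div]
      · rw [Set.indicator_of_notMem h, Set.indicator_of_notMem (show j ∉ {j | ω ∈ A j} from h)]
        simp
    rw [e1] at h4
    exact h4

theorem exists_sparse (T : Set (ℝ × ℝ)) (hT : T.Countable) : ∃ A : Set ℕ,
    (∀ᶠ N : ℕ in atTop, ((A ∩ Set.Iio N).ncard : ℝ) ≤ N * Real.log (Real.log N) / Real.log N) ∧
    ∀ b : ℕ, 2 ≤ b → ∀ q : ℕ, 2 ≤ q → ∀ z ∈ T, z.1 ≠ 0 →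
      ((∀ m n : ℕ, 0 < m → 0 < n → b ^ m ≠ q ^ n) ∨ (Irrational z.1 ∧ ¬ Liouville z.1)) →
      Normal q (z.2 + z.1 * ∑' j, A.indicator (fun j => 1 / (b : ℝ) ^ (j + 1)) j) := by
  obtain ⟨A, h1, h2⟩ := exists_sparse_weyl T hT
  exact ⟨A, h1, fun b hb q hq z hz hz0 hcase => normal_of q hq _ (h2 b hb q hq z hz hz0 hcase)⟩

/-- The counting bound implies density zero. -/
lemma density_zero (A : Set ℕ)
    (hA : ∀ᶠ N : ℕ in atTop, ((A ∩ Set.Iio N).ncard : ℝ) ≤ N * Real.log (Real.log N) / Real.log N) :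
    Tendsto (fun N : ℕ => ((A ∩ Set.Iio N).ncard : ℝ) / N) atTop (𝓝 0) := by
  have h1 : Tendsto (fun t : ℝ => Real.log t / t) atTop (𝓝 0) := by
    have := Real.isLittleO_log_id_atTop.tendsto_div_nhds_zero
    exact this
  have h2 : Tendsto (fun N : ℕ => Real.log (Real.log N) / Real.log N) atTop (𝓝 0) :=
    h1.comp (Real.tendsto_log_atTop.comp tendsto_natCast_atTop_atTop)
  refine squeeze_zero' (Eventually.of_forall fun N => by positivity) ?_ h2
  filter_upwards [hA, eventually_gt_atTop 0] with N h3 h4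
  have h5 : (0 : ℝ) < N := by exact_mod_cast h4
  rw [div_le_iff₀ h5]
  refine h3.trans (le_of_eq ?_)
  ring

end H41.RM
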