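import Pool.Agent.H41.RM.Nn

/-! # The leading digits in base `b` of `w β ^ n` for multiplicatively independent `b` and `β` -/

set_option autoImplicit false

open Finset Filter Topology

namespace H41.RM

/-- the position of the leading digit -/
noncomputable def J (b : ℕ) (w : ℝ) : ℕ := Nat.log b ⌊w⌋₊

lemma J_spec (b : ℕ) (hb : 2 ≤ b) (w : ℝ) (hw : 1 ≤ w) :
    (b : ℝ) ^ J b w ≤ w ∧ w < (b : ℝ) ^ (J b w + 1) := by
  have h0 : ⌊w⌋₊ ≠ 0 := by
    have : 1 ≤ ⌊w⌋₊ := Nat.one_le_floor_iff w |>.2 hw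
    omega
  constructor
  · have h1 := Nat.pow_log_le_self b h0
    have h2 : ((b ^ Nat.log b ⌊w⌋₊ : ℕ) : ℝ) ≤ (⌊w⌋₊ : ℝ) := by exact_mod_cast h1
    push_cast at h2
    exact h2.trans (Nat.floor_le (by linarith))
  · have h1 := Nat.lt_pow_succ_log_self (show 1 < b by omega) ⌊w⌋₊
    have h2 : ((⌊w⌋₊ + 1 : ℕ) : ℝ) ≤ ((b ^ (Nat.log b ⌊w⌋₊ + 1) : ℕ) : ℝ) := by exact_mod_cast h1
    push_cast at h2
    exact lt_of_lt_of_le (Nat.lt_floor_add_one w) h2

lemma J_mono (b : ℕ) {w w' : ℝ} (h : w ≤ w') : J b w ≤ J b w' :=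
  Nat.log_mono_right (Nat.floor_mono h)

lemma J_eq (b : ℕ) (hb : 2 ≤ b) (w : ℝ) (hw : 1 ≤ w) (j : ℕ) (h1 : (b : ℝ) ^ j ≤ w)
    (h2 : w < (b : ℝ) ^ (j + 1)) : J b w = j := by
  obtain ⟨h3, h4⟩ := J_spec b hb w hw
  have hb' : (1 : ℝ) < b := by exact_mod_cast (by omega : 1 < b)
  have h5 := lt_of_le_of_lt h1 h4
  have h6 := lt_of_le_of_lt h3 h2
  rw [pow_lt_pow_iff_right₀ hb'] at h5 h6
  omega

lemma exists_prime_gap (b β : ℕ) (hb : 2 ≤ b) (hβ : 2 ≤ β)
    (hind : ∀ m n : ℕ, 0 < m → 0 < n → b ^ m ≠ β ^ n) :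
    ∃ p : ℕ, p.Prime ∧ (b.factorization p : ℝ) * Real.log β < (β.factorization p : ℝ) * Real.log b := by
  by_contra hcon
  push Not at hcon
  have hlb : 0 < Real.log b := Real.log_pos (by exact_mod_cast (by omega : 1 < b))
  have hlβ : 0 < Real.log β := Real.log_pos (by exact_mod_cast (by omega : 1 < β))
  have hall : ∀ p, (β.factorization p : ℝ) * Real.log b ≤ (b.factorization p : ℝ) * Real.log β := by
    intro p
    by_cases hp : p.Prime
    · exact hcon p hp
    · rw [Nat.factorization_eq_zero_of_not_prime _ hp, Nat.factorization_eq_zero_of_not_prime _ hp]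
      simp
  obtain ⟨S, hS⟩ : ∃ S : Finset ℕ, S = β.factorization.support ∪ b.factorization.support := ⟨_, rfl⟩
  have e1 : Real.log β = ∑ p ∈ S, (β.factorization p : ℝ) * Real.log p := by
    rw [Real.log_nat_eq_sum_factorization, Finsupp.sum_of_support_subset _ (s := S) (by rw [hS]; exact subset_union_left)]
    intro p _
    simp
  have e2 : Real.log b = ∑ p ∈ S, (b.factorization p : ℝ) * Real.log p := by
    rw [Real.log_nat_eq_sum_factorization, Finsupp.sum_of_support_subset _ (s := S) (by rw [hS]; exact subset_union_right)]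
    intro p _
    simp
  have e3 : ∑ p ∈ S, ((b.factorization p : ℝ) * Real.log β - (β.factorization p : ℝ) * Real.log b) *
      Real.log p = 0 := by
    have : ∑ p ∈ S, ((b.factorization p : ℝ) * Real.log β - (β.factorization p : ℝ) * Real.log b) *
      Real.log p = Real.log β * ∑ p ∈ S, (b.factorization p : ℝ) * Real.log p -
        Real.log b * ∑ p ∈ S, (β.factorization p : ℝ) * Real.log p := by
      rw [mul_sum, mul_sum, ← sum_sub_distrib]
      refine sum_congr rfl fun p _ => ?_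
      ring
    rw [this, ← e1, ← e2]
    ring
  have e4 := (sum_eq_zero_iff_of_nonneg (s := S) (fun p _ =>
    mul_nonneg (sub_nonneg.2 (hall p)) (Real.log_natCast_nonneg p))).1 e3
  obtain ⟨p, hp, hpβ⟩ : ∃ p, p.Prime ∧ p ∣ β := Nat.exists_prime_and_dvd (by omega)
  have hβp : 0 < β.factorization p := hp.factorization_pos_of_dvd (by omega) hpβ
  have hpS : p ∈ S := by
    rw [hS, mem_union, Finsupp.mem_support_iff]
    exact Or.inl (by omega)
  have e5 := e4 p hpS
  have hlp : 0 < Real.log p := Real.log_pos (by exact_mod_cast hp.one_lt)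
  rw [mul_eq_zero] at e5
  have e6 : (b.factorization p : ℝ) * Real.log β = (β.factorization p : ℝ) * Real.log b := by
    rcases e5 with h | h
    · linarith
    · exact absurd h hlp.ne'
  have hbp : 0 < b.factorization p := by
    rcases Nat.eq_zero_or_pos (b.factorization p) with h | h
    · exfalso
      rw [h, Nat.cast_zero, zero_mul] at e6
      have : (0 : ℝ) < (β.factorization p : ℝ) * Real.log b :=
        mul_pos (by exact_mod_cast hβp) hlb
      linarith
    · exact h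
  apply hind (β.factorization p) (b.factorization p) hβp hbp
  have h1 : Real.log (((b ^ β.factorization p : ℕ) : ℝ)) = Real.log (((β ^ b.factorization p : ℕ) : ℝ)) := by
    push_cast
    rw [Real.log_pow, Real.log_pow]
    exact e6.symm
  have h2 := Real.log_injOn_pos (Set.mem_Ioi.2 (by positivity)) (Set.mem_Ioi.2 (by positivity)) h1
  exact_mod_cast h2

/-- Two bad numbers at the same scale are exactly related. -/
lemma exact_rel (b β R : ℕ) (hb : 2 ≤ b) (hβ : 2 ≤ β) (hR : 2 ≤ R) (w : ℝ) (hw : 1 ≤ w) (s r : ℕ)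
    (h1 : Bad b R (w / (b : ℝ) ^ J b w) s)
    (h2 : Bad b R ((β : ℝ) ^ r * w / (b : ℝ) ^ J b ((β : ℝ) ^ r * w)) s)
    (hr : β * r + 1 ≤ (R - 1) * R ^ s) :
    ∃ m m' D : ℕ, 0 < m ∧ 0 < m' ∧ m' ≤ b ^ (R ^ s + 1) ∧ m' * b ^ D = β ^ r * m ∧
      b ^ D ≤ b * β ^ r := by
  have hb' : (1 : ℝ) < b := by exact_mod_cast (by omega : 1 < b)
  have hb0 : (0 : ℝ) < b := by linarith
  have hβ' : (1 : ℝ) ≤ β := by exact_mod_cast (by omega : 1 ≤ β)
  have hβr : (1 : ℝ) ≤ (β : ℝ) ^ r := one_le_pow₀ hβ'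
  obtain ⟨w', hw'⟩ : ∃ w', w' = (β : ℝ) ^ r * w := ⟨_, rfl⟩
  rw [← hw'] at h2
  have hww : w ≤ w' := by
    rw [hw']
    exact le_mul_of_one_le_left (by linarith) hβr
  have hw1 : 1 ≤ w' := hw.trans hww
  obtain ⟨a1, a2⟩ := J_spec b hb w hw
  obtain ⟨a3, a4⟩ := J_spec b hb w' hw1
  have hJ := J_mono b hww
  obtain ⟨D, hD⟩ := Nat.exists_eq_add_of_le hJ
  obtain ⟨l, hl⟩ : ∃ l, l = R ^ s := ⟨_, rfl⟩
  have b1 := bad_small b R (by omega) hR _ s h1
  have b2 := bad_small b R (by omega) hR _ s h2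
  rw [← hl] at b1 b2 hr ⊢
  obtain ⟨j, hj⟩ : ∃ j, j = J b w := ⟨_, rfl⟩
  rw [hD] at a3 a4 b2
  rw [← hj] at a1 a2 a3 a4 b1 b2
  have hbD : (b : ℝ) ^ D ≤ b * (β : ℝ) ^ r := by
    have h3 : (b : ℝ) ^ (j + D) < (β : ℝ) ^ r * (b : ℝ) ^ (j + 1) := by
      refine lt_of_le_of_lt a3 ?_
      rw [hw']
      gcongr
    rw [pow_add, pow_succ, show (β : ℝ) ^ r * ((b : ℝ) ^ j * b) = (b : ℝ) ^ j * (b * (β : ℝ) ^ r) by ring]
      at h3
    exact (lt_of_mul_lt_mul_left h3 (by positivity)).le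
  obtain ⟨M, hM⟩ : ∃ M, M = round (w / (b : ℝ) ^ j * (b : ℝ) ^ l) := ⟨_, rfl⟩
  obtain ⟨M', hM'⟩ : ∃ M', M' = round (w' / (b : ℝ) ^ (j + D) * (b : ℝ) ^ l) := ⟨_, rfl⟩
  unfold nn at b1 b2
  rw [← hM] at b1
  rw [← hM'] at b2
  obtain ⟨Q, hQ⟩ : ∃ Q : ℝ, Q = (b : ℝ) ^ ((R - 1) * l) := ⟨_, rfl⟩
  rw [← hQ] at b1 b2
  have hQ1 : 1 ≤ Q := by rw [hQ]; exact one_le_pow₀ hb'.le
  have hQ2 : b * (β : ℝ) ^ r ≤ Q := by
    have hβb : (β : ℝ) ≤ (b : ℝ) ^ β := by
      have h3 : β < b ^ β := Nat.lt_pow_self (by omega)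
      exact_mod_cast h3.le
    calc (b : ℝ) * (β : ℝ) ^ r ≤ b * ((b : ℝ) ^ β) ^ r := by gcongr
      _ = (b : ℝ) ^ (β * r + 1) := by rw [pow_succ, pow_mul]; ring
      _ ≤ (b : ℝ) ^ ((R - 1) * l) := pow_le_pow_right₀ hb'.le hr
      _ = Q := hQ.symm
  have c1 : |w / (b : ℝ) ^ j * (b : ℝ) ^ l - M| < 1 / 2 :=
    lt_of_le_of_lt (le_mul_of_one_le_right (abs_nonneg _) hQ1) b1
  have c2 : |w' / (b : ℝ) ^ (j + D) * (b : ℝ) ^ l - M'| < 1 / 2 :=
    lt_of_le_of_lt (le_mul_of_one_le_right (abs_nonneg _) hQ1) b2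
  have d1 : (1 : ℝ) ≤ w / (b : ℝ) ^ j := by rw [one_le_div (by positivity)]; exact a1
  have d2 : (1 : ℝ) ≤ w' / (b : ℝ) ^ (j + D) := by rw [one_le_div (by positivity)]; exact a3
  have d3 : w' / (b : ℝ) ^ (j + D) < b := by
    rw [div_lt_iff₀ (by positivity)]
    calc w' < (b : ℝ) ^ (j + D + 1) := a4
      _ = _ := by ring
  have hbl : (1 : ℝ) ≤ (b : ℝ) ^ l := one_le_pow₀ hb'.le
  have hM0 : 0 < M := by
    have h3 : (1 : ℝ) ≤ w / (b : ℝ) ^ j * (b : ℝ) ^ l := one_le_mul_of_one_le_of_one_le d1 hbl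
    have h4 := (abs_lt.1 c1).2
    have h5 : (0 : ℝ) < (M : ℝ) := by linarith
    exact_mod_cast h5
  have hM'0 : 0 < M' := by
    have h3 : (1 : ℝ) ≤ w' / (b : ℝ) ^ (j + D) * (b : ℝ) ^ l := one_le_mul_of_one_le_of_one_le d2 hbl
    have h4 := (abs_lt.1 c2).2
    have h5 : (0 : ℝ) < (M' : ℝ) := by linarith
    exact_mod_cast h5
  have hM'1 : M' ≤ (b : ℤ) ^ (l + 1) := by
    have h3 : w' / (b : ℝ) ^ (j + D) * (b : ℝ) ^ l < (b : ℝ) ^ (l + 1) := by
      rw [pow_succ, mul_comm]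
      gcongr
    have h4 := (abs_lt.1 c2).1
    have h5 : (M' : ℝ) < (((b : ℤ) ^ (l + 1) + 1 : ℤ) : ℝ) := by push_cast; linarith
    have h6 : M' < (b : ℤ) ^ (l + 1) + 1 := by exact_mod_cast h5
    omega
  have hrel : M' * (b : ℤ) ^ D = (β : ℤ) ^ r * M := by
    have h3 : |((M' * (b : ℤ) ^ D - (β : ℤ) ^ r * M : ℤ) : ℝ)| < 1 := by
      have h4 : ((M' * (b : ℤ) ^ D - (β : ℤ) ^ r * M : ℤ) : ℝ) =
          (β : ℝ) ^ r * (w / (b : ℝ) ^ j * (b : ℝ) ^ l - M) -
          (b : ℝ) ^ D * (w' / (b : ℝ) ^ (j + D) * (b : ℝ) ^ l - M') := by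
        have h5 : (b : ℝ) ^ D * (w' / (b : ℝ) ^ (j + D) * (b : ℝ) ^ l) =
            (β : ℝ) ^ r * (w / (b : ℝ) ^ j * (b : ℝ) ^ l) := by
          rw [hw', pow_add]
          field_simp
        push_cast
        rw [mul_sub, mul_sub, h5]
        ring
      rw [h4]
      have hQ0 : 0 < Q := by linarith
      have h6 : |(β : ℝ) ^ r * (w / (b : ℝ) ^ j * (b : ℝ) ^ l - M) -
          (b : ℝ) ^ D * (w' / (b : ℝ) ^ (j + D) * (b : ℝ) ^ l - M')| * Q < Q := by
        calc |(β : ℝ) ^ r * (w / (b : ℝ) ^ j * (b : ℝ) ^ l - M) -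
          (b : ℝ) ^ D * (w' / (b : ℝ) ^ (j + D) * (b : ℝ) ^ l - M')| * Q
            ≤ (|(β : ℝ) ^ r * (w / (b : ℝ) ^ j * (b : ℝ) ^ l - M)| +
              |(b : ℝ) ^ D * (w' / (b : ℝ) ^ (j + D) * (b : ℝ) ^ l - M')|) * Q := by
              gcongr
              exact abs_sub _ _
          _ = (β : ℝ) ^ r * (|w / (b : ℝ) ^ j * (b : ℝ) ^ l - M| * Q) +
              (b : ℝ) ^ D * (|w' / (b : ℝ) ^ (j + D) * (b : ℝ) ^ l - M'| * Q) := by
              rw [abs_mul, abs_mul, abs_of_pos (show (0 : ℝ) < (β : ℝ) ^ r by positivity),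
                abs_of_pos (show (0 : ℝ) < (b : ℝ) ^ D by positivity)]
              ring
          _ < (β : ℝ) ^ r * (1 / 2) + (b : ℝ) ^ D * (1 / 2) := by gcongr
          _ ≤ (β : ℝ) ^ r * (1 / 2) + (b * (β : ℝ) ^ r) * (1 / 2) := by gcongr
          _ ≤ Q := by
              have h7 : (β : ℝ) ^ r ≤ b * (β : ℝ) ^ r := le_mul_of_one_le_left (by positivity) hb'.le
              linarith
      by_contra h7
      push Not at h7
      have h8 : Q ≤ |(β : ℝ) ^ r * (w / (b : ℝ) ^ j * (b : ℝ) ^ l - M) -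
          (b : ℝ) ^ D * (w' / (b : ℝ) ^ (j + D) * (b : ℝ) ^ l - M')| * Q := le_mul_of_one_le_left hQ0.le h7
      linarith
    have h4 : |M' * (b : ℤ) ^ D - (β : ℤ) ^ r * M| < 1 := by exact_mod_cast h3
    have h5 := Int.abs_lt_one_iff.1 h4
    omega
  refine ⟨M.toNat, M'.toNat, D, by omega, by omega, ?_, ?_, ?_⟩
  · have : (M'.toNat : ℤ) ≤ ((b ^ (l + 1) : ℕ) : ℤ) := by
      rw [Int.toNat_of_nonneg hM'0.le]
      push_cast
      exact hM'1
    exact_mod_cast this
  · have : ((M'.toNat * b ^ D : ℕ) : ℤ) = ((β ^ r * M.toNat : ℕ) : ℤ) := by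
      push_cast
      rw [Int.toNat_of_nonneg hM'0.le, Int.toNat_of_nonneg hM0.le]
      exact hrel
    exact_mod_cast this
  · exact_mod_cast hbD

/-- The shift is bounded by a multiple of the number of digits. -/
lemma shift_bound (b β : ℕ) (hb : 2 ≤ b) (hβ : 2 ≤ β)
    (hind : ∀ m n : ℕ, 0 < m → 0 < n → b ^ m ≠ β ^ n) :
    ∃ C : ℕ, 1 ≤ C ∧ ∀ m m' D r l : ℕ, 0 < m → 0 < m' → 1 ≤ l → m' ≤ b ^ (l + 1) →
      m' * b ^ D = β ^ r * m → b ^ D ≤ b * β ^ r → r ≤ C * l := by
  obtain ⟨p, hp, hgap⟩ := exists_prime_gap b β hb hβ hind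
  obtain ⟨κ, hκ⟩ : ∃ κ : ℝ, κ = (β.factorization p : ℝ) * Real.log b -
    (b.factorization p : ℝ) * Real.log β := ⟨_, rfl⟩
  have hκ0 : 0 < κ := by rw [hκ]; linarith
  have hlb : 0 < Real.log b := Real.log_pos (by exact_mod_cast (by omega : 1 < b))
  have hlβ : 0 < Real.log β := Real.log_pos (by exact_mod_cast (by omega : 1 < β))
  have hl2 : 0 < Real.log 2 := Real.log_pos (by norm_num)
  obtain ⟨C0, hC0⟩ : ∃ C0 : ℝ, C0 = (b.factorization p * Real.log b +
    2 * Real.log b * Real.log b / Real.log 2) / κ := ⟨_, rfl⟩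
  refine ⟨⌈C0⌉₊ + 1, by omega, ?_⟩
  intro m m' D r l hm hm' hl hm'l hrel hD
  have hb0 : (0 : ℝ) < b := by exact_mod_cast (by omega : 0 < b)
  have hβ0 : (0 : ℝ) < β := by exact_mod_cast (by omega : 0 < β)
  -- factorizations
  have h1 : m'.factorization p + D * b.factorization p = r * β.factorization p + m.factorization p := by
    have h2 := congrArg (fun n => n.factorization p) hrel
    rw [Nat.factorization_mul (by omega) (by positivity), Nat.factorization_mul (by positivity) (by omega),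
      Nat.factorization_pow, Nat.factorization_pow] at h2
    simpa using h2
  have h2 : (r : ℝ) * β.factorization p ≤ m'.factorization p + D * b.factorization p := by
    exact_mod_cast (by omega : r * β.factorization p ≤ m'.factorization p + D * b.factorization p)
  have h3 : (m'.factorization p : ℝ) * Real.log 2 ≤ (l + 1) * Real.log b := by
    have h4 : 2 ^ m'.factorization p ≤ b ^ (l + 1) := by
      calc 2 ^ m'.factorization p ≤ p ^ m'.factorization p := Nat.pow_le_pow_left hp.two_le _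
        _ ≤ m' := Nat.ordProj_le p (by omega)
        _ ≤ b ^ (l + 1) := hm'l
    have h5 : ((2 : ℝ)) ^ m'.factorization p ≤ (b : ℝ) ^ (l + 1) := by exact_mod_cast h4
    have h6 := Real.log_le_log (by positivity) h5
    rw [Real.log_pow, Real.log_pow] at h6
    push_cast at h6
    exact h6
  have h4 : (D : ℝ) * Real.log b ≤ Real.log b + r * Real.log β := by
    have h5 : (b : ℝ) ^ D ≤ b * (β : ℝ) ^ r := by exact_mod_cast hD
    have h6 := Real.log_le_log (by positivity) h5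
    rw [Real.log_pow, Real.log_mul (by positivity) (by positivity), Real.log_pow] at h6
    exact h6
  have h5 : (m'.factorization p : ℝ) ≤ 2 * l * Real.log b / Real.log 2 := by
    rw [le_div_iff₀ hl2]
    have hl' : (1 : ℝ) ≤ l := by exact_mod_cast hl
    have : ((l : ℝ) + 1) * Real.log b ≤ 2 * l * Real.log b := by gcongr; linarith
    linarith
  have h6 : (r : ℝ) * κ ≤ (b.factorization p * Real.log b +
    2 * Real.log b * Real.log b / Real.log 2) * l := by
    have hl' : (1 : ℝ) ≤ l := by exact_mod_cast hl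
    calc (r : ℝ) * κ = (r * β.factorization p) * Real.log b - (b.factorization p : ℝ) * (r * Real.log β) := by
          rw [hκ]; ring
      _ ≤ (m'.factorization p + D * b.factorization p) * Real.log b -
          (b.factorization p : ℝ) * (r * Real.log β) := by gcongr
      _ = m'.factorization p * Real.log b + (b.factorization p : ℝ) * (D * Real.log b - r * Real.log β) := by
          ring
      _ ≤ (2 * l * Real.log b / Real.log 2) * Real.log b + (b.factorization p : ℝ) * (Real.log b) := by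
          gcongr
          linarith
      _ ≤ (2 * l * Real.log b / Real.log 2) * Real.log b + (b.factorization p : ℝ) * (Real.log b) * l := by
          have : (b.factorization p : ℝ) * (Real.log b) ≤ (b.factorization p : ℝ) * (Real.log b) * l :=
            le_mul_of_one_le_right (by positivity) hl'
          linarith
      _ = _ := by ring
  have h7 : (r : ℝ) ≤ C0 * l := by
    rw [hC0, div_mul_eq_mul_div, le_div_iff₀ hκ0]
    exact h6
  have h8 : (r : ℝ) ≤ ((⌈C0⌉₊ + 1) * l : ℕ) := by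
    refine h7.trans ?_
    push_cast
    gcongr
    have := Nat.le_ceil C0
    linarith
  exact_mod_cast h8

/-- Sets of integers in clusters. -/
lemma clusters (S : Finset ℕ) (N L a : ℕ) (hS : S ⊆ range N) (hL : 0 < L)
    (h : ∀ n ∈ S, ∀ n' ∈ S, n < n' → n' - n < L → n' - n ≤ a) :
    #S ≤ (N / L + 1) * (a + 1) := by
  classical
  have h1 : S.image (fun n => n / L) ⊆ range (N / L + 1) := by
    intro q hq
    rw [mem_image] at hq
    obtain ⟨n, hn, rfl⟩ := hq
    have := mem_range.1 (hS hn)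
    rw [mem_range]
    exact Nat.lt_succ_of_le (Nat.div_le_div_right this.le)
  have h2 : ∀ q ∈ S.image (fun n => n / L), #(S.filter fun n => n / L = q) ≤ a + 1 := by
    intro q _
    rcases (S.filter fun n => n / L = q).eq_empty_or_nonempty with he | hne
    · rw [he]; simp
    · obtain ⟨m, hm⟩ : ∃ m, m = (S.filter fun n => n / L = q).min' hne := ⟨_, rfl⟩
      have hmm := (S.filter fun n => n / L = q).min'_mem hne
      rw [← hm, mem_filter] at hmm
      have h3 : (S.filter fun n => n / L = q) ⊆ Finset.Icc m (m + a) := by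
        intro n hn
        have h4 : m ≤ n := by rw [hm]; exact Finset.min'_le _ _ hn
        rw [mem_filter] at hn
        rw [Finset.mem_Icc]
        refine ⟨h4, ?_⟩
        rcases h4.eq_or_lt with h5 | h5
        · omega
        · have h6 : n - m < L := by
            have e1 := Nat.div_add_mod n L
            have e2 := Nat.div_add_mod m L
            have e3 := Nat.mod_lt n hL
            rw [hn.2] at e1
            rw [hmm.2] at e2
            omega
          have := h m hmm.1 n hn.1 h5 h6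
          omega
      have h4 := card_le_card h3
      rw [Nat.card_Icc] at h4
      omega
  have h3 := Finset.card_le_mul_card_image S (a + 1) h2
  have h4 := card_le_card h1
  rw [card_range] at h4
  calc #S ≤ (a + 1) * #(S.image fun n => n / L) := h3
    _ ≤ (a + 1) * (N / L + 1) := Nat.mul_le_mul_left _ h4
    _ = _ := mul_comm _ _

/-- For most `n` the leading digits of `w₀ β ^ n` have large energy. -/
def Rich (b β : ℕ) (w0 : ℝ) : Prop :=
  ∀ ε : ℝ, 0 < ε → ∃ δ : ℝ, 0 < δ ∧ ∀ᶠ i : ℕ in atTop,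
    (#((range (i ^ 4)).filter fun n : ℕ => T b ((β : ℝ) ^ n * w0 / (b : ℝ) ^ J b ((β : ℝ) ^ n * w0)) (i ^ 2) <
      δ * Real.log i) : ℝ) ≤ ε * (i : ℝ) ^ 4

end H41.RM
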