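import Pool.Agent.H41.RM.Indep

/-! # Most numbers `w₀ β ^ n` have many digit changes among the leading digits -/

set_option autoImplicit false

open Finset Filter Topology

namespace H41.RM

/-- Independent bases. -/
theorem rich_indep (b β : ℕ) (hb : 2 ≤ b) (hβ : 2 ≤ β)
    (hind : ∀ m n : ℕ, 0 < m → 0 < n → b ^ m ≠ β ^ n) (w0 : ℝ) (hw0 : 1 ≤ w0) : Rich b β w0 := by
  classical
  intro ε hε
  obtain ⟨C, hC1, hC⟩ := shift_bound b β hb hβ hind
  obtain ⟨R', hR'⟩ : ∃ R' : ℕ, R' = ⌈8 * C / ε⌉₊ + 1 := ⟨_, rfl⟩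
  have hR'1 : 1 ≤ R' := by omega
  have hR'2 : 8 * C / ε ≤ R' := by
    rw [hR']
    push_cast
    have := Nat.le_ceil (8 * C / ε)
    linarith
  obtain ⟨R, hR⟩ : ∃ R : ℕ, R = 4 * β * R' := ⟨_, rfl⟩
  have hR8 : 8 ≤ R := by rw [hR]; nlinarith
  have hRr : (1 : ℝ) < R := by exact_mod_cast (by omega : 1 < R)
  have hlR := Real.log_pos hRr
  have hb0 : (0 : ℝ) < b := by exact_mod_cast (by omega : 0 < b)
  obtain ⟨u, hu⟩ : ∃ u : ℕ → ℝ, u = fun n => (β : ℝ) ^ n * w0 / (b : ℝ) ^ J b ((β : ℝ) ^ n * w0) :=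
    ⟨_, rfl⟩
  have hw : ∀ n : ℕ, 1 ≤ (β : ℝ) ^ n * w0 := fun n =>
    one_le_mul_of_one_le_of_one_le (one_le_pow₀ (by exact_mod_cast (by omega : 1 ≤ β))) hw0
  refine ⟨1 / (8 * b ^ 2 * Real.log R), by positivity, ?_⟩
  filter_upwards [eventually_ge_atTop R] with i hi
  have hi0 : 0 < i := by omega
  have hir : (0 : ℝ) < i := by exact_mod_cast hi0
  obtain ⟨I, hI⟩ : ∃ I : ℕ, I = Nat.log R (i ^ 2) := ⟨_, rfl⟩
  have hI1 : R ^ I ≤ i ^ 2 := by rw [hI]; exact Nat.pow_log_le_self R (by positivity)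
  have hI2 := log_pow_bound R (by omega) i hi
  rw [← hI] at hI2
  have hI0 : 0 < I := by
    rw [hI]
    refine Nat.log_pos (by omega) ?_
    calc R ≤ i := hi
      _ ≤ i ^ 2 := Nat.le_self_pow (by norm_num) i
  -- one scale
  have hscale : ∀ s < I, (#((range (i ^ 4)).filter fun n => Bad b R (u n) s) : ℝ) ≤
      4 * C * (i : ℝ) ^ 4 / R' := by
    intro s hs
    obtain ⟨L, hL⟩ : ∃ L, L = R' * R ^ s := ⟨_, rfl⟩
    have hRs : 0 < R ^ s := by positivity
    have hL0 : 0 < L := by rw [hL]; positivity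
    have hLR : β * L ≤ (R - 1) * R ^ s := by
      rw [hL, ← mul_assoc]
      refine Nat.mul_le_mul_right _ ?_
      have : 4 * (β * R') = R := by rw [hR]; ring
      omega
    have hLN : L ≤ i ^ 4 := by
      calc L ≤ β * L := Nat.le_mul_of_pos_left _ (by omega)
        _ ≤ (R - 1) * R ^ s := hLR
        _ ≤ R * R ^ s := Nat.mul_le_mul_right _ (by omega)
        _ = R ^ (s + 1) := by ring
        _ ≤ R ^ I := Nat.pow_le_pow_right (by omega) (by omega)
        _ ≤ i ^ 2 := hI1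
        _ ≤ i ^ 4 := Nat.pow_le_pow_right hi0 (by norm_num)
    have h1 := clusters ((range (i ^ 4)).filter fun n => Bad b R (u n) s) (i ^ 4) L (C * R ^ s)
      (filter_subset _ _) hL0 (by
        intro n hn n' hn' hnn hlt
        rw [mem_filter] at hn hn'
        have h3 := hn.2
        have h4 := hn'.2
        rw [hu] at h3 h4
        simp only at h3 h4
        obtain ⟨r, hr⟩ : ∃ r, r = n' - n := ⟨_, rfl⟩
        rw [← hr] at hlt ⊢
        have h5 : (β : ℝ) ^ n' * w0 = (β : ℝ) ^ r * ((β : ℝ) ^ n * w0) := by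
          rw [← mul_assoc, ← pow_add]
          congr 2
          omega
        rw [h5] at h4
        have h6 : β * r + 1 ≤ (R - 1) * R ^ s := by
          have h7 : β * (r + 1) ≤ β * L := Nat.mul_le_mul_left _ hlt
          have h8 : β * (r + 1) = β * r + β := by ring
          omega
        obtain ⟨m, m', D, hm, hm', hml, hrel, hD⟩ := exact_rel b β R hb hβ (by omega) _ (hw n) s r h3 h4 h6
        exact hC m m' D r (R ^ s) hm hm' hRs hml hrel hD)
    have hLr : (0 : ℝ) < L := by exact_mod_cast hL0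
    have hRs' : (0 : ℝ) < (R : ℝ) ^ s := by positivity
    have h2 : ((i ^ 4 / L + 1 : ℕ) : ℝ) ≤ 2 * ((i : ℝ) ^ 4 / L) := by
      push_cast
      have h3 : ((i ^ 4 / L : ℕ) : ℝ) ≤ ((i ^ 4 : ℕ) : ℝ) / L := Nat.cast_div_le
      push_cast at h3
      have h4 : (1 : ℝ) ≤ (i : ℝ) ^ 4 / L := by
        rw [one_le_div hLr]
        exact_mod_cast hLN
      linarith
    have h3 : ((C * R ^ s + 1 : ℕ) : ℝ) ≤ 2 * (C * (R : ℝ) ^ s) := by
      push_cast
      have h4 : (1 : ℝ) ≤ C * (R : ℝ) ^ s := by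
        exact_mod_cast (Nat.mul_pos (by omega) hRs : 0 < C * R ^ s)
      linarith
    calc (#((range (i ^ 4)).filter fun n => Bad b R (u n) s) : ℝ)
        ≤ (((i ^ 4 / L + 1) * (C * R ^ s + 1) : ℕ) : ℝ) := by exact_mod_cast h1
      _ = ((i ^ 4 / L + 1 : ℕ) : ℝ) * ((C * R ^ s + 1 : ℕ) : ℝ) := by push_cast; ring
      _ ≤ (2 * ((i : ℝ) ^ 4 / L)) * (2 * (C * (R : ℝ) ^ s)) := by gcongr
      _ = 4 * C * (i : ℝ) ^ 4 / R' := by
          rw [hL]
          push_cast
          field_simp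
          ring
  -- double counting
  obtain ⟨bad, hbad⟩ : ∃ bad : ℕ → ℕ, bad = fun n => #((range I).filter fun s => Bad b R (u n) s) :=
    ⟨_, rfl⟩
  have hsum : (∑ n ∈ range (i ^ 4), (bad n : ℝ)) ≤ I * (4 * C * (i : ℝ) ^ 4 / R') := by
    have h1 : ∑ n ∈ range (i ^ 4), bad n =
        ∑ s ∈ range I, #((range (i ^ 4)).filter fun n => Bad b R (u n) s) := by
      rw [hbad]
      simp only [card_filter]
      exact sum_comm
    have h2 : (∑ n ∈ range (i ^ 4), (bad n : ℝ)) =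
        ∑ s ∈ range I, (#((range (i ^ 4)).filter fun n => Bad b R (u n) s) : ℝ) := by
      exact_mod_cast h1
    rw [h2]
    calc ∑ s ∈ range I, (#((range (i ^ 4)).filter fun n => Bad b R (u n) s) : ℝ)
        ≤ ∑ s ∈ range I, 4 * C * (i : ℝ) ^ 4 / R' := sum_le_sum fun s hs => hscale s (mem_range.1 hs)
      _ = _ := by rw [sum_const, card_range, nsmul_eq_mul]
  have hsub : ((range (i ^ 4)).filter fun n : ℕ =>
      T b ((β : ℝ) ^ n * w0 / (b : ℝ) ^ J b ((β : ℝ) ^ n * w0)) (i ^ 2) <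
      1 / (8 * b ^ 2 * Real.log R) * Real.log i) ⊆ (range (i ^ 4)).filter fun n => I ≤ 2 * bad n := by
    intro n hn
    rw [mem_filter] at hn ⊢
    refine ⟨hn.1, ?_⟩
    by_contra hcon
    push Not at hcon
    have h1 := T_ge b R (by omega) (by omega) (u n) I (i ^ 2) hI1
    have h2 : #((range I).filter fun s => Bad b R (u n) s) +
        #((range I).filter fun s => ¬ Bad b R (u n) s) = I := by
      have := Finset.card_filter_add_card_filter_not (s := range I) (fun s => Bad b R (u n) s)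
      rw [card_range] at this
      exact this
    have h3 : (I : ℝ) ≤ 2 * #((range I).filter fun s => ¬ Bad b R (u n) s) := by
      have h4 : bad n = #((range I).filter fun s => Bad b R (u n) s) := by rw [hbad]
      rw [h4] at hcon
      exact_mod_cast (by omega : I ≤ 2 * #((range I).filter fun s => ¬ Bad b R (u n) s))
    have h5 : 1 / (8 * b ^ 2 * Real.log R) * Real.log i ≤ T b (u n) (i ^ 2) := by
      refine le_trans ?_ h1
      calc 1 / (8 * (b : ℝ) ^ 2 * Real.log R) * Real.log i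
          = (Real.log i / Real.log R) / (8 * (b : ℝ) ^ 2) := by field_simp
        _ ≤ (2 * (#((range I).filter fun s => ¬ Bad b R (u n) s) : ℝ)) / (8 * (b : ℝ) ^ 2) := by
            gcongr
            linarith
        _ = _ := by ring
    rw [hu] at h5
    simp only at h5
    linarith [hn.2]
  have hE : (#((range (i ^ 4)).filter fun n => I ≤ 2 * bad n) : ℝ) * I ≤
      2 * (I * (4 * C * (i : ℝ) ^ 4 / R')) := by
    calc (#((range (i ^ 4)).filter fun n => I ≤ 2 * bad n) : ℝ) * I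
        = ∑ n ∈ (range (i ^ 4)).filter fun n => I ≤ 2 * bad n, (I : ℝ) := by
          rw [sum_const, nsmul_eq_mul]
      _ ≤ ∑ n ∈ (range (i ^ 4)).filter fun n => I ≤ 2 * bad n, 2 * (bad n : ℝ) := by
          refine sum_le_sum fun n hn => ?_
          exact_mod_cast (mem_filter.1 hn).2
      _ ≤ ∑ n ∈ range (i ^ 4), 2 * (bad n : ℝ) :=
          sum_le_sum_of_subset_of_nonneg (filter_subset _ _) fun _ _ _ => by positivity
      _ = 2 * ∑ n ∈ range (i ^ 4), (bad n : ℝ) := by rw [mul_sum]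
      _ ≤ _ := by gcongr
  have hIr : (0 : ℝ) < I := by exact_mod_cast hI0
  have hE2 : (#((range (i ^ 4)).filter fun n => I ≤ 2 * bad n) : ℝ) ≤ 8 * C * (i : ℝ) ^ 4 / R' := by
    have h1 : (#((range (i ^ 4)).filter fun n => I ≤ 2 * bad n) : ℝ) * I ≤ (8 * C * (i : ℝ) ^ 4 / R') * I := by
      calc _ ≤ _ := hE
        _ = _ := by ring
    exact le_of_mul_le_mul_right h1 hIr
  have hR'0 : (0 : ℝ) < R' := by exact_mod_cast hR'1
  calc _ ≤ (#((range (i ^ 4)).filter fun n => I ≤ 2 * bad n) : ℝ) := by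
        exact_mod_cast card_le_card hsub
    _ ≤ 8 * C * (i : ℝ) ^ 4 / R' := hE2
    _ = (8 * C / R') * (i : ℝ) ^ 4 := by ring
    _ ≤ ε * (i : ℝ) ^ 4 := by
        gcongr
        rw [div_le_iff₀ hR'0]
        rw [div_le_iff₀ hε] at hR'2
        linarith

lemma liouville_mul_rat (x : ℝ) (r : ℚ) (hr : r ≠ 0) (h : Liouville (x * r)) : Liouville x := by
  rw [← forall_liouvilleWith_iff] at h ⊢
  intro p
  exact (LiouvilleWith.mul_rat_iff hr).1 (h p)

/-- Dependent bases. -/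
theorem rich_dep (b β p q : ℕ) (hb : 2 ≤ b) (hβ : 2 ≤ β) (hq : 0 < q)
    (hpq : β ^ q = b ^ p) (w0 : ℝ) (hw0 : 1 ≤ w0) (hirr : Irrational w0) (hL : ¬ Liouville w0) :
    Rich b β w0 := by
  have hb0 : (0 : ℝ) < b := by exact_mod_cast (by omega : 0 < b)
  have hw : ∀ n : ℕ, 1 ≤ (β : ℝ) ^ n * w0 := fun n =>
    one_le_mul_of_one_le_of_one_le (one_le_pow₀ (by exact_mod_cast (by omega : 1 ≤ β))) hw0
  obtain ⟨z, hz⟩ : ∃ z : ℕ → ℝ, z = fun n => (β : ℝ) ^ n * w0 / (b : ℝ) ^ J b ((β : ℝ) ^ n * w0) :=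
    ⟨_, rfl⟩
  have hper : ∀ n, z n = z (n % q) := by
    intro n
    obtain ⟨r, hr⟩ : ∃ r, r = n % q := ⟨_, rfl⟩
    obtain ⟨t, ht⟩ : ∃ t, t = n / q := ⟨_, rfl⟩
    have hn : n = q * t + r := by rw [hr, ht]; exact (Nat.div_add_mod n q).symm
    rw [← hr]
    obtain ⟨a1, a2⟩ := J_spec b hb _ (hw r)
    have e1 : (β : ℝ) ^ (q * t) = (b : ℝ) ^ (p * t) := by
      rw [pow_mul, pow_mul]
      congr 1
      exact_mod_cast hpq
    have e2 : (β : ℝ) ^ n * w0 = (b : ℝ) ^ (p * t) * ((β : ℝ) ^ r * w0) := by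
      rw [hn, pow_add, e1]
      ring
    have e3 : J b ((β : ℝ) ^ n * w0) = p * t + J b ((β : ℝ) ^ r * w0) := by
      refine J_eq b hb _ (hw n) _ ?_ ?_
      · rw [e2, pow_add]
        gcongr
      · rw [e2, add_assoc, pow_add]
        gcongr
    rw [hz]
    simp only
    rw [e3, e2, pow_add]
    field_simp
  have hz1 : ∀ n, Irrational (z n) ∧ ¬ Liouville (z n) := by
    intro n
    have e1 : z n = w0 * (((β : ℚ) ^ n / (b : ℚ) ^ J b ((β : ℝ) ^ n * w0) : ℚ) : ℝ) := by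
      rw [hz]
      push_cast
      ring
    have e2 : ((β : ℚ) ^ n / (b : ℚ) ^ J b ((β : ℝ) ^ n * w0) : ℚ) ≠ 0 := by
      have h1 : (β : ℚ) ≠ 0 := by exact_mod_cast (by omega : β ≠ 0)
      have h2 : (b : ℚ) ≠ 0 := by exact_mod_cast (by omega : b ≠ 0)
      positivity
    rw [e1]
    exact ⟨hirr.mul_ratCast e2, fun h => hL (liouville_mul_rat _ _ e2 h)⟩
  have hall : ∀ k : ℕ, ∃ δ : ℝ, 0 < δ ∧ ∀ᶠ i : ℕ in atTop, ∀ n < k, δ * Real.log i ≤ T b (z n) (i ^ 2) := by
    intro k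
    induction k with
    | zero => exact ⟨1, one_pos, Eventually.of_forall fun i n hn => absurd hn (by omega)⟩
    | succ k ih =>
      obtain ⟨δ1, hδ1, h1⟩ := ih
      obtain ⟨δ2, hδ2, h2⟩ := T_nonliouville b hb (z k) (hz1 k).1 (hz1 k).2
      refine ⟨min δ1 δ2, lt_min hδ1 hδ2, ?_⟩
      filter_upwards [h1, h2] with i h1 h2
      intro n hn
      have hlog : 0 ≤ Real.log i := Real.log_natCast_nonneg i
      rcases Nat.lt_succ_iff_lt_or_eq.1 hn with h3 | h3
      · exact (mul_le_mul_of_nonneg_right (min_le_left _ _) hlog).trans (h1 n h3)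
      · rw [h3]
        exact (mul_le_mul_of_nonneg_right (min_le_right _ _) hlog).trans h2
  obtain ⟨δ, hδ, hev⟩ := hall q
  intro ε hε
  refine ⟨δ, hδ, ?_⟩
  filter_upwards [hev] with i hi
  have h1 : ((range (i ^ 4)).filter fun n : ℕ =>
      T b ((β : ℝ) ^ n * w0 / (b : ℝ) ^ J b ((β : ℝ) ^ n * w0)) (i ^ 2) < δ * Real.log i) = ∅ := by
    refine filter_false_of_mem fun n _ => ?_
    push Not
    have h2 := hi (n % q) (Nat.mod_lt n hq)
    rw [← hper n, hz] at h2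
    exact h2
  rw [h1]
  simp only [card_empty, Nat.cast_zero]
  positivity

end H41.RM
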