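import Pool.Agent.H41.RM.Moment
import Pool.Agent.H41.RM.Rich

/-! # Almost sure convergence of the exponential sums of random multiples -/

set_option autoImplicit false
set_option linter.unusedSectionVars false

open Finset Filter Topology MeasureTheory ProbabilityTheory

namespace H41.RM

open H41.SW

lemma interp (z : ℕ → ℂ) (hz : ∀ n, ‖z n‖ ≤ 1)
    (h : Tendsto (fun i : ℕ => (∑ n ∈ range (i ^ 4), z n) / (i : ℂ) ^ 4) atTop (𝓝 0)) :
    Tendsto (avg z) atTop (𝓝 0) := by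
  obtain ⟨r, hr⟩ : ∃ r : ℕ → ℕ, r = fun N => Nat.sqrt (Nat.sqrt N) := ⟨_, rfl⟩
  have hr1 : ∀ N, r N ^ 4 ≤ N := by
    intro N
    rw [hr]
    calc Nat.sqrt (Nat.sqrt N) ^ 4 = (Nat.sqrt (Nat.sqrt N) ^ 2) ^ 2 := by ring
      _ ≤ (Nat.sqrt N) ^ 2 := Nat.pow_le_pow_left (Nat.sqrt_le' _) 2
      _ ≤ N := Nat.sqrt_le' _
  have hr2 : ∀ N, N < (r N + 1) ^ 4 := by
    intro N
    rw [hr]
    calc N < (Nat.sqrt N + 1) ^ 2 := Nat.lt_succ_sqrt' _
      _ ≤ ((Nat.sqrt (Nat.sqrt N) + 1) ^ 2) ^ 2 := Nat.pow_le_pow_left (Nat.lt_succ_sqrt' _) 2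
      _ = _ := by ring
  have hrt : Tendsto r atTop atTop := by
    rw [tendsto_atTop]
    intro m
    filter_upwards [eventually_ge_atTop ((m + 1) ^ 4)] with N hN
    by_contra hcon
    push Not at hcon
    have h1 := hr2 N
    have h2 : (r N + 1) ^ 4 ≤ (m + 1) ^ 4 := Nat.pow_le_pow_left (by omega) 4
    omega
  have h1 := h.comp hrt
  rw [tendsto_zero_iff_norm_tendsto_zero] at h1 ⊢
  have h2 : Tendsto (fun N : ℕ => 15 / ((r N : ℕ) : ℝ)) atTop (𝓝 0) :=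
    tendsto_const_nhds.div_atTop (tendsto_natCast_atTop_atTop.comp hrt)
  have h3 := h1.add h2
  rw [add_zero] at h3
  refine squeeze_zero' (Eventually.of_forall fun _ => norm_nonneg _) ?_ h3
  filter_upwards [hrt.eventually_ge_atTop 1] with N hN
  obtain ⟨i, hi⟩ : ∃ i, i = r N := ⟨_, rfl⟩
  have e1 := hr1 N
  have e2 := hr2 N
  rw [← hi] at e1 e2 hN
  have hi0 : (0 : ℝ) < i := by exact_mod_cast hN
  have hN0 : 0 < N := lt_of_lt_of_le (by positivity) e1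
  have hNr : (0 : ℝ) < N := by exact_mod_cast hN0
  have e1r : (i : ℝ) ^ 4 ≤ N := by exact_mod_cast e1
  simp only [Function.comp]
  rw [← hi]
  unfold avg
  rw [norm_div, norm_div, norm_pow, Complex.norm_natCast, Complex.norm_natCast]
  have e3 : ‖∑ n ∈ range N, z n‖ ≤ ‖∑ n ∈ range (i ^ 4), z n‖ + 15 * (i : ℝ) ^ 3 := by
    have e4 : ∑ n ∈ range N, z n = ∑ n ∈ range (i ^ 4), z n + ∑ n ∈ Ico (i ^ 4) N, z n :=
      (Finset.sum_range_add_sum_Ico _ e1).symm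
    rw [e4]
    refine (norm_add_le _ _).trans ?_
    have e5 : ‖∑ n ∈ Ico (i ^ 4) N, z n‖ ≤ 15 * (i : ℝ) ^ 3 := by
      refine (norm_sum_le _ _).trans ?_
      refine (sum_le_sum fun n _ => hz n).trans ?_
      rw [sum_const, Nat.card_Ico, nsmul_eq_mul, mul_one]
      have e6 : N - i ^ 4 ≤ 15 * i ^ 3 := by
        have e7 : (i + 1) ^ 4 = i ^ 4 + 4 * i ^ 3 + 6 * i ^ 2 + 4 * i + 1 := by ring
        have e8 : i ^ 2 ≤ i ^ 3 := Nat.pow_le_pow_right hN (by norm_num)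
        have e9 : i ≤ i ^ 3 := Nat.le_self_pow (by norm_num) i
        have e10 : 1 ≤ i ^ 3 := Nat.one_le_pow _ _ hN
        omega
      exact_mod_cast e6
    linarith
  calc ‖∑ n ∈ range N, z n‖ / (N : ℝ) ≤ (‖∑ n ∈ range (i ^ 4), z n‖ + 15 * (i : ℝ) ^ 3) / (i : ℝ) ^ 4 := by
        gcongr
    _ = _ := by
        rw [add_div]
        congr 1
        field_simp

section

variable {Ω : Type*} [MeasurableSpace Ω] (μ : Measure Ω) [IsProbabilityMeasure μ]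
  (ξ : ℕ → Ω → ℝ)

lemma e_sum {ι : Type*} (S : Finset ι) (f : ι → ℝ) : e (∑ j ∈ S, f j) = ∏ j ∈ S, e (f j) := by
  classical
  induction S using Finset.induction_on with
  | empty => simp [e_zero]
  | insert j S hj ih => rw [sum_insert hj, prod_insert hj, e_add, ih]

lemma ph_bound (hm : ∀ j, Measurable (ξ j)) (hind : iIndepFun ξ μ) (v : ℕ → ℝ)
    (hchar : ∀ j t, ‖∫ ω, e (t * ξ j ω) ∂μ‖ ≤ Real.exp (-(v j * nn t ^ 2)))
    (c : ℕ → ℝ) (a : ℝ) (lo hi : ℕ) :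
    ‖ph μ ξ c a lo hi‖ ≤ Real.exp (-∑ j ∈ Ico lo hi, v j * nn (a * c j) ^ 2) := by
  have h1 : ph μ ξ c a lo hi = ∏ j : ↥(Ico lo hi), ∫ ω, e (a * c j * ξ j ω) ∂μ := by
    have h2 := (hind.precomp (g := fun j : ↥(Ico lo hi) => (j : ℕ)) Subtype.val_injective)
    have h3 := iIndepFun.integral_fun_prod_comp (X := fun (j : ↥(Ico lo hi)) => ξ (j : ℕ))
      (f := fun (j : ↥(Ico lo hi)) (t : ℝ) => e (a * c (j : ℕ) * t)) h2 (fun j => (hm j).aemeasurable)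
      (fun j => (cont_e.measurable.comp (measurable_id.const_mul _)).aestronglyMeasurable)
    rw [← h3]
    unfold ph
    refine integral_congr_ae (Eventually.of_forall fun ω => ?_)
    simp only
    rw [← e_sum]
    congr 1
    unfold part
    rw [mul_sum, ← Finset.sum_coe_sort (Ico lo hi)]
    refine sum_congr rfl fun j _ => ?_
    ring
  rw [h1, norm_prod]
  calc ∏ j : ↥(Ico lo hi), ‖∫ ω, e (a * c j * ξ j ω) ∂μ‖
      ≤ ∏ j : ↥(Ico lo hi), Real.exp (-(v j * nn (a * c j) ^ 2)) :=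
        prod_le_prod (fun _ _ => norm_nonneg _) fun j _ => hchar j _
    _ = Real.exp (∑ j : ↥(Ico lo hi), -(v j * nn (a * c j) ^ 2)) := (Real.exp_sum _ _).symm
    _ = _ := by
        congr 1
        rw [← sum_neg_distrib, ← Finset.sum_coe_sort (Ico lo hi)]

end

/-! ## Growth of the position of the leading digit -/

lemma pow_le_pow_base (b β : ℕ) (hb : 2 ≤ b) (hβ : 2 ≤ β) (t : ℕ) :
    (b : ℝ) ^ t ≤ (β : ℝ) ^ (b * t) := by
  rw [pow_mul]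
  have h1 : b ≤ β ^ b := by
    calc b ≤ 2 ^ b := (Nat.lt_two_pow_self).le
      _ ≤ β ^ b := Nat.pow_le_pow_left hβ b
  have h2 : (b : ℝ) ≤ (β : ℝ) ^ b := by exact_mod_cast h1
  gcongr

lemma J_lower (b β : ℕ) (hb : 2 ≤ b) (hβ : 2 ≤ β) (w0 : ℝ) (hw0 : 1 ≤ w0) (m n t : ℕ)
    (h : m + b * t ≤ n) : J b ((β : ℝ) ^ m * w0) + t ≤ J b ((β : ℝ) ^ n * w0) := by
  have hβ1 : (1 : ℝ) ≤ β := by exact_mod_cast (by omega : 1 ≤ β)
  have hb1 : (1 : ℝ) < b := by exact_mod_cast (by omega : 1 < b)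
  have hw : ∀ n : ℕ, 1 ≤ (β : ℝ) ^ n * w0 := fun n =>
    one_le_mul_of_one_le_of_one_le (one_le_pow₀ hβ1) hw0
  obtain ⟨a1, _⟩ := J_spec b hb _ (hw m)
  obtain ⟨_, a4⟩ := J_spec b hb _ (hw n)
  have h1 : (b : ℝ) ^ (J b ((β : ℝ) ^ m * w0) + t) < (b : ℝ) ^ (J b ((β : ℝ) ^ n * w0) + 1) := by
    calc (b : ℝ) ^ (J b ((β : ℝ) ^ m * w0) + t) = (b : ℝ) ^ J b ((β : ℝ) ^ m * w0) * (b : ℝ) ^ t := pow_add _ _ _
      _ ≤ ((β : ℝ) ^ m * w0) * (β : ℝ) ^ (b * t) :=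
          mul_le_mul a1 (pow_le_pow_base b β hb hβ t) (by positivity) (by linarith [hw m])
      _ = (β : ℝ) ^ (m + b * t) * w0 := by ring
      _ ≤ (β : ℝ) ^ n * w0 := by gcongr
      _ < _ := a4
  rw [pow_lt_pow_iff_right₀ hb1] at h1
  omega

lemma J_upper (b β : ℕ) (hb : 2 ≤ b) (hβ : 2 ≤ β) (w0 : ℝ) (hw0 : 1 ≤ w0) :
    ∃ g : ℕ, ∀ n, J b ((β : ℝ) ^ n * w0) ≤ β * n + g := by
  have hβ1 : (1 : ℝ) ≤ β := by exact_mod_cast (by omega : 1 ≤ β)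
  have hb1 : (1 : ℝ) < b := by exact_mod_cast (by omega : 1 < b)
  obtain ⟨g, hg⟩ := pow_unbounded_of_one_lt w0 hb1
  refine ⟨g, fun n => ?_⟩
  have hw : 1 ≤ (β : ℝ) ^ n * w0 := one_le_mul_of_one_le_of_one_le (one_le_pow₀ hβ1) hw0
  obtain ⟨a1, _⟩ := J_spec b hb _ hw
  have h1 : (b : ℝ) ^ J b ((β : ℝ) ^ n * w0) < (b : ℝ) ^ (β * n + g) := by
    calc (b : ℝ) ^ J b ((β : ℝ) ^ n * w0) ≤ (β : ℝ) ^ n * w0 := a1
      _ < (β : ℝ) ^ n * (b : ℝ) ^ g := by gcongr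
      _ ≤ ((b : ℝ) ^ β) ^ n * (b : ℝ) ^ g := by
          gcongr
          have h3 : β < b ^ β := Nat.lt_pow_self (by omega)
          exact_mod_cast h3.le
      _ = _ := by rw [← pow_mul, pow_add]
  rw [pow_lt_pow_iff_right₀ hb1] at h1
  exact h1.le

end H41.RM
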