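import Pool.Agent.H41.SW.B

/-! # Martingale-type decomposition and second moments -/

set_option autoImplicit false
set_option linter.unusedSectionVars false

open Finset Filter Topology MeasureTheory ProbabilityTheory

namespace H41.RM

open H41.SW

lemma cont_e : Continuous e := by
  unfold e
  fun_prop

lemma e_zero : e 0 = 1 := by simp [e]

lemma e_sub_le (s t : ℝ) : ‖e s - e t‖ ≤ 2 * Real.pi * |s - t| := by
  have h1 : e s - e t = e t * (e (s - t) - 1) := by
    rw [mul_sub, ← e_add, mul_one]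
    congr 2
    ring
  rw [h1, norm_mul, e_norm, one_mul]
  have h2 : e (s - t) = Complex.exp (Complex.I * ((2 * Real.pi * (s - t) : ℝ) : ℂ)) := by
    unfold e
    rw [mul_comm]
  rw [h2]
  refine (Real.norm_exp_I_mul_ofReal_sub_one_le).trans (le_of_eq ?_)
  rw [Real.norm_eq_abs, abs_mul, abs_of_pos (by positivity)]

variable {Ω : Type*} [MeasurableSpace Ω] (μ : Measure Ω) [IsProbabilityMeasure μ]
  (ξ : ℕ → Ω → ℝ)

/-- the sum over a set of indices -/
noncomputable def part (c : ℕ → ℝ) (S : Finset ℕ) (ω : Ω) : ℝ := ∑ j ∈ S, c j * ξ j ω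

lemma meas_part (hm : ∀ j, Measurable (ξ j)) (c : ℕ → ℝ) (S : Finset ℕ) :
    Measurable (part ξ c S) := by
  unfold part
  exact Finset.measurable_fun_sum _ fun j _ => (hm j).const_mul _

lemma meas_e_part (hm : ∀ j, Measurable (ξ j)) (c : ℕ → ℝ) (S : Finset ℕ) (a y : ℝ) :
    Measurable fun ω => e (a * (y + part ξ c S ω)) :=
  cont_e.measurable.comp (((meas_part ξ hm c S).const_add y).const_mul a)

lemma meas_e_part' (hm : ∀ j, Measurable (ξ j)) (c : ℕ → ℝ) (S : Finset ℕ) (a : ℝ) :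
    Measurable fun ω => e (a * part ξ c S ω) :=
  cont_e.measurable.comp ((meas_part ξ hm c S).const_mul a)

/-- the mean of the block factor -/
noncomputable def ph (c : ℕ → ℝ) (a : ℝ) (lo hi : ℕ) : ℂ := ∫ ω, e (a * part ξ c (Ico lo hi) ω) ∂μ

/-- the centred term -/
noncomputable def DD (c : ℕ → ℝ) (a y : ℝ) (lo hi : ℕ) (ω : Ω) : ℂ :=
  e (a * (y + part ξ c (range lo) ω)) * (e (a * part ξ c (Ico lo hi) ω) - ph μ ξ c a lo hi)

lemma norm_ph (c : ℕ → ℝ) (a : ℝ) (lo hi : ℕ) : ‖ph μ ξ c a lo hi‖ ≤ 1 := by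
  unfold ph
  refine (norm_integral_le_integral_norm _).trans ?_
  simp only [e_norm]
  simp

lemma norm_DD (c : ℕ → ℝ) (a y : ℝ) (lo hi : ℕ) (ω : Ω) : ‖DD μ ξ c a y lo hi ω‖ ≤ 2 := by
  unfold DD
  rw [norm_mul, e_norm, one_mul]
  refine (norm_sub_le _ _).trans ?_
  rw [e_norm]
  have := norm_ph μ ξ c a lo hi
  linarith

lemma meas_DD (hm : ∀ j, Measurable (ξ j)) (c : ℕ → ℝ) (a y : ℝ) (lo hi : ℕ) :
    Measurable (DD μ ξ c a y lo hi) := by
  unfold DD
  exact (meas_e_part ξ hm c _ a y).mul ((meas_e_part' ξ hm c _ a).sub_const _)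

lemma integ (f : Ω → ℂ) (hf : Measurable f) (C : ℝ) (h : ∀ ω, ‖f ω‖ ≤ C) : Integrable f μ :=
  Integrable.of_bound hf.aestronglyMeasurable C (Eventually.of_forall h)

theorem orth (hm : ∀ j, Measurable (ξ j)) (hind : iIndepFun ξ μ) (c : ℕ → ℝ) (a a' y : ℝ)
    (lo hi lo' hi' : ℕ) (h : hi' ≤ lo) (h' : lo' ≤ hi') :
    ∫ ω, DD μ ξ c a y lo hi ω * (starRingEnd ℂ) (DD μ ξ c a' y lo' hi' ω) ∂μ = 0 := by
  classical
  have hdis : Disjoint (range lo) (Ico lo hi) := by
    rw [Finset.disjoint_left]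
    intro j hj hj'
    rw [mem_range] at hj
    rw [mem_Ico] at hj'
    omega
  have hI := hind.indepFun_finset (range lo) (Ico lo hi) hdis hm
  obtain ⟨p, hp⟩ : ∃ p : (↥(range lo) → ℝ) → ℂ, p = fun φ =>
      e (a * (y + ∑ i : ↥(range lo), c i * φ i)) * (starRingEnd ℂ)
        (e (a' * (y + ∑ i : ↥(range lo), if (i : ℕ) < lo' then c i * φ i else 0)) *
          (e (a' * ∑ i : ↥(range lo), if lo' ≤ (i : ℕ) ∧ (i : ℕ) < hi' then c i * φ i else 0) -
            ph μ ξ c a' lo' hi')) := ⟨_, rfl⟩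
  obtain ⟨q, hq⟩ : ∃ q : (↥(Ico lo hi) → ℝ) → ℂ, q = fun φ =>
      e (a * ∑ i : ↥(Ico lo hi), c i * φ i) - ph μ ξ c a lo hi := ⟨_, rfl⟩
  have hce := cont_e
  have hpm : Continuous p := by
    rw [hp]
    have h1 : ∀ P : ↥(range lo) → Prop, ∀ _ : DecidablePred P,
        Continuous fun φ : ↥(range lo) → ℝ => ∑ i, if P i then c i * φ i else 0 := by
      intro P _
      refine continuous_finsetSum _ fun i _ => ?_
      by_cases hi : P i
      · simp only [hi, if_true]
        fun_prop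
      · simp only [hi, if_false]
        exact continuous_const
    have h2 := h1 (fun i => (i : ℕ) < lo') inferInstance
    have h3 := h1 (fun i => lo' ≤ (i : ℕ) ∧ (i : ℕ) < hi') inferInstance
    have h4 : Continuous fun z : ℂ => (starRingEnd ℂ) z := continuous_star
    refine Continuous.mul (hce.comp (by fun_prop)) (h4.comp ?_)
    exact Continuous.mul (hce.comp (continuous_const.mul (continuous_const.add h2)))
      ((hce.comp (continuous_const.mul h3)).sub continuous_const)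
  have hqm : Continuous q := by
    rw [hq]
    fun_prop
  have key := hI.integral_fun_comp_mul_comp (f := p) (g := q)
    (measurable_pi_lambda (fun (a : Ω) (i : ↥(range lo)) => ξ i a) fun i => hm i).aemeasurable
    (measurable_pi_lambda (fun (a : Ω) (i : ↥(Ico lo hi)) => ξ i a) fun i => hm i).aemeasurable
    hpm.measurable.aestronglyMeasurable hqm.measurable.aestronglyMeasurable
  have h1 : ∀ ω, p (fun i : ↥(range lo) => ξ i ω) * q (fun i : ↥(Ico lo hi) => ξ i ω) =
      DD μ ξ c a y lo hi ω * (starRingEnd ℂ) (DD μ ξ c a' y lo' hi' ω) := by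
    intro ω
    have e1 : ∑ i : ↥(range lo), c i * ξ i ω = part ξ c (range lo) ω :=
      Finset.sum_coe_sort (range lo) (fun j => c j * ξ j ω)
    have e2 : ∑ i : ↥(Ico lo hi), c i * ξ i ω = part ξ c (Ico lo hi) ω :=
      Finset.sum_coe_sort (Ico lo hi) (fun j => c j * ξ j ω)
    have e3 : (∑ i : ↥(range lo), if (i : ℕ) < lo' then c i * ξ i ω else 0) =
        part ξ c (range lo') ω := by
      rw [Finset.sum_coe_sort (range lo) (fun j => if j < lo' then c j * ξ j ω else 0), ← sum_filter]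
      unfold part
      refine sum_congr ?_ fun _ _ => rfl
      ext j
      simp only [mem_filter, mem_range]
      omega
    have e4 : (∑ i : ↥(range lo), if lo' ≤ (i : ℕ) ∧ (i : ℕ) < hi' then c i * ξ i ω else 0) =
        part ξ c (Ico lo' hi') ω := by
      rw [Finset.sum_coe_sort (range lo) (fun j => if lo' ≤ j ∧ j < hi' then c j * ξ j ω else 0),
        ← sum_filter]
      unfold part
      refine sum_congr ?_ fun _ _ => rfl
      ext j
      simp only [mem_filter, mem_range, mem_Ico]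
      omega
    rw [hp, hq]
    simp only
    rw [e1, e2, e3, e4]
    unfold DD
    ring
  have h2 : ∫ ω, q (fun i : ↥(Ico lo hi) => ξ i ω) ∂μ = 0 := by
    have e1 : ∀ ω, q (fun i : ↥(Ico lo hi) => ξ i ω) =
        e (a * part ξ c (Ico lo hi) ω) - ph μ ξ c a lo hi := by
      intro ω
      rw [hq]
      simp only
      rw [Finset.sum_coe_sort (Ico lo hi) (fun j => c j * ξ j ω)]
      rfl
    simp_rw [e1]
    rw [integral_sub (integ μ _ (meas_e_part' ξ hm c _ a) 1 fun ω => (e_norm _).le) (integrable_const _)]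
    rw [integral_const]
    simp [ph]
  rw [h2, mul_zero] at key
  rw [← key]
  exact integral_congr_ae (Eventually.of_forall fun ω => (h1 ω).symm)

lemma near_count (N Q n : ℕ) : #((range N).filter fun m => n < m + Q ∧ m < n + Q) ≤ 2 * Q := by
  have h1 : ((range N).filter fun m => n < m + Q ∧ m < n + Q) ⊆ Finset.Ico (n + 1 - Q) (n + Q) := by
    intro m hm
    rw [mem_filter] at hm
    rw [mem_Ico]
    omega
  have h2 := card_le_card h1
  rw [Nat.card_Ico] at h2
  omega

theorem second (hm : ∀ j, Measurable (ξ j)) (hind : iIndepFun ξ μ) (c : ℕ → ℝ) (y : ℝ) (a : ℕ → ℝ)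
    (lo hi : ℕ → ℕ) (N Q : ℕ) (h : ∀ m n, m + Q ≤ n → hi m ≤ lo n) (h' : ∀ n, lo n ≤ hi n) :
    ∫ ω, ‖∑ n ∈ range N, DD μ ξ c (a n) y (lo n) (hi n) ω‖ ^ 2 ∂μ ≤ 8 * Q * N := by
  classical
  obtain ⟨D, hD⟩ : ∃ D : ℕ → Ω → ℂ, D = fun n => DD μ ξ c (a n) y (lo n) (hi n) := ⟨_, rfl⟩
  have hDm : ∀ n, Measurable (D n) := fun n => by rw [hD]; exact meas_DD μ ξ hm c _ _ _ _
  have hDn : ∀ n ω, ‖D n ω‖ ≤ 2 := fun n ω => by rw [hD]; exact norm_DD μ ξ c _ _ _ _ ω
  have hcs : Continuous fun z : ℂ => (starRingEnd ℂ) z := continuous_star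
  have hpm : ∀ n m, Measurable fun ω => D n ω * (starRingEnd ℂ) (D m ω) := fun n m =>
    (hDm n).mul (hcs.measurable.comp (hDm m))
  have hpn : ∀ n m ω, ‖D n ω * (starRingEnd ℂ) (D m ω)‖ ≤ 4 := by
    intro n m ω
    rw [norm_mul, RCLike.norm_conj]
    nlinarith [hDn n ω, hDn m ω, norm_nonneg (D n ω), norm_nonneg (D m ω)]
  have h1 : ((∫ ω, ‖∑ n ∈ range N, D n ω‖ ^ 2 ∂μ : ℝ) : ℂ) =
      ∑ n ∈ range N, ∑ m ∈ range N, ∫ ω, D n ω * (starRingEnd ℂ) (D m ω) ∂μ := by
    rw [← integral_complex_ofReal]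
    have e1 : ∀ ω, (((‖∑ n ∈ range N, D n ω‖ ^ 2 : ℝ)) : ℂ) =
        ∑ n ∈ range N, ∑ m ∈ range N, D n ω * (starRingEnd ℂ) (D m ω) := by
      intro ω
      have e2 := Complex.mul_conj' (∑ n ∈ range N, D n ω)
      rw [map_sum, sum_mul_sum] at e2
      rw [e2]
      push_cast
      rfl
    simp_rw [e1]
    rw [integral_finsetSum]
    · refine sum_congr rfl fun n _ => ?_
      rw [integral_finsetSum]
      intro m _
      exact integ μ _ (hpm n m) 4 (hpn n m)
    · intro n _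
      exact integrable_finsetSum _ fun m _ => integ μ _ (hpm n m) 4 (hpn n m)
  have h2 : ∀ n m, ‖∫ ω, D n ω * (starRingEnd ℂ) (D m ω) ∂μ‖ ≤
      if n < m + Q ∧ m < n + Q then 4 else 0 := by
    intro n m
    by_cases hc : n < m + Q ∧ m < n + Q
    · rw [if_pos hc]
      refine (norm_integral_le_integral_norm _).trans ?_
      refine (integral_mono_of_nonneg (Eventually.of_forall fun ω => norm_nonneg _)
        (integrable_const (4 : ℝ)) (Eventually.of_forall fun ω => hpn n m ω)).trans ?_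
      simp
    · rw [if_neg hc]
      have h3 : m + Q ≤ n ∨ n + Q ≤ m := by omega
      rcases h3 with h3 | h3
      · rw [hD]
        simp only
        rw [orth μ ξ hm hind c (a n) (a m) y _ _ _ _ (h m n h3) (h' m), norm_zero]
      · have e3 : ∫ ω, D n ω * (starRingEnd ℂ) (D m ω) ∂μ =
            (starRingEnd ℂ) (∫ ω, D m ω * (starRingEnd ℂ) (D n ω) ∂μ) := by
          rw [← integral_conj]
          refine integral_congr_ae (Eventually.of_forall fun ω => ?_)
          simp only [map_mul, Complex.conj_conj]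
          ring
        rw [e3, hD]
        simp only
        rw [orth μ ξ hm hind c (a m) (a n) y _ _ _ _ (h n m h3) (h' n), map_zero, norm_zero]
  have h3 : ∫ ω, ‖∑ n ∈ range N, D n ω‖ ^ 2 ∂μ ≤
      ∑ n ∈ range N, ∑ m ∈ range N, if n < m + Q ∧ m < n + Q then (4 : ℝ) else 0 := by
    have e1 : ‖((∫ ω, ‖∑ n ∈ range N, D n ω‖ ^ 2 ∂μ : ℝ) : ℂ)‖ =
        ∫ ω, ‖∑ n ∈ range N, D n ω‖ ^ 2 ∂μ := by
      rw [Complex.norm_real, Real.norm_of_nonneg]
      exact integral_nonneg fun ω => by positivity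
    rw [← e1, h1]
    refine (norm_sum_le _ _).trans (sum_le_sum fun n _ => ?_)
    exact (norm_sum_le _ _).trans (sum_le_sum fun m _ => h2 n m)
  have h4 : ∑ n ∈ range N, ∑ m ∈ range N, (if n < m + Q ∧ m < n + Q then (4 : ℝ) else 0) ≤ 8 * Q * N := by
    calc ∑ n ∈ range N, ∑ m ∈ range N, (if n < m + Q ∧ m < n + Q then (4 : ℝ) else 0)
        ≤ ∑ n ∈ range N, 8 * (Q : ℝ) := by
          refine sum_le_sum fun n _ => ?_
          rw [← sum_filter, sum_const, nsmul_eq_mul]
          have h5 : (#((range N).filter fun m => n < m + Q ∧ m < n + Q) : ℝ) ≤ 2 * Q := by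
            exact_mod_cast near_count N Q n
          linarith
      _ = 8 * Q * N := by rw [sum_const, card_range, nsmul_eq_mul]; ring
  rw [hD] at h3
  exact h3.trans h4

theorem ae_small (f : ℕ → Ω → ℝ) (hf : ∀ i, Measurable (f i)) (h0 : ∀ i ω, 0 ≤ f i ω)
    (hint : ∀ i, Integrable (f i) μ) (c : ℕ → ℝ) (hc : Summable c) (h : ∀ i, ∫ ω, f i ω ∂μ ≤ c i) :
    ∀ᵐ ω ∂μ, Tendsto (fun i => f i ω) atTop (𝓝 0) := by
  have hc0 : ∀ i, 0 ≤ c i := fun i => (integral_nonneg (h0 i)).trans (h i)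
  have h1 : ∫⁻ ω, ∑' i, ENNReal.ofReal (f i ω) ∂μ ≠ ⊤ := by
    rw [lintegral_tsum fun i => (hf i).ennreal_ofReal.aemeasurable]
    have h2 : ∑' i, ∫⁻ ω, ENNReal.ofReal (f i ω) ∂μ ≤ ∑' i, ENNReal.ofReal (c i) := by
      refine ENNReal.tsum_le_tsum fun i => ?_
      rw [← ofReal_integral_eq_lintegral_ofReal (hint i) (Eventually.of_forall (h0 i))]
      exact ENNReal.ofReal_le_ofReal (h i)
    refine ne_top_of_le_ne_top ?_ h2
    rw [← ENNReal.ofReal_tsum_of_nonneg hc0 hc]
    exact ENNReal.ofReal_ne_top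
  have h2 := ae_lt_top (Measurable.tsum fun i => (hf i).ennreal_ofReal) h1
  filter_upwards [h2] with ω hω
  have h3 := ENNReal.tendsto_atTop_zero_of_tsum_ne_top hω.ne
  have h4 := (ENNReal.tendsto_toReal ENNReal.zero_ne_top).comp h3
  simp only [ENNReal.toReal_zero] at h4
  refine h4.congr fun i => ?_
  simp only [Function.comp]
  exact ENNReal.toReal_ofReal (h0 i ω)

end H41.RM
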