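import Mathlib

/-! # The distance to the nearest integer along powers of `b`, and long stretches of small values -/

set_option autoImplicit false

open Finset Filter Topology

namespace H41.RM

/-- the distance to the nearest integer -/
noncomputable def nn (t : ℝ) : ℝ := |t - round t|

lemma nn_nonneg (t : ℝ) : 0 ≤ nn t := abs_nonneg _

lemma nn_le_half (t : ℝ) : nn t ≤ 1 / 2 := abs_sub_round t

lemma nn_le (t : ℝ) (m : ℤ) : nn t ≤ |t - m| := round_le t m

lemma nn_neg (t : ℝ) : nn (-t) = nn t := by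
  apply le_antisymm
  · have := nn_le (-t) (-round t)
    push_cast at this
    rw [show -t - -(round t : ℝ) = -(t - round t) by ring, abs_neg] at this
    exact this
  · have := nn_le t (-round (-t))
    push_cast at this
    rw [show t - -(round (-t) : ℝ) = -(-t - round (-t)) by ring, abs_neg] at this
    exact this

lemma nn_abs (t : ℝ) : nn |t| = nn t := by
  rcases abs_choice t with h | h <;> rw [h]
  exact nn_neg t

lemma nn_step (b : ℕ) (hb : 0 < b) (t : ℝ) (h : nn t < 1 / (2 * b)) :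
    nn (b * t) = b * nn t := by
  have hb' : (0 : ℝ) < b := by exact_mod_cast hb
  have h1 : b * nn t < 1 / 2 := by
    calc (b : ℝ) * nn t < b * (1 / (2 * b)) := by gcongr
      _ = 1 / 2 := by field_simp
  have h2 : |(b : ℝ) * t - ((b * round t : ℤ) : ℝ)| = b * nn t := by
    push_cast
    rw [← mul_sub, abs_mul, abs_of_pos hb']
    rfl
  have h3 : nn (b * t) ≤ b * nn t := by
    rw [← h2]
    exact nn_le _ _
  by_cases h4 : round ((b : ℝ) * t) = b * round t
  · unfold nn at *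
    rw [h4, h2]
  · exfalso
    have h5 : (1 : ℝ) ≤ |((round ((b : ℝ) * t) : ℤ) : ℝ) - ((b * round t : ℤ) : ℝ)| := by
      have h6 : 1 ≤ |round ((b : ℝ) * t) - b * round t| := Int.one_le_abs (sub_ne_zero.2 h4)
      exact_mod_cast h6
    have h7 : |((round ((b : ℝ) * t) : ℤ) : ℝ) - ((b * round t : ℤ) : ℝ)| ≤
        nn (b * t) + b * nn t := by
      rw [← h2]
      unfold nn
      have := abs_sub_le ((round ((b : ℝ) * t) : ℤ) : ℝ) (b * t) ((b * round t : ℤ) : ℝ)
      rw [abs_sub_comm ((round ((b : ℝ) * t) : ℤ) : ℝ) ((b : ℝ) * t)] at this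
      exact this
    linarith

/-- A stretch of small values: the first one is tiny. -/
lemma stretch (b : ℕ) (hb : 0 < b) (u : ℝ) (s t : ℕ) (hst : s ≤ t)
    (h : ∀ l, s ≤ l → l ≤ t → nn (u * (b : ℝ) ^ l) < 1 / (2 * b)) :
    nn (u * (b : ℝ) ^ s) * (b : ℝ) ^ (t - s) = nn (u * (b : ℝ) ^ t) := by
  induction t, hst using Nat.le_induction with
  | base => simp
  | succ t hst ih =>
    have h1 := ih fun l h1 h2 => h l h1 (by omega)
    have h2 := nn_step b hb _ (h t hst (by omega))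
    rw [show (b : ℝ) * (u * (b : ℝ) ^ t) = u * (b : ℝ) ^ (t + 1) by ring, ← h1] at h2
    rw [h2, show t + 1 - s = (t - s) + 1 by omega]
    ring

/-- The scale `s` is empty: no large value with index in `[R ^ s, R ^ (s + 1))`. -/
def Bad (b R : ℕ) (u : ℝ) (s : ℕ) : Prop :=
  ∀ l, R ^ s ≤ l → l < R ^ (s + 1) → nn (u * (b : ℝ) ^ l) < 1 / (2 * b)

lemma bad_small (b R : ℕ) (hb : 0 < b) (hR : 2 ≤ R) (u : ℝ) (s : ℕ) (h : Bad b R u s) :
    nn (u * (b : ℝ) ^ (R ^ s)) * (b : ℝ) ^ ((R - 1) * R ^ s) < 1 / 2 := by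
  have hb' : (0 : ℝ) < b := by exact_mod_cast hb
  have hRs : 0 < R ^ s := by positivity
  have e1 : R ^ (s + 1) = R * R ^ s := by ring
  have e2 : R * R ^ s = (R - 1) * R ^ s + R ^ s := by
    obtain ⟨r, rfl⟩ : ∃ r, R = r + 1 := ⟨R - 1, by omega⟩
    simp only [Nat.add_sub_cancel]
    ring
  have e3 : 0 < (R - 1) * R ^ s := by
    have : 0 < R - 1 := by omega
    positivity
  have h1 := stretch b hb u (R ^ s) (R ^ (s + 1) - 1) (by omega) fun l h1 h2 =>
    h l h1 (by omega)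
  have h2 := h (R ^ (s + 1) - 1) (by omega) (by omega)
  rw [← h1, show R ^ (s + 1) - 1 - R ^ s = (R - 1) * R ^ s - 1 by omega, lt_div_iff₀ (by positivity)] at h2
  have h3 : (b : ℝ) ^ ((R - 1) * R ^ s) = (b : ℝ) ^ ((R - 1) * R ^ s - 1) * b := by
    rw [← pow_succ]
    congr 1
    omega
  rw [h3]
  linarith

/-- the energy -/
noncomputable def T (b : ℕ) (u : ℝ) (K : ℕ) : ℝ := ∑ l ∈ range K, nn (u * (b : ℝ) ^ l) ^ 2

lemma T_nonneg (b : ℕ) (u : ℝ) (K : ℕ) : 0 ≤ T b u K := sum_nonneg fun _ _ => sq_nonneg _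

open Classical in
lemma T_ge (b R : ℕ) (hb : 0 < b) (hR : 2 ≤ R) (u : ℝ) (I K : ℕ) (hK : R ^ I ≤ K) :
    (#((range I).filter fun s => ¬ Bad b R u s) : ℝ) / (4 * b ^ 2) ≤ T b u K := by
  have hb' : (0 : ℝ) < b := by exact_mod_cast hb
  have h1 : ∀ s : ℕ, ∃ l : ℕ, ¬ Bad b R u s → R ^ s ≤ l ∧ l < R ^ (s + 1) ∧
      1 / (2 * b) ≤ nn (u * (b : ℝ) ^ l) := by
    intro s
    by_cases hs : Bad b R u s
    · exact ⟨0, fun h => absurd hs h⟩
    · unfold Bad at hs
      push Not at hs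
      obtain ⟨l, h1, h2, h3⟩ := hs
      exact ⟨l, fun _ => ⟨h1, h2, h3⟩⟩
  choose l hl using h1
  have hinj : Set.InjOn l ((range I).filter fun s => ¬ Bad b R u s) := by
    intro s hs s' hs' hss
    simp only [coe_filter, Set.mem_ofPred_eq] at hs hs'
    obtain ⟨a1, a2, _⟩ := hl s hs.2
    obtain ⟨b1, b2, _⟩ := hl s' hs'.2
    rw [hss] at a1 a2
    have c1 : R ^ s < R ^ (s' + 1) := lt_of_le_of_lt a1 b2
    have c2 : R ^ s' < R ^ (s + 1) := lt_of_le_of_lt b1 a2
    rw [Nat.pow_lt_pow_iff_right (by omega)] at c1 c2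
    omega
  have hsub : ((range I).filter fun s => ¬ Bad b R u s).image l ⊆ range K := by
    intro m hm
    rw [mem_image] at hm
    obtain ⟨s, hs, rfl⟩ := hm
    rw [mem_filter, mem_range] at hs
    have h2 := (hl s hs.2).2.1
    rw [mem_range]
    calc l s < R ^ (s + 1) := h2
      _ ≤ R ^ I := Nat.pow_le_pow_right (by omega) (by omega)
      _ ≤ K := hK
  calc (#((range I).filter fun s => ¬ Bad b R u s) : ℝ) / (4 * b ^ 2)
      = ∑ s ∈ (range I).filter fun s => ¬ Bad b R u s, 1 / (4 * (b : ℝ) ^ 2) := by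
        rw [sum_const, nsmul_eq_mul]
        ring
    _ ≤ ∑ s ∈ (range I).filter fun s => ¬ Bad b R u s, nn (u * (b : ℝ) ^ (l s)) ^ 2 := by
        refine sum_le_sum fun s hs => ?_
        rw [mem_filter] at hs
        have h2 := (hl s hs.2).2.2
        calc 1 / (4 * (b : ℝ) ^ 2) = (1 / (2 * b)) ^ 2 := by ring
          _ ≤ _ := by gcongr
    _ = ∑ m ∈ ((range I).filter fun s => ¬ Bad b R u s).image l, nn (u * (b : ℝ) ^ m) ^ 2 := by
        rw [sum_image]
        exact hinj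
    _ ≤ T b u K := sum_le_sum_of_subset_of_nonneg hsub fun _ _ _ => sq_nonneg _

/-- Irrational numbers that are not Liouville numbers have no empty scale. -/
lemma not_bad (b : ℕ) (hb : 2 ≤ b) (z : ℝ) (hz : Irrational z) (hL : ¬ Liouville z) :
    ∃ R : ℕ, 2 ≤ R ∧ ∀ s, ¬ Bad b R z s := by
  unfold Liouville at hL
  push Not at hL
  obtain ⟨μ, hμ⟩ := hL
  refine ⟨max μ 2, le_max_right _ _, ?_⟩
  intro s hs
  obtain ⟨R, hR⟩ : ∃ R, R = max μ 2 := ⟨_, rfl⟩
  rw [← hR] at hs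
  have hR2 : 2 ≤ R := by rw [hR]; exact le_max_right _ _
  have hRμ : μ ≤ R := by rw [hR]; exact le_max_left _ _
  have h1 := bad_small b R (by omega) hR2 z s hs
  obtain ⟨l, hl⟩ : ∃ l, l = R ^ s := ⟨_, rfl⟩
  rw [← hl] at h1
  have hl1 : 1 ≤ l := by rw [hl]; exact Nat.one_le_pow _ _ (by omega)
  have hb' : (2 : ℝ) ≤ b := by exact_mod_cast hb
  have hb0 : (0 : ℝ) < b := by linarith
  have hB : (1 : ℤ) < (b : ℤ) ^ l := by
    have : 1 < b ^ l := Nat.one_lt_pow (by omega) (by omega)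
    exact_mod_cast this
  have h2 := hμ (round (z * (b : ℝ) ^ l)) ((b : ℤ) ^ l) hB (by
    intro h
    apply hz
    refine ⟨(round (z * (b : ℝ) ^ l) : ℚ) / ((b : ℤ) ^ l : ℤ), ?_⟩
    push_cast at h ⊢
    exact h.symm)
  push_cast at h2
  have h3 : |z - (round (z * (b : ℝ) ^ l) : ℝ) / (b : ℝ) ^ l| * (b : ℝ) ^ l = nn (z * (b : ℝ) ^ l) := by
    unfold nn
    rw [← abs_of_pos (show (0 : ℝ) < (b : ℝ) ^ l by positivity), ← abs_mul,
      abs_of_pos (show (0 : ℝ) < (b : ℝ) ^ l by positivity)]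
    congr 1
    field_simp
  rw [← h3] at h1
  have h4 : 1 / ((b : ℝ) ^ l) ^ μ * (b : ℝ) ^ l * (b : ℝ) ^ ((R - 1) * l) < 1 / 2 := by
    refine lt_of_le_of_lt ?_ h1
    gcongr
  have h5 : (b : ℝ) ^ l * (b : ℝ) ^ ((R - 1) * l) = ((b : ℝ) ^ l) ^ R := by
    rw [← pow_add, ← pow_mul]
    congr 1
    obtain ⟨r, rfl⟩ : ∃ r, R = r + 1 := ⟨R - 1, by omega⟩
    simp only [Nat.add_sub_cancel]
    ring
  rw [mul_assoc, h5] at h4
  have h6 : (1 : ℝ) ≤ 1 / ((b : ℝ) ^ l) ^ μ * ((b : ℝ) ^ l) ^ R := by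
    rw [one_div, ← div_eq_inv_mul, one_le_div (by positivity)]
    exact pow_le_pow_right₀ (one_le_pow₀ (by linarith)) hRμ
  linarith

lemma log_pow_bound (R : ℕ) (hR : 2 ≤ R) (i : ℕ) (hi : R ≤ i) :
    Real.log i / Real.log R ≤ (Nat.log R (i ^ 2) : ℝ) := by
  have hR' : (1 : ℝ) < R := by exact_mod_cast (by omega : 1 < R)
  have hlR := Real.log_pos hR'
  have hi0 : 0 < i := by omega
  have h1 : i ^ 2 < R ^ (Nat.log R (i ^ 2) + 1) := Nat.lt_pow_succ_log_self (by omega) _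
  have h2 : ((i : ℝ)) ^ 2 ≤ (R : ℝ) ^ (Nat.log R (i ^ 2) + 1) := by exact_mod_cast h1.le
  have h3 := Real.log_le_log (by positivity) h2
  rw [Real.log_pow, Real.log_pow] at h3
  push_cast at h3
  have h4 : Real.log R ≤ Real.log i := Real.log_le_log (by linarith) (by exact_mod_cast hi)
  rw [div_le_iff₀ hlR]
  linarith

/-- The energy of an irrational number that is not a Liouville number grows logarithmically. -/
lemma T_nonliouville (b : ℕ) (hb : 2 ≤ b) (z : ℝ) (hz : Irrational z) (hL : ¬ Liouville z) :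
    ∃ δ : ℝ, 0 < δ ∧ ∀ᶠ i : ℕ in atTop, δ * Real.log i ≤ T b z (i ^ 2) := by
  classical
  obtain ⟨R, hR, hbad⟩ := not_bad b hb z hz hL
  have hR' : (1 : ℝ) < R := by exact_mod_cast (by omega : 1 < R)
  have hlR := Real.log_pos hR'
  have hb0 : (0 : ℝ) < b := by exact_mod_cast (by omega : 0 < b)
  refine ⟨1 / (Real.log R * (4 * b ^ 2)), by positivity, ?_⟩
  filter_upwards [eventually_ge_atTop R] with i hi
  have h1 := T_ge b R (by omega) hR z (Nat.log R (i ^ 2)) (i ^ 2)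
    (Nat.pow_log_le_self R (by have : 0 < i := by omega
                               positivity))
  have h2 : (range (Nat.log R (i ^ 2))).filter (fun s => ¬ Bad b R z s) = range (Nat.log R (i ^ 2)) :=
    filter_true_of_mem fun s _ => hbad s
  rw [h2, card_range] at h1
  refine le_trans ?_ h1
  have h3 := log_pow_bound R hR i hi
  calc 1 / (Real.log R * (4 * (b : ℝ) ^ 2)) * Real.log i
      = (Real.log i / Real.log R) / (4 * (b : ℝ) ^ 2) := by field_simp
    _ ≤ _ := by gcongr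

end H41.RM
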