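import Pool.Agent.H41.RM.Sx
import Pool.Agent.H41.RM.Events

/-! # Multiples that are not normal -/

set_option autoImplicit false
set_option linter.unusedSectionVars false

open Finset Filter Topology MeasureTheory ProbabilityTheory

namespace H41.RM

open H41.SW

lemma sum_j (b : ℕ) (hb : 2 ≤ b) (x : ℝ) (N j : ℕ) :
    ∑ n ∈ range N, nn (x / b * (b : ℝ) ^ n / (b : ℝ) ^ j) ≤ |x| + HH b x N := by
  have hb0 : (0 : ℝ) < b := by exact_mod_cast (by omega : 0 < b)
  have h1 : ∀ n ∈ range N, nn (x / b * (b : ℝ) ^ n / (b : ℝ) ^ j) ≤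
      (if n < j + 1 then |x| * (b : ℝ) ^ n / (b : ℝ) ^ (j + 1) else 0) +
      (if j + 1 ≤ n then nn (x * (b : ℝ) ^ (n - (j + 1))) else 0) := by
    intro n _
    have e1 : x / b * (b : ℝ) ^ n / (b : ℝ) ^ j = x * (b : ℝ) ^ n / (b : ℝ) ^ (j + 1) := by
      rw [pow_succ]
      field_simp
    rw [e1]
    by_cases h : n < j + 1
    · rw [if_pos h, if_neg (by omega), add_zero]
      refine (nn_le_abs' _).trans (le_of_eq ?_)
      rw [abs_div, abs_mul, abs_of_pos (show (0 : ℝ) < (b : ℝ) ^ n by positivity),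
        abs_of_pos (show (0 : ℝ) < (b : ℝ) ^ (j + 1) by positivity)]
    · rw [if_neg h, if_pos (by omega), zero_add]
      have e2 : (b : ℝ) ^ n = (b : ℝ) ^ (n - (j + 1)) * (b : ℝ) ^ (j + 1) := by
        rw [← pow_add]
        congr 1
        omega
      rw [e2, ← mul_assoc, mul_div_cancel_right₀ _ (by positivity)]
  refine (sum_le_sum h1).trans ?_
  rw [sum_add_distrib]
  refine add_le_add ?_ ?_
  · rw [← sum_filter]
    calc ∑ n ∈ (range N).filter (fun n => n < j + 1), |x| * (b : ℝ) ^ n / (b : ℝ) ^ (j + 1)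
        ≤ ∑ n ∈ range (j + 1), |x| * (b : ℝ) ^ n / (b : ℝ) ^ (j + 1) := by
          refine sum_le_sum_of_subset_of_nonneg (fun n hn => ?_) fun n _ _ => by positivity
          rw [mem_filter] at hn
          exact mem_range.2 hn.2
      _ = |x| * (∑ n ∈ range (j + 1), (b : ℝ) ^ n) / (b : ℝ) ^ (j + 1) := by
          rw [mul_sum, sum_div]
      _ ≤ |x| * (b : ℝ) ^ (j + 1) / (b : ℝ) ^ (j + 1) := by
          gcongr
          exact geom_le b hb _
      _ = |x| := by field_simp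
  · rw [← sum_filter]
    unfold HH
    have hinj : Set.InjOn (fun n => n - (j + 1)) ((range N).filter fun n => j + 1 ≤ n) := by
      intro n hn n' hn' h
      simp only [coe_filter, Set.mem_ofPred_eq, mem_range] at hn hn' h
      omega
    rw [← sum_image (f := fun l => nn (x * (b : ℝ) ^ l)) hinj]
    refine sum_le_sum_of_subset_of_nonneg (fun l hl => ?_) fun _ _ _ => nn_nonneg _
    rw [mem_image] at hl
    obtain ⟨n, hn, rfl⟩ := hl
    rw [mem_filter, mem_range] at hn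
    rw [mem_range]
    omega

/-- If the word `01` occurs at the place `n`, the orbit is not near zero. -/
lemma digit_nn (b : ℕ) (hb : 2 ≤ b) (X : ℝ) (n : ℕ) (h0 : digit b X n = 0) (h1 : digit b X (n + 1) = 1) :
    1 / (b : ℝ) ^ 2 ≤ nn (X * (b : ℝ) ^ n) := by
  by_contra hcon
  push Not at hcon
  have hb2 : (2 : ℝ) ≤ b := by exact_mod_cast hb
  have hb0 : (0 : ℝ) < b := by linarith
  obtain ⟨m, hm⟩ : ∃ m : ℤ, m = round (X * (b : ℝ) ^ n) := ⟨_, rfl⟩
  obtain ⟨t, ht⟩ : ∃ t : ℝ, t = X * (b : ℝ) ^ n - m := ⟨_, rfl⟩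
  unfold nn at hcon
  rw [← hm, ← ht, lt_div_iff₀ (by positivity)] at hcon
  have ha : |t * (b : ℝ) ^ 2| < 1 := by
    rw [abs_mul, abs_of_pos (show (0 : ℝ) < (b : ℝ) ^ 2 by positivity)]
    exact hcon
  obtain ⟨a1, a2⟩ := abs_lt.1 ha
  have e1 : X * (b : ℝ) ^ (n + 1) = ((m * b : ℤ) : ℝ) + t * b := by
    push_cast
    rw [pow_succ, ht]
    ring
  have e2 : X * (b : ℝ) ^ (n + 1 + 1) = ((m * b * b : ℤ) : ℝ) + t * (b : ℝ) ^ 2 := by
    push_cast
    rw [pow_succ, pow_succ, ht]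
    ring
  unfold digit at h0 h1
  rw [e1, Int.floor_intCast_add] at h0
  rw [e2, Int.floor_intCast_add] at h1
  by_cases hneg : 0 ≤ t
  · have f2 : ⌊t * (b : ℝ) ^ 2⌋ = 0 := by
      rw [Int.floor_eq_zero_iff]
      exact ⟨by positivity, a2⟩
    rw [f2, add_zero, Int.mul_emod_left] at h1
    omega
  · push Not at hneg
    have f1 : ⌊t * (b : ℝ)⌋ = -1 := by
      rw [Int.floor_eq_iff]
      push_cast
      constructor
      · nlinarith
      · nlinarith
    have f2 : ⌊t * (b : ℝ) ^ 2⌋ = -1 := by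
      rw [Int.floor_eq_iff]
      push_cast
      constructor
      · linarith
      · nlinarith [show (0 : ℝ) < (b : ℝ) ^ 2 by positivity]
    rw [f1] at h0
    rw [add_comm, Int.add_mul_emod_self_right] at h0
    have h3 : (-1 : ℤ) % (b : ℤ) = b - 1 := by
      have h4 : (-1 : ℤ) = (b - 1) + b * (-1) := by ring
      rw [h4, Int.add_mul_emod_self_left]
      exact Int.emod_eq_of_lt (by omega) (by omega)
    rw [h3] at h0
    omega

/-- the mean distance of the orbit to the integers -/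
noncomputable def GG (b : ℕ) (X : ℝ) (N : ℕ) : ℝ := (∑ n ∈ range N, nn (X * (b : ℝ) ^ n)) / N

lemma GG_nonneg (b : ℕ) (X : ℝ) (N : ℕ) : 0 ≤ GG b X N :=
  div_nonneg (sum_nonneg fun _ _ => nn_nonneg _) (Nat.cast_nonneg _)

lemma GG_normal (b : ℕ) (hb : 2 ≤ b) (X : ℝ) (h : Normal b X) :
    ∀ᶠ N : ℕ in atTop, 1 / (2 * (b : ℝ) ^ 4) ≤ GG b X N := by
  classical
  have hb0 : (0 : ℝ) < b := by exact_mod_cast (by omega : 0 < b)
  have h1 := h 2 (by norm_num) ![⟨0, by omega⟩, ⟨1, by omega⟩]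
  have h2 : (1 : ℝ) / (2 * (b : ℝ) ^ 2) < (1 : ℝ) / (b : ℝ) ^ 2 := by
    apply one_div_lt_one_div_of_lt (by positivity)
    nlinarith [show (0 : ℝ) < (b : ℝ) ^ 2 by positivity]
  filter_upwards [h1.eventually (lt_mem_nhds h2), eventually_gt_atTop 0] with N hN hN0
  have hNr : (0 : ℝ) < N := by exact_mod_cast hN0
  unfold GG
  rw [lt_div_iff₀ hNr] at hN
  rw [le_div_iff₀ hNr]
  obtain ⟨F, hF⟩ : ∃ F, F = (Finset.range N).filter
      (fun i : ℕ => ∀ j : Fin 2, digit b X (i + (j : ℕ)) =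
        (((![(⟨0, by omega⟩ : Fin b), ⟨1, by omega⟩] j : ℕ)) : ℤ)) := ⟨_, rfl⟩
  rw [← hF] at hN
  calc 1 / (2 * (b : ℝ) ^ 4) * N = (1 / (2 * (b : ℝ) ^ 2) * N) * (1 / (b : ℝ) ^ 2) := by
        field_simp
    _ ≤ (F.card : ℝ) * (1 / (b : ℝ) ^ 2) := by gcongr
    _ = ∑ n ∈ F, 1 / (b : ℝ) ^ 2 := by rw [sum_const, nsmul_eq_mul]
    _ ≤ ∑ n ∈ F, nn (X * (b : ℝ) ^ n) := by
        refine sum_le_sum fun n hn => ?_
        rw [hF, mem_filter] at hn
        have e1 := hn.2 0
        have e2 := hn.2 1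
        simp at e1 e2
        exact digit_nn b hb X n e1 e2
    _ ≤ _ := by
        refine sum_le_sum_of_subset_of_nonneg (fun n hn => ?_) fun _ _ _ => nn_nonneg _
        rw [hF, mem_filter] at hn
        exact hn.1

variable {Ω : Type*} [MeasurableSpace Ω] (μ : Measure Ω) [IsProbabilityMeasure μ]

lemma meas_CC (A : ℕ → Set Ω) (hA : ∀ j, MeasurableSet (A j)) (b : ℕ) (hb : 2 ≤ b) :
    Measurable (CC (xi A) b) := by
  refine measurable_of_tendsto_metrizable (f := fun (L : ℕ) ω => ∑ j ∈ range L, xi A j ω / (b : ℝ) ^ j)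
    (fun L => ?_) ?_
  · exact Finset.measurable_fun_sum _ fun j _ => (xi_meas A hA j).div_const _
  · rw [tendsto_pi_nhds]
    intro ω
    exact (summ_CC (xi A) b hb (xi_le A) ω).hasSum.tendsto_sum_nat

lemma meas_nn : Measurable nn := by
  unfold nn
  have h1 : Measurable fun t : ℝ => (round t : ℝ) := by
    have h2 : ∀ t : ℝ, (round t : ℝ) = (⌊t + 1 / 2⌋ : ℤ) := fun t => by rw [round_eq]
    simp_rw [h2]
    exact (measurable_of_countable (fun z : ℤ => (z : ℝ))).comp
      (Int.measurable_floor.comp (measurable_id.add_const _))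
  exact (measurable_id.sub h1).abs

lemma nn_X (A : ℕ → Set Ω) (b : ℕ) (hb : 2 ≤ b) (x' : ℝ) (N n : ℕ) (ω : Ω) :
    nn (x' * CC (xi A) b ω * (b : ℝ) ^ n) ≤
      ∑ j ∈ range (2 * N), xi A j ω * nn (x' * (b : ℝ) ^ n / (b : ℝ) ^ j) +
        |x'| * (b : ℝ) ^ n * (2 / (b : ℝ) ^ (2 * N)) := by
  have hb0 : (0 : ℝ) < b := by exact_mod_cast (by omega : 0 < b)
  have e1 : x' * CC (xi A) b ω * (b : ℝ) ^ n = ∑ j ∈ range (2 * N), xi A j ω * (x' * (b : ℝ) ^ n / (b : ℝ) ^ j) +
      x' * (b : ℝ) ^ n * (CC (xi A) b ω - ∑ j ∈ range (2 * N), xi A j ω / (b : ℝ) ^ j) := by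
    have e2 : ∑ j ∈ range (2 * N), xi A j ω * (x' * (b : ℝ) ^ n / (b : ℝ) ^ j) =
        x' * (b : ℝ) ^ n * ∑ j ∈ range (2 * N), xi A j ω / (b : ℝ) ^ j := by
      rw [mul_sum]
      refine sum_congr rfl fun j _ => ?_
      ring
    rw [e2]
    ring
  rw [e1]
  refine (nn_add _ _).trans (add_le_add ?_ ?_)
  · refine (nn_sum _ _).trans (sum_le_sum fun j _ => ?_)
    unfold xi
    by_cases h : ω ∈ A j
    · rw [Set.indicator_of_mem h, one_mul, one_mul]
    · rw [Set.indicator_of_notMem h, zero_mul, zero_mul, nn_zero]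
  · refine (nn_le_abs' _).trans ?_
    rw [abs_mul, abs_mul, abs_of_pos (show (0 : ℝ) < (b : ℝ) ^ n by positivity)]
    gcongr
    exact tail_CC (xi A) b hb (xi_le A) ω (2 * N)

lemma int_GG (A : ℕ → Set Ω) (hA : ∀ j, MeasurableSet (A j)) (b : ℕ) (hb : 2 ≤ b) (x : ℝ) (N : ℕ)
    (hN : 0 < N) :
    ∫ ω, GG b (x / b * CC (xi A) b ω) N ∂μ ≤
      (∑ j ∈ range (2 * N), μ.real (A j)) * (|x| + HH b x N) / N + 2 * |x| / (b : ℝ) ^ N := by
  have hb1 : (1 : ℝ) < b := by exact_mod_cast (by omega : 1 < b)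
  have hb0 : (0 : ℝ) < b := by linarith
  have hNr : (0 : ℝ) < N := by exact_mod_cast hN
  -- pointwise bound
  have h1 : ∀ ω, GG b (x / b * CC (xi A) b ω) N ≤
      (∑ j ∈ range (2 * N), xi A j ω * ∑ n ∈ range N, nn (x / b * (b : ℝ) ^ n / (b : ℝ) ^ j)) / N +
        2 * |x| / (b : ℝ) ^ N := by
    intro ω
    have h2 : ∑ n ∈ range N, nn (x / b * CC (xi A) b ω * (b : ℝ) ^ n) ≤
        ∑ n ∈ range N, (∑ j ∈ range (2 * N), xi A j ω * nn (x / b * (b : ℝ) ^ n / (b : ℝ) ^ j) +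
          2 * |x| / (b : ℝ) ^ N) := by
      refine sum_le_sum fun n hn => (nn_X A b hb (x / b) N n ω).trans (add_le_add le_rfl ?_)
      have hn' : n ≤ N := (mem_range.1 hn).le
      have e1 : |x / b| ≤ |x| := by
        rw [abs_div, abs_of_pos hb0]
        exact div_le_self (abs_nonneg _) hb1.le
      calc |x / b| * (b : ℝ) ^ n * (2 / (b : ℝ) ^ (2 * N))
          ≤ |x| * (b : ℝ) ^ N * (2 / (b : ℝ) ^ (2 * N)) := by
            gcongr
            exact hb1.le
        _ = 2 * |x| / (b : ℝ) ^ N := by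
            rw [two_mul N, pow_add]
            field_simp
    unfold GG
    calc (∑ n ∈ range N, nn (x / b * CC (xi A) b ω * (b : ℝ) ^ n)) / N
        ≤ (∑ n ∈ range N, (∑ j ∈ range (2 * N), xi A j ω * nn (x / b * (b : ℝ) ^ n / (b : ℝ) ^ j) +
          2 * |x| / (b : ℝ) ^ N)) / N := by gcongr
      _ = _ := by
          rw [sum_add_distrib, sum_const, card_range, nsmul_eq_mul, add_div, sum_comm]
          congr 1
          · congr 1
            refine sum_congr rfl fun j _ => ?_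
            rw [mul_sum]
          · field_simp
  have hxi : ∀ j, Integrable (xi A j) μ := fun j =>
    Integrable.of_bound (xi_meas A hA j).aestronglyMeasurable 1 (Eventually.of_forall fun ω => by
      rw [Real.norm_eq_abs]; exact xi_le A j ω)
  have hxi2 : ∀ j, ∫ ω, xi A j ω ∂μ = μ.real (A j) := by
    intro j
    unfold xi
    rw [integral_indicator_const _ (hA j)]
    simp
  have hint : Integrable (fun ω => (∑ j ∈ range (2 * N), xi A j ω *
      ∑ n ∈ range N, nn (x / b * (b : ℝ) ^ n / (b : ℝ) ^ j)) / N + 2 * |x| / (b : ℝ) ^ N) μ := by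
    refine Integrable.add ?_ (integrable_const _)
    refine Integrable.div_const ?_ _
    exact integrable_finsetSum _ fun j _ => (hxi j).mul_const _
  calc ∫ ω, GG b (x / b * CC (xi A) b ω) N ∂μ
      ≤ ∫ ω, ((∑ j ∈ range (2 * N), xi A j ω *
          ∑ n ∈ range N, nn (x / b * (b : ℝ) ^ n / (b : ℝ) ^ j)) / N + 2 * |x| / (b : ℝ) ^ N) ∂μ :=
        integral_mono_of_nonneg (Eventually.of_forall fun ω => GG_nonneg _ _ _) hint
          (Eventually.of_forall h1)
    _ = (∑ j ∈ range (2 * N), μ.real (A j) *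
          ∑ n ∈ range N, nn (x / b * (b : ℝ) ^ n / (b : ℝ) ^ j)) / N + 2 * |x| / (b : ℝ) ^ N := by
        rw [integral_add ((integrable_finsetSum _ fun j _ => (hxi j).mul_const _).div_const _)
          (integrable_const _), integral_div, integral_finsetSum _ fun j _ => (hxi j).mul_const _]
        congr 1
        · congr 1
          refine sum_congr rfl fun j _ => ?_
          rw [integral_mul_const, hxi2]
        · simp
    _ ≤ (∑ j ∈ range (2 * N), μ.real (A j) * (|x| + HH b x N)) / N + 2 * |x| / (b : ℝ) ^ N := by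
        gcongr with j hj
        exact sum_j b hb x N j
    _ = _ := by rw [sum_mul]

theorem prob_normal (A : ℕ → Set Ω) (hA : ∀ j, MeasurableSet (A j)) (b : ℕ) (hb : 2 ≤ b) (x L : ℝ)
    (hL : ∀ᶠ N : ℕ in atTop,
      (∑ j ∈ range (2 * N), μ.real (A j)) * (|x| + HH b x N) / N + 2 * |x| / (b : ℝ) ^ N ≤ L) :
    μ {ω | Normal b (x / b * CC (xi A) b ω)} ≤ ENNReal.ofReal (2 * (b : ℝ) ^ 4 * L) := by
  have hb0 : (0 : ℝ) < b := by exact_mod_cast (by omega : 0 < b)
  obtain ⟨f, hf⟩ : ∃ f : ℕ → Ω → ENNReal, f = fun N ω =>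
    ENNReal.ofReal (GG b (x / b * CC (xi A) b ω) N) := ⟨_, rfl⟩
  have hGm : ∀ N, Measurable fun ω => GG b (x / b * CC (xi A) b ω) N := by
    intro N
    unfold GG
    refine Measurable.div_const (Finset.measurable_fun_sum _ fun n _ => ?_) _
    exact meas_nn.comp (((meas_CC A hA b hb).const_mul _).mul_const _)
  have hfm : ∀ N, Measurable (f N) := by
    intro N
    rw [hf]
    exact (hGm N).ennreal_ofReal
  have h1 : ∫⁻ ω, liminf (fun N => f N ω) atTop ∂μ ≤ ENNReal.ofReal L := by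
    refine (lintegral_liminf_le hfm).trans ?_
    refine liminf_le_of_frequently_le' (Eventually.frequently ?_)
    filter_upwards [hL, eventually_gt_atTop 0] with N hN hN0
    rw [hf]
    simp only
    have hint : Integrable (fun ω => GG b (x / b * CC (xi A) b ω) N) μ := by
      refine Integrable.of_bound (hGm N).aestronglyMeasurable 1 (Eventually.of_forall fun ω => ?_)
      rw [Real.norm_of_nonneg (GG_nonneg _ _ _)]
      unfold GG
      have hNr : (0 : ℝ) < N := by exact_mod_cast hN0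
      rw [div_le_one hNr]
      calc ∑ n ∈ range N, nn (x / b * CC (xi A) b ω * (b : ℝ) ^ n) ≤ ∑ n ∈ range N, (1 : ℝ) :=
            sum_le_sum fun n _ => (nn_le_half _).trans (by norm_num)
        _ = N := by simp
    rw [← ofReal_integral_eq_lintegral_ofReal hint (Eventually.of_forall fun ω => GG_nonneg _ _ _)]
    exact ENNReal.ofReal_le_ofReal ((int_GG μ A hA b hb x N hN0).trans hN)
  obtain ⟨c, hc⟩ : ∃ c : ℝ, c = 1 / (2 * (b : ℝ) ^ 4) := ⟨_, rfl⟩
  have hc0 : 0 < c := by rw [hc]; positivity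
  have h2 : {ω | Normal b (x / b * CC (xi A) b ω)} ⊆
      {ω | ENNReal.ofReal c ≤ liminf (fun N => f N ω) atTop} := by
    intro ω hω
    have h3 := GG_normal b hb _ hω
    rw [← hc] at h3
    rw [Set.mem_ofPred_eq]
    refine le_liminf_of_le (by isBoundedDefault) ?_
    filter_upwards [h3] with N hN
    rw [hf]
    exact ENNReal.ofReal_le_ofReal hN
  have h3 := meas_ge_le_lintegral_div (μ := μ) (f := fun ω => liminf (fun N => f N ω) atTop)
    (Measurable.liminf hfm).aemeasurable (ε := ENNReal.ofReal c)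
    (by rw [Ne, ENNReal.ofReal_eq_zero]; push Not; exact hc0) ENNReal.ofReal_ne_top
  calc μ {ω | Normal b (x / b * CC (xi A) b ω)}
      ≤ μ {ω | ENNReal.ofReal c ≤ liminf (fun N => f N ω) atTop} := measure_mono h2
    _ ≤ (∫⁻ ω, liminf (fun N => f N ω) atTop ∂μ) / ENNReal.ofReal c := h3
    _ ≤ ENNReal.ofReal L / ENNReal.ofReal c := by gcongr
    _ = ENNReal.ofReal (L / c) := (ENNReal.ofReal_div_of_pos hc0).symm
    _ = ENNReal.ofReal (2 * (b : ℝ) ^ 4 * L) := by
        congr 1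
        rw [hc]
        field_simp

end H41.RM
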