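import Pool.Agent.H41.RM.Sharp

/-! # Sharpness of the rate -/

set_option autoImplicit false
set_option linter.unusedSectionVars false

open Finset Filter Topology MeasureTheory ProbabilityTheory

namespace H41.RM

open H41.SW

lemma sum_inv_log (M : ℕ) (hM : 2 ≤ M) :
    ∑ j ∈ range M, 1 / Real.log ((j : ℝ) + 2) ≤ 6 * M / Real.log M := by
  have hMr : (2 : ℝ) ≤ M := by exact_mod_cast hM
  have hlM : 0 < Real.log M := Real.log_pos (by linarith)
  obtain ⟨s, hs⟩ : ∃ s, s = Nat.sqrt M := ⟨_, rfl⟩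
  have hs1 : s * s ≤ M := by rw [hs]; exact Nat.sqrt_le M
  have hs2 : M < (s + 1) * (s + 1) := by rw [hs]; exact Nat.lt_succ_sqrt M
  have h1 : ∀ j ∈ range M, 1 / Real.log ((j : ℝ) + 2) ≤ (if j < s then 2 else 0) + 2 / Real.log M := by
    intro j _
    have hj0 : (0 : ℝ) ≤ j := Nat.cast_nonneg _
    by_cases hj : j < s
    · rw [if_pos hj]
      have h2 : (1 : ℝ) / 2 ≤ Real.log ((j : ℝ) + 2) := by
        have h3 := Real.log_two_gt_d9
        have h4 := Real.log_le_log (by norm_num) (show (2 : ℝ) ≤ (j : ℝ) + 2 by linarith)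
        linarith
      have h5 : 1 / Real.log ((j : ℝ) + 2) ≤ 2 := by
        rw [div_le_iff₀ (by linarith)]
        linarith
      have h6 : 0 ≤ 2 / Real.log M := by positivity
      linarith
    · rw [if_neg hj, zero_add]
      push Not at hj
      have h2 : (M : ℝ) ≤ ((j : ℝ) + 2) ^ 2 := by
        have h3 : M ≤ (j + 2) ^ 2 := by nlinarith
        exact_mod_cast h3
      have h3 := Real.log_le_log (by linarith) h2
      rw [Real.log_pow] at h3
      push_cast at h3
      have h4 : 0 < Real.log ((j : ℝ) + 2) := Real.log_pos (by linarith)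
      rw [div_le_div_iff₀ h4 hlM]
      linarith
  refine (sum_le_sum h1).trans ?_
  rw [sum_add_distrib, sum_const, card_range, nsmul_eq_mul, ← sum_filter, sum_const, nsmul_eq_mul]
  have h2 : (#((range M).filter fun j => j < s) : ℝ) ≤ s := by
    have h3 : (range M).filter (fun j => j < s) ⊆ range s := by
      intro j hj
      exact mem_range.2 (mem_filter.1 hj).2
    have h4 := card_le_card h3
    rw [card_range] at h4
    exact_mod_cast h4
  have hlog : Real.log M ≤ 2 * s := by
    have h3 : (M : ℝ) ≤ ((s : ℝ) + 1) ^ 2 := by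
      have h4 : M ≤ (s + 1) ^ 2 := by nlinarith
      exact_mod_cast h4
    have h4 := Real.log_le_log (by linarith) h3
    rw [Real.log_pow] at h4
    push_cast at h4
    have h5 := Real.log_le_sub_one_of_pos (show (0 : ℝ) < (s : ℝ) + 1 by positivity)
    linarith
  have h3 : (s : ℝ) * Real.log M ≤ 2 * M := by
    have h4 : (s : ℝ) * s ≤ M := by exact_mod_cast hs1
    have h5 : (s : ℝ) * Real.log M ≤ s * (2 * s) := by gcongr
    linarith
  have h4 : (s : ℝ) * 2 ≤ 4 * M / Real.log M := by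
    rw [le_div_iff₀ hlM]
    linarith
  have h5 : 6 * (M : ℝ) / Real.log M = 4 * M / Real.log M + M * (2 / Real.log M) := by
    field_simp
    norm_num
  rw [h5]
  have h6 : (#((range M).filter fun j => j < s) : ℝ) * 2 ≤ s * 2 := by gcongr
  linarith

/-- **Sharpness of the logarithm for numbers that are not Liouville numbers.** -/
theorem sharp_log (b : ℕ) (hb : 2 ≤ b) (ε : ℝ) (hε : 0 < ε) : ∃ κ : ℝ, 0 < κ ∧
    ∀ (Ω : Type) [MeasurableSpace Ω] (μ : Measure Ω) [IsProbabilityMeasure μ] (A : ℕ → Set Ω),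
      (∀ j, MeasurableSet (A j)) → (∀ j : ℕ, μ.real (A j) ≤ κ / Real.log ((j : ℝ) + 2)) →
      μ {ω | Normal b (sx b (fun k => 2 ^ k) / b * CC (xi A) b ω)} ≤ ENNReal.ofReal ε := by
  have hb1 : (1 : ℝ) < b := by exact_mod_cast (by omega : 1 < b)
  have hb2 : (2 : ℝ) ≤ b := by exact_mod_cast hb
  have hb0 : (0 : ℝ) < b := by linarith
  obtain ⟨κ, hκ⟩ : ∃ κ : ℝ, κ = ε / (194 * (b : ℝ) ^ 4) := ⟨_, rfl⟩
  have hκ0 : 0 < κ := by rw [hκ]; positivity
  refine ⟨κ, hκ0, ?_⟩
  intro Ω _ μ _ A hA hp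
  obtain ⟨x, hx⟩ : ∃ x, x = sx b fun k => 2 ^ k := ⟨_, rfl⟩
  rw [← hx]
  have hxabs : |x| ≤ 1 := by
    obtain ⟨t1, t2⟩ := tail_sx b hb (fun k => 2 ^ k) two_pow_mono 0
    rw [← hx] at t1 t2
    simp only [range_zero, sum_empty, sub_zero, pow_zero, pow_one] at t1 t2
    rw [abs_of_nonneg (le_trans (by positivity) t1)]
    refine t2.trans ?_
    rw [div_le_one hb0]
    exact hb2
  have h1 := prob_normal μ A hA b hb x (97 * κ) (by
    have htail : Tendsto (fun N : ℕ => 2 * |x| / (b : ℝ) ^ N) atTop (𝓝 0) :=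
      tendsto_const_nhds.div_atTop (tendsto_pow_atTop_atTop_of_one_lt hb1)
    filter_upwards [htail.eventually (ge_mem_nhds hκ0), eventually_ge_atTop 2] with N hN hN2
    have hNr : (2 : ℝ) ≤ N := by exact_mod_cast hN2
    have hN0 : (0 : ℝ) < N := by linarith
    have hlN : 0 ≤ Real.log N := Real.log_nonneg (by linarith)
    have hl2N : 1 ≤ Real.log ((2 * N : ℕ) : ℝ) := by
      push_cast
      have h3 := Real.log_two_gt_d9
      have h4 : Real.log (2 ^ 2 : ℝ) ≤ Real.log (2 * (N : ℝ)) :=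
        Real.log_le_log (by norm_num) (by linarith)
      rw [Real.log_pow] at h4
      push_cast at h4
      linarith
    have hl2N' : Real.log N ≤ Real.log ((2 * N : ℕ) : ℝ) := by
      push_cast
      exact Real.log_le_log hN0 (by linarith)
    have hsum : ∑ j ∈ range (2 * N), μ.real (A j) ≤ κ * (6 * ((2 * N : ℕ) : ℝ) / Real.log ((2 * N : ℕ) : ℝ)) := by
      calc ∑ j ∈ range (2 * N), μ.real (A j) ≤ ∑ j ∈ range (2 * N), κ * (1 / Real.log ((j : ℝ) + 2)) := by
            refine sum_le_sum fun j _ => (hp j).trans (le_of_eq ?_)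
            ring
        _ = κ * ∑ j ∈ range (2 * N), 1 / Real.log ((j : ℝ) + 2) := by rw [mul_sum]
        _ ≤ _ := by
            gcongr
            exact sum_inv_log (2 * N) (by omega)
    have hH : |x| + HH b x N ≤ 8 * Real.log ((2 * N : ℕ) : ℝ) := by
      have h3 := HH_two b hb N
      rw [← hx] at h3
      have h4 : Real.logb 2 N ≤ 3 / 2 * Real.log N := by
        unfold Real.logb
        have h5 := Real.log_two_gt_d9
        rw [div_le_iff₀ (by linarith)]
        nlinarith
      linarith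
    have hHn : 0 ≤ |x| + HH b x N := add_nonneg (abs_nonneg _) (HH_nonneg _ _ _)
    have hmain : (∑ j ∈ range (2 * N), μ.real (A j)) * (|x| + HH b x N) / N ≤ 96 * κ := by
      rw [div_le_iff₀ hN0]
      calc (∑ j ∈ range (2 * N), μ.real (A j)) * (|x| + HH b x N)
          ≤ (κ * (6 * ((2 * N : ℕ) : ℝ) / Real.log ((2 * N : ℕ) : ℝ))) * (8 * Real.log ((2 * N : ℕ) : ℝ)) := by
            gcongr
        _ = 96 * κ * N := by
            have : Real.log ((2 * N : ℕ) : ℝ) ≠ 0 := by linarith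
            field_simp
            push_cast
            ring
    linarith)
  refine h1.trans (le_of_eq ?_)
  congr 1
  rw [hκ]
  field_simp
  norm_num

/-- **If the probabilities tend to zero, the assertion fails for some irrational number.** -/
theorem sharp_zero (b : ℕ) (hb : 2 ≤ b) (p : ℕ → ℝ) (hp : Tendsto p atTop (𝓝 0)) : ∃ x : ℝ, Irrational x ∧
    ∀ (Ω : Type) [MeasurableSpace Ω] (μ : Measure Ω) [IsProbabilityMeasure μ] (A : ℕ → Set Ω),
      (∀ j, MeasurableSet (A j)) → (∀ j : ℕ, μ.real (A j) ≤ p j) →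
      μ {ω | Normal b (x / b * CC (xi A) b ω)} = 0 := by
  classical
  have hb1 : (1 : ℝ) < b := by exact_mod_cast (by omega : 1 < b)
  have hb0 : (0 : ℝ) < b := by linarith
  obtain ⟨a, ha⟩ : ∃ a : ℕ → ℝ, a = fun N => (∑ j ∈ range (2 * N), p j) / N := ⟨_, rfl⟩
  have ha0 : Tendsto a atTop (𝓝 0) := by
    have h1 := hp.cesaro
    have h2 : Tendsto (fun N : ℕ => 2 * N) atTop atTop :=
      tendsto_atTop_mono (fun N => by simp only [id]; omega) tendsto_id
    have h3 := (h1.comp h2).const_mul 2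
    rw [mul_zero] at h3
    refine h3.congr fun N => ?_
    rw [ha]
    simp only [Function.comp]
    push_cast
    rcases Nat.eq_zero_or_pos N with h | h
    · subst h; simp
    · have : (N : ℝ) ≠ 0 := by positivity
      field_simp
  obtain ⟨φ, hφ, hφ2⟩ := extraction_forall_of_eventually (P := fun n k => ∀ N ≥ k, a N ≤ 1 / ((n : ℝ) + 1) ^ 2)
    (fun n => by
      have h1 := ha0.eventually (ge_mem_nhds (show (0 : ℝ) < 1 / ((n : ℝ) + 1) ^ 2 by positivity))
      obtain ⟨k0, hk0⟩ := eventually_atTop.1 h1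
      filter_upwards [eventually_ge_atTop k0] with k hk
      intro N hN
      exact hk0 N (hk.trans hN))
  obtain ⟨m, hm⟩ : ∃ m : ℕ → ℕ, m = fun k => φ (2 ^ k) := ⟨_, rfl⟩
  have hmm : StrictMono m := by
    rw [hm]
    exact hφ.comp two_pow_mono
  have hgap : ∀ g : ℕ, ∃ K, m K + g ≤ m (K + 1) := by
    intro g
    refine ⟨g, ?_⟩
    have h1 : ∀ s t : ℕ, φ s + t ≤ φ (s + t) := by
      intro s t
      induction t with
      | zero => simp
      | succ t ih =>
        have := hφ (show s + t < s + (t + 1) by omega)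
        omega
    have h2 := h1 (2 ^ g) (2 ^ g)
    have h3 : g < 2 ^ g := Nat.lt_two_pow_self
    rw [hm]
    simp only
    have h4 : 2 ^ (g + 1) = 2 ^ g + 2 ^ g := by ring
    rw [h4]
    omega
  obtain ⟨x, hx⟩ : ∃ x, x = sx b m := ⟨_, rfl⟩
  refine ⟨x, by rw [hx]; exact irr_sx b hb m hmm hgap, ?_⟩
  intro Ω _ μ _ A hA hpA
  have key : ∀ L : ℝ, 0 < L → μ {ω | Normal b (x / b * CC (xi A) b ω)} ≤ ENNReal.ofReal (2 * (b : ℝ) ^ 4 * L) := by
    intro L hL
    refine prob_normal μ A hA b hb x L ?_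
    obtain ⟨K0, hK0⟩ := exists_nat_ge ((|x| + 4) / (L / 2))
    have htail : Tendsto (fun N : ℕ => 2 * |x| / (b : ℝ) ^ N) atTop (𝓝 0) :=
      tendsto_const_nhds.div_atTop (tendsto_pow_atTop_atTop_of_one_lt hb1)
    filter_upwards [htail.eventually (ge_mem_nhds (show (0 : ℝ) < L / 2 by positivity)),
      eventually_ge_atTop (m K0 + 1)] with N hN hN2
    obtain ⟨k, hk⟩ : ∃ k, k = Nat.findGreatest (fun k => m k ≤ N) N := ⟨_, rfl⟩
    have hkK : K0 ≤ k := by
      rw [hk]
      have h1 : K0 ≤ m K0 := hmm.le_apply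
      exact Nat.le_findGreatest (by omega) (by omega)
    have hk1 : m k ≤ N := by
      rw [hk]
      have h1 : K0 ≤ m K0 := hmm.le_apply
      exact Nat.findGreatest_spec (P := fun k => m k ≤ N) (m := K0) (by omega) (by omega)
    have hk2 : N ≤ m (k + 1) := by
      by_contra hcon
      push Not at hcon
      have h1 : k + 1 ≤ m (k + 1) := hmm.le_apply
      have h2 : k + 1 ≤ Nat.findGreatest (fun k => m k ≤ N) N := Nat.le_findGreatest (by omega) hcon.le
      omega
    have hN0 : (0 : ℝ) < N := by exact_mod_cast (by omega : 0 < N)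
    have hH : HH b x N ≤ 2 * ((k : ℝ) + 2) := by
      have h0 := HH_sx b hb m hmm (k + 1)
      rw [← hx] at h0
      have h1 := (HH_mono b x hk2).trans h0
      refine h1.trans (le_of_eq ?_)
      push_cast
      ring
    have haN : a N ≤ 1 / ((k : ℝ) + 1) ^ 2 := by
      have h1 := hφ2 (2 ^ k) N (by rw [hm] at hk1; exact hk1)
      refine h1.trans ?_
      push_cast
      have h2 : (k : ℝ) ≤ 2 ^ k := by exact_mod_cast (Nat.lt_two_pow_self (n := k)).le
      gcongr
    have hsum : ∑ j ∈ range (2 * N), μ.real (A j) ≤ ∑ j ∈ range (2 * N), p j :=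
      sum_le_sum fun j _ => hpA j
    have hk0 : (0 : ℝ) ≤ k := Nat.cast_nonneg _
    have hx0 : 0 ≤ |x| := abs_nonneg x
    have hmain : (∑ j ∈ range (2 * N), μ.real (A j)) * (|x| + HH b x N) / N ≤ L / 2 := by
      calc (∑ j ∈ range (2 * N), μ.real (A j)) * (|x| + HH b x N) / N
          ≤ (∑ j ∈ range (2 * N), p j) * (|x| + HH b x N) / N := by
            have := HH_nonneg b x N
            gcongr
        _ = a N * (|x| + HH b x N) := by rw [ha]; ring
        _ ≤ 1 / ((k : ℝ) + 1) ^ 2 * (|x| + HH b x N) := by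
            have := HH_nonneg b x N
            gcongr
        _ ≤ 1 / ((k : ℝ) + 1) ^ 2 * ((|x| + 4) * (k + 1)) := by
            gcongr
            nlinarith
        _ = (|x| + 4) / ((k : ℝ) + 1) := by field_simp
        _ ≤ L / 2 := by
            rw [div_le_iff₀ (by positivity)] at hK0 ⊢
            have h5 : (K0 : ℝ) ≤ k := by exact_mod_cast hkK
            nlinarith
    linarith
  by_contra hne
  have hfin : μ {ω | Normal b (x / b * CC (xi A) b ω)} ≠ ⊤ := measure_ne_top _ _
  obtain ⟨q, hq⟩ : ∃ q : ℝ, q = (μ {ω | Normal b (x / b * CC (xi A) b ω)}).toReal := ⟨_, rfl⟩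
  have hq0 : 0 < q := by rw [hq]; exact ENNReal.toReal_pos hne hfin
  have h1 := key (q / (4 * (b : ℝ) ^ 4)) (by positivity)
  have h2 : 2 * (b : ℝ) ^ 4 * (q / (4 * (b : ℝ) ^ 4)) = q / 2 := by field_simp; norm_num
  rw [h2] at h1
  have h3 := ENNReal.toReal_mono ENNReal.ofReal_ne_top h1
  rw [ENNReal.toReal_ofReal (by positivity), ← hq] at h3
  linarith

end H41.RM
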