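import Pool.Agent.H41.RM.Nn

/-! # Numbers with very few nonzero digits -/

set_option autoImplicit false

open Finset Filter Topology

namespace H41.RM

lemma nn_zero : nn 0 = 0 := by simp [nn]

lemma nn_le_abs' (t : ℝ) : nn t ≤ |t| := by
  have := nn_le t 0
  simpa using this

lemma nn_add (s t : ℝ) : nn (s + t) ≤ nn s + nn t := by
  have h1 := nn_le (s + t) (round s + round t)
  refine h1.trans ?_
  push_cast
  rw [show s + t - (round s + round t) = (s - round s) + (t - round t) by ring]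
  exact abs_add_le _ _

lemma nn_sum {ι : Type*} (S : Finset ι) (f : ι → ℝ) : nn (∑ j ∈ S, f j) ≤ ∑ j ∈ S, nn (f j) := by
  classical
  induction S using Finset.induction_on with
  | empty => simp [nn_zero]
  | insert j S hj ih =>
    rw [sum_insert hj, sum_insert hj]
    exact (nn_add _ _).trans (by linarith)

/-- the sum of the first energies -/
noncomputable def HH (b : ℕ) (x : ℝ) (N : ℕ) : ℝ := ∑ l ∈ range N, nn (x * (b : ℝ) ^ l)

lemma HH_nonneg (b : ℕ) (x : ℝ) (N : ℕ) : 0 ≤ HH b x N := sum_nonneg fun _ _ => nn_nonneg _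

lemma HH_mono (b : ℕ) (x : ℝ) {N N' : ℕ} (h : N ≤ N') : HH b x N ≤ HH b x N' :=
  sum_le_sum_of_subset_of_nonneg (range_subset_range.2 h) fun _ _ _ => nn_nonneg _

/-- the number with the digits one at the places `m k` -/
noncomputable def sx (b : ℕ) (m : ℕ → ℕ) : ℝ := ∑' k, 1 / (b : ℝ) ^ (m k)

lemma summ_sx (b : ℕ) (hb : 2 ≤ b) (m : ℕ → ℕ) (hm : StrictMono m) :
    Summable fun k => 1 / (b : ℝ) ^ (m k) := by
  have hb1 : (1 : ℝ) < b := by exact_mod_cast (by omega : 1 < b)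
  have hs : Summable fun j : ℕ => (1 / (b : ℝ)) ^ j :=
    summable_geometric_of_lt_one (by positivity) (by rw [div_lt_one (by linarith)]; exact hb1)
  refine Summable.of_nonneg_of_le (fun k => by positivity) (fun k => ?_) hs
  rw [one_div_pow]
  have : k ≤ m k := hm.le_apply
  exact one_div_le_one_div_of_le (by positivity) (pow_le_pow_right₀ hb1.le this)

lemma tail_sx (b : ℕ) (hb : 2 ≤ b) (m : ℕ → ℕ) (hm : StrictMono m) (K : ℕ) :
    1 / (b : ℝ) ^ (m K) ≤ sx b m - ∑ k ∈ range K, 1 / (b : ℝ) ^ (m k) ∧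
    sx b m - ∑ k ∈ range K, 1 / (b : ℝ) ^ (m k) ≤ 2 / (b : ℝ) ^ (m K) := by
  have hb1 : (1 : ℝ) < b := by exact_mod_cast (by omega : 1 < b)
  have hb2 : (2 : ℝ) ≤ b := by exact_mod_cast hb
  have hs := summ_sx b hb m hm
  have e1 := hs.sum_add_tsum_nat_add K
  have e2 : sx b m - ∑ k ∈ range K, 1 / (b : ℝ) ^ (m k) = ∑' j, 1 / (b : ℝ) ^ (m (j + K)) := by
    unfold sx
    rw [← e1]
    ring
  rw [e2]
  have hs2 : Summable fun j => 1 / (b : ℝ) ^ (m (j + K)) := (summable_nat_add_iff K).2 hs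
  constructor
  · have := hs2.le_tsum 0 fun j _ => by positivity
    rw [zero_add] at this
    exact this
  · have hg : HasSum (fun j : ℕ => (1 / (b : ℝ)) ^ j) (1 - 1 / (b : ℝ))⁻¹ :=
      hasSum_geometric_of_lt_one (by positivity) (by rw [div_lt_one (by linarith)]; exact hb1)
    have hg2 : HasSum (fun j : ℕ => (1 / (b : ℝ)) ^ j / (b : ℝ) ^ (m K))
      ((1 - 1 / (b : ℝ))⁻¹ / (b : ℝ) ^ (m K)) := hg.div_const _
    have h3 : ∑' j, 1 / (b : ℝ) ^ (m (j + K)) ≤ (1 - 1 / (b : ℝ))⁻¹ / (b : ℝ) ^ (m K) := by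
      refine hasSum_le (fun j => ?_) hs2.hasSum hg2
      rw [one_div_pow, div_div, ← pow_add]
      refine one_div_le_one_div_of_le (by positivity) (pow_le_pow_right₀ hb1.le ?_)
      have h4 : ∀ j, j + m K ≤ m (j + K) := by
        intro j
        induction j with
        | zero => simp
        | succ j ih =>
          have := hm (show j + K < j + 1 + K by omega)
          omega
      exact h4 j
    refine h3.trans ?_
    gcongr
    rw [inv_le_comm₀ (by rw [sub_pos, div_lt_one (by linarith)]; exact hb1) (by norm_num)]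
    have : 1 / (b : ℝ) ≤ 1 / 2 := by gcongr
    linarith

lemma int_part (b : ℕ) (hb : 2 ≤ b) (m : ℕ → ℕ) (K l : ℕ) (h : ∀ k < K, m k ≤ l) :
    ∃ z : ℤ, (∑ k ∈ range K, 1 / (b : ℝ) ^ (m k)) * (b : ℝ) ^ l = z := by
  have hb0 : (0 : ℝ) < b := by exact_mod_cast (by omega : 0 < b)
  refine ⟨∑ k ∈ range K, (b : ℤ) ^ (l - m k), ?_⟩
  push_cast
  rw [sum_mul]
  refine sum_congr rfl fun k hk => ?_
  have h1 := h k (mem_range.1 hk)
  have h2 : (b : ℝ) ^ l = (b : ℝ) ^ (m k) * (b : ℝ) ^ (l - m k) := by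
    rw [← pow_add]
    congr 1
    omega
  rw [h2]
  field_simp

lemma nn_sx (b : ℕ) (hb : 2 ≤ b) (m : ℕ → ℕ) (hm : StrictMono m) (K l : ℕ) (h : ∀ k < K, m k ≤ l) :
    nn (sx b m * (b : ℝ) ^ l) ≤ 2 * (b : ℝ) ^ l / (b : ℝ) ^ (m K) := by
  have hb0 : (0 : ℝ) < b := by exact_mod_cast (by omega : 0 < b)
  obtain ⟨z, hz⟩ := int_part b hb m K l h
  have h1 := nn_le (sx b m * (b : ℝ) ^ l) z
  rw [← hz] at h1
  refine h1.trans ?_
  obtain ⟨t1, t2⟩ := tail_sx b hb m hm K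
  rw [← sub_mul, abs_mul, abs_of_pos (show (0 : ℝ) < (b : ℝ) ^ l by positivity), abs_of_nonneg (le_trans (by positivity) t1)]
  calc (sx b m - ∑ k ∈ range K, 1 / (b : ℝ) ^ (m k)) * (b : ℝ) ^ l
      ≤ (2 / (b : ℝ) ^ (m K)) * (b : ℝ) ^ l := by gcongr
    _ = _ := by ring

lemma geom_le (b : ℕ) (hb : 2 ≤ b) (M : ℕ) : ∑ l ∈ range M, (b : ℝ) ^ l ≤ (b : ℝ) ^ M := by
  have hb2 : (2 : ℝ) ≤ b := by exact_mod_cast hb
  induction M with
  | zero => simp
  | succ M ih =>
    rw [sum_range_succ, pow_succ]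
    nlinarith [show (0 : ℝ) < (b : ℝ) ^ M by positivity]

lemma HH_sx (b : ℕ) (hb : 2 ≤ b) (m : ℕ → ℕ) (hm : StrictMono m) (K : ℕ) :
    HH b (sx b m) (m K) ≤ 2 * (K + 1) := by
  have hb0 : (0 : ℝ) < b := by exact_mod_cast (by omega : 0 < b)
  have key : ∀ K s : ℕ, (∀ k < K, m k ≤ s) → ∑ l ∈ Ico s (m K), nn (sx b m * (b : ℝ) ^ l) ≤ 2 := by
    intro K s hs
    calc ∑ l ∈ Ico s (m K), nn (sx b m * (b : ℝ) ^ l)
        ≤ ∑ l ∈ Ico s (m K), 2 * (b : ℝ) ^ l / (b : ℝ) ^ (m K) := by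
          refine sum_le_sum fun l hl => ?_
          rw [mem_Ico] at hl
          exact nn_sx b hb m hm K l fun k hk => (hs k hk).trans hl.1
      _ ≤ ∑ l ∈ range (m K), 2 * (b : ℝ) ^ l / (b : ℝ) ^ (m K) := by
          refine sum_le_sum_of_subset_of_nonneg (fun l hl => ?_) fun l _ _ => by positivity
          rw [mem_Ico] at hl
          exact mem_range.2 hl.2
      _ = 2 * (∑ l ∈ range (m K), (b : ℝ) ^ l) / (b : ℝ) ^ (m K) := by
          rw [mul_sum, sum_div]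
      _ ≤ 2 * (b : ℝ) ^ (m K) / (b : ℝ) ^ (m K) := by
          gcongr
          exact geom_le b hb _
      _ = 2 := by field_simp
  induction K with
  | zero =>
    have := key 0 0 (fun k hk => absurd hk (by omega))
    unfold HH
    rw [range_eq_Ico]
    push_cast
    linarith
  | succ K ih =>
    have h1 := key (K + 1) (m K) fun k hk => hm.monotone (by omega)
    have h2 : HH b (sx b m) (m (K + 1)) = HH b (sx b m) (m K) +
        ∑ l ∈ Ico (m K) (m (K + 1)), nn (sx b m * (b : ℝ) ^ l) :=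
      (Finset.sum_range_add_sum_Ico _ (hm.monotone (by omega))).symm
    rw [h2]
    push_cast
    linarith

/-- Unbounded gaps give irrational numbers. -/
lemma irr_sx (b : ℕ) (hb : 2 ≤ b) (m : ℕ → ℕ) (hm : StrictMono m)
    (hgap : ∀ g : ℕ, ∃ K, m K + g ≤ m (K + 1)) : Irrational (sx b m) := by
  have hb1 : (1 : ℝ) < b := by exact_mod_cast (by omega : 1 < b)
  rintro ⟨r, hr⟩
  have hd : (0 : ℝ) < r.den := by exact_mod_cast r.den_pos
  obtain ⟨g, hg⟩ := pow_unbounded_of_one_lt (2 * (r.den : ℝ)) hb1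
  obtain ⟨K, hK⟩ := hgap g
  obtain ⟨z, hz⟩ := int_part b hb m (K + 1) (m K) fun k hk => hm.monotone (by omega)
  obtain ⟨t1, t2⟩ := tail_sx b hb m hm (K + 1)
  obtain ⟨D, hD⟩ : ∃ D, D = (sx b m - ∑ k ∈ range (K + 1), 1 / (b : ℝ) ^ (m k)) *
    (b : ℝ) ^ (m K) * r.den := ⟨_, rfl⟩
  have h1 : D = ((r.num * (b : ℤ) ^ (m K) - z * r.den : ℤ) : ℝ) := by
    rw [hD, sub_mul, hz, sub_mul, ← hr]
    push_cast
    have h2 : (r : ℝ) * r.den = r.num := by
      have := Rat.mul_den_eq_num r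
      exact_mod_cast this
    linear_combination (b : ℝ) ^ (m K) * h2
  have h2 : 0 < D := by
    rw [hD]
    have : 0 < sx b m - ∑ k ∈ range (K + 1), 1 / (b : ℝ) ^ (m k) := lt_of_lt_of_le (by positivity) t1
    positivity
  have h3 : D < 1 := by
    rw [hD]
    calc (sx b m - ∑ k ∈ range (K + 1), 1 / (b : ℝ) ^ (m k)) * (b : ℝ) ^ (m K) * r.den
        ≤ (2 / (b : ℝ) ^ (m (K + 1))) * (b : ℝ) ^ (m K) * r.den := by gcongr
      _ ≤ (2 / (b : ℝ) ^ (m K + g)) * (b : ℝ) ^ (m K) * r.den := by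
          gcongr
          exact hb1.le
      _ = 2 * r.den / (b : ℝ) ^ g := by
          rw [pow_add]
          field_simp
      _ < 1 := by
          rw [div_lt_one (by positivity)]
          exact hg
  rw [h1] at h2 h3
  have h4 : (0 : ℤ) < r.num * (b : ℤ) ^ (m K) - z * r.den := by exact_mod_cast h2
  have h5 : r.num * (b : ℤ) ^ (m K) - z * r.den < 1 := by exact_mod_cast h3
  omega

lemma two_pow_mono : StrictMono fun k : ℕ => 2 ^ k := fun _ _ h => Nat.pow_lt_pow_right (by norm_num) h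

lemma irr_two (b : ℕ) (hb : 2 ≤ b) : Irrational (sx b fun k => 2 ^ k) := by
  refine irr_sx b hb _ two_pow_mono fun g => ⟨g, ?_⟩
  have h1 : g < 2 ^ g := Nat.lt_two_pow_self
  simp only [pow_succ]
  omega

/-- The number with the digits one at the powers of two is not a Liouville number. -/
lemma nonliou_two (b : ℕ) (hb : 2 ≤ b) : ¬ Liouville (sx b fun k => 2 ^ k) := by
  have hb1 : (1 : ℝ) < b := by exact_mod_cast (by omega : 1 < b)
  have hb0 : (0 : ℝ) < b := by linarith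
  obtain ⟨s, hs⟩ := pow_unbounded_of_one_lt (256 * (b : ℝ) ^ 2) (show (1 : ℝ) < 2 by norm_num)
  intro hL
  obtain ⟨p, q, hq, hne, hlt⟩ := hL (4 + s)
  obtain ⟨x, hx⟩ : ∃ x, x = sx b fun k => 2 ^ k := ⟨_, rfl⟩
  rw [← hx] at hne hlt
  have hq0 : (2 : ℝ) ≤ q := by exact_mod_cast (by omega : 2 ≤ q)
  -- choice of the truncation
  have hex : ∃ n : ℕ, 4 * (q : ℝ) ≤ (b : ℝ) ^ (2 ^ n) := by
    obtain ⟨n, hn⟩ := pow_unbounded_of_one_lt (4 * (q : ℝ)) hb1
    refine ⟨n, hn.le.trans ?_⟩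
    exact pow_le_pow_right₀ hb1.le (Nat.lt_two_pow_self).le
  classical
  obtain ⟨n, hn⟩ : ∃ n, n = Nat.find hex := ⟨_, rfl⟩
  have hn1 : 4 * (q : ℝ) ≤ (b : ℝ) ^ (2 ^ n) := by rw [hn]; exact Nat.find_spec hex
  obtain ⟨Q, hQ⟩ : ∃ Q : ℝ, Q = (b : ℝ) ^ (2 ^ n) := ⟨_, rfl⟩
  rw [← hQ] at hn1
  have hQ0 : 0 < Q := by rw [hQ]; positivity
  have hQ2 : Q ≤ 16 * b * (q : ℝ) ^ 2 := by
    rcases Nat.eq_zero_or_pos n with h0 | h0
    · rw [hQ, h0]
      simp only [pow_zero, pow_one]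
      have : (1 : ℝ) ≤ 16 * (q : ℝ) ^ 2 := by nlinarith
      calc (b : ℝ) = b * 1 := by ring
        _ ≤ b * (16 * (q : ℝ) ^ 2) := by gcongr
        _ = _ := by ring
    · have h1 : (b : ℝ) ^ (2 ^ (n - 1)) < 4 * q := by
        have := Nat.find_min hex (m := n - 1) (by omega)
        push Not at this
        exact this
      have h2 : Q = ((b : ℝ) ^ (2 ^ (n - 1))) ^ 2 := by
        rw [hQ, ← pow_mul, ← pow_succ]
        congr 2
        omega
      rw [h2]
      calc ((b : ℝ) ^ (2 ^ (n - 1))) ^ 2 ≤ (4 * (q : ℝ)) ^ 2 := by gcongr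
        _ = 1 * (16 * (q : ℝ) ^ 2) := by ring
        _ ≤ b * (16 * (q : ℝ) ^ 2) := by gcongr
        _ = _ := by ring
  obtain ⟨z, hz⟩ := int_part b hb (fun k => 2 ^ k) (n + 1) (2 ^ n) fun k hk =>
    Nat.pow_le_pow_right (by norm_num) (by omega)
  obtain ⟨t1, t2⟩ := tail_sx b hb (fun k => 2 ^ k) two_pow_mono (n + 1)
  have hQQ : (b : ℝ) ^ (2 ^ (n + 1)) = Q ^ 2 := by
    rw [hQ, ← pow_mul, pow_succ]
  rw [hQQ] at t1 t2
  rw [← hQ] at hz
  obtain ⟨P, hP⟩ : ∃ P : ℝ, P = ∑ k ∈ range (n + 1), 1 / (b : ℝ) ^ 2 ^ k := ⟨_, rfl⟩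
  rw [← hx, ← hP] at t1 t2
  rw [← hP] at hz
  have hfin : 1 / (q : ℝ) ^ (4 + s) ≤ |x - p / q| := by
    have hbig : (256 : ℝ) * b ^ 2 * q ^ 4 ≤ (q : ℝ) ^ (4 + s) := by
      rw [pow_add]
      calc (256 : ℝ) * b ^ 2 * q ^ 4 = (q : ℝ) ^ 4 * (256 * (b : ℝ) ^ 2) := by ring
        _ ≤ (q : ℝ) ^ 4 * (2 : ℝ) ^ s := by gcongr
        _ ≤ (q : ℝ) ^ 4 * (q : ℝ) ^ s := by gcongr
    by_cases hc : P = p / q
    · have h1 : 1 / Q ^ 2 ≤ |x - p / q| := by
        rw [← hc]
        exact t1.trans (le_abs_self _)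
      refine le_trans ?_ h1
      refine one_div_le_one_div_of_le (by positivity) ?_
      calc Q ^ 2 ≤ (16 * (b : ℝ) * (q : ℝ) ^ 2) ^ 2 := by gcongr
        _ = 256 * (b : ℝ) ^ 2 * (q : ℝ) ^ 4 := by ring
        _ ≤ _ := hbig
    · have h1 : 1 / (q * Q) ≤ |P - p / q| := by
        have h2 : P = z / Q := by rw [← hz]; field_simp
        have h3 : P - p / q = (z * q - p * Q) / (q * Q) := by
          rw [h2]
          field_simp
        have h4 : (1 : ℝ) ≤ |z * q - p * Q| := by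
          have h5 : (z * q - p * Q : ℝ) = ((z * q - p * (b : ℤ) ^ (2 ^ n) : ℤ) : ℝ) := by
            push_cast
            rw [hQ]
          rw [h5]
          have h6 : z * q - p * (b : ℤ) ^ (2 ^ n) ≠ 0 := by
            intro h7
            apply hc
            have h8 : (z * q - p * Q : ℝ) = 0 := by
              rw [h5, h7]
              norm_num
            rw [h2]
            field_simp
            linarith
          have := Int.one_le_abs h6
          exact_mod_cast this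
        rw [h3, abs_div, abs_of_pos (show (0 : ℝ) < q * Q by positivity)]
        gcongr
      have h2 : |x - P| ≤ 1 / (2 * (q * Q)) := by
        rw [abs_of_nonneg (le_trans (by positivity) t1)]
        refine t2.trans ?_
        rw [div_le_div_iff₀ (by positivity) (by positivity)]
        nlinarith
      have h3 : 1 / (2 * (q * Q)) ≤ |x - p / q| := by
        have h4 : |P - p / q| ≤ |x - p / q| + |x - P| := by
          have := abs_sub_le P x (p / q)
          rw [abs_sub_comm P x] at this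
          linarith
        have h5 : 1 / (q * Q) = 1 / (2 * (q * Q)) + 1 / (2 * (q * Q)) := by
          field_simp
          norm_num
        linarith
      refine le_trans ?_ h3
      refine one_div_le_one_div_of_le (by positivity) ?_
      calc 2 * ((q : ℝ) * Q) ≤ 2 * ((q : ℝ) * (16 * (b : ℝ) * (q : ℝ) ^ 2)) := by gcongr
        _ = 32 * (b : ℝ) * (q : ℝ) ^ 3 := by ring
        _ ≤ 256 * (b : ℝ) ^ 2 * (q : ℝ) ^ 4 := by
            have e1 : (b : ℝ) ≤ (b : ℝ) ^ 2 := by nlinarith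
            have e2 : (q : ℝ) ^ 3 ≤ (q : ℝ) ^ 4 := pow_le_pow_right₀ (by linarith) (by norm_num)
            calc 32 * (b : ℝ) * (q : ℝ) ^ 3 ≤ 32 * (b : ℝ) ^ 2 * (q : ℝ) ^ 4 := by gcongr
              _ ≤ _ := by
                have : 0 ≤ (b : ℝ) ^ 2 * (q : ℝ) ^ 4 := by positivity
                linarith
        _ ≤ _ := hbig
  linarith

lemma HH_two (b : ℕ) (hb : 2 ≤ b) (N : ℕ) :
    HH b (sx b fun k => 2 ^ k) N ≤ 2 * (Real.logb 2 N + 2) := by
  have h1 : N < 2 ^ (Nat.log 2 N + 1) := Nat.lt_pow_succ_log_self (by norm_num) N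
  have h2 := HH_sx b hb (fun k => 2 ^ k) two_pow_mono (Nat.log 2 N + 1)
  have h3 := (HH_mono b (sx b fun k => 2 ^ k) h1.le).trans h2
  refine h3.trans ?_
  push_cast
  have h4 : (Nat.log 2 N : ℝ) ≤ Real.logb 2 N := Real.natLog_le_logb N 2
  linarith

end H41.RM
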